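import Pool.Agent.TH990.FU.Det

/-!
The outer boundary of the limits has dimension at most `4/3`.
-/

set_option autoImplicit false

namespace Pool.Agent.TH990.FU

open H974 H12S Finset H389NS H984P H984N H342P H342L H342T
open MeasureTheory Filter Topology Pool.Agent.W92.DP Pool.Agent.W822.PD Pool.Agent.W462.DPL
open Pool.Agent.W424.OD Pool.Agent.W978.PDUL
open scoped ENNReal NNReal

/-! ### Events -/

theorem EvO_open (z : ℂ) (r ρ ζ : ℝ) : IsOpen (EvO z r ρ ζ) := by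
  rw [Metric.isOpen_iff]
  rintro c ⟨⟨s, hs⟩, ⟨s', hs'⟩, g, hg0, hg1, hg⟩
  -- the distance is bounded below by something larger than `ζ`
  have hcont : Continuous (fun p : unitInterval × unitInterval => dist (g p.2) (c.path p.1)) := by
    fun_prop
  obtain ⟨p, -, hp⟩ := (isCompact_univ (X := unitInterval × unitInterval)).exists_isMinOn
    ⟨(0, 0), Set.mem_univ _⟩ hcont.continuousOn
  have hmin : ∀ s t, dist (g p.2) (c.path p.1) ≤ dist (g t) (c.path s) := fun s t =>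
    hp (Set.mem_univ (s, t))
  have hpp := hg p.1 p.2
  set ε : ℝ := min (min (r - dist (c.path s) z) (dist (c.path s') z - ρ))
    (dist (g p.2) (c.path p.1) - ζ) with hε
  have hpos : 0 < ε := lt_min (lt_min (by linarith) (by linarith)) (by linarith)
  have e1 : ε ≤ r - dist (c.path s) z := (min_le_left _ _).trans (min_le_left _ _)
  have e2 : ε ≤ dist (c.path s') z - ρ := (min_le_left _ _).trans (min_le_right _ _)
  have e3 : ε ≤ dist (g p.2) (c.path p.1) - ζ := min_le_right _ _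
  refine ⟨ε, hpos, fun c' hcc' => ?_⟩
  rw [Metric.mem_ball, Curve.dist_def, cdist_eq] at hcc'
  obtain ⟨φ, hφ⟩ := exists_lt_of_ciInf_lt hcc'
  have key : ∀ x : unitInterval, dist (c'.path x) (c.path (φ x)) < ε := by
    intro x
    have h := ContinuousMap.dist_apply_le_dist (f := c'.path) (g := rep c.path φ) x
    rw [rep_apply] at h
    exact lt_of_le_of_lt h hφ
  have key' : ∀ x : unitInterval, dist (c'.path (φ.symm x)) (c.path x) < ε := by
    intro x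
    have := key (φ.symm x)
    rwa [OrderIso.apply_symm_apply] at this
  refine ⟨⟨φ.symm s, ?_⟩, ⟨φ.symm s', ?_⟩, g, hg0, hg1, ?_⟩
  · have h3 := dist_triangle (c'.path (φ.symm s)) (c.path s) z
    have h4 := key' s
    linarith
  · have h3 := dist_triangle_left (c.path s') z (c'.path (φ.symm s'))
    have h4 := key' s'
    linarith
  · intro x t
    have h3 := dist_triangle (g t) (c'.path x) (c.path (φ x))
    have h4 := key x
    have h5 := hmin (φ x) t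
    linarith

theorem EvO_anti {z : ℂ} {r ρ ζ ζ' : ℝ} (h : ζ ≤ ζ') : EvO z r ρ ζ' ⊆ EvO z r ρ ζ := by
  rintro c ⟨h1, h2, g, hg0, hg1, hg⟩
  exact ⟨h1, h2, g, hg0, hg1, fun s t => h.trans_lt (hg s t)⟩

/-- The event without a bound of the distance. -/
def EvU (z : ℂ) (r ρ : ℝ) : Set Curve := ⋃ j : ℕ, EvO z r ρ (1 / ((j:ℝ) + 1))

theorem EvU_open (z : ℂ) (r ρ : ℝ) : IsOpen (EvU z r ρ) := isOpen_iUnion fun _ => EvO_open _ _ _ _

/-- A point of the outer boundary near `z` forces the event. -/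
theorem EvU_of {η r ρ : ℝ} {c : Curve} {z w : ℂ} (hw : w ∈ oB (Set.range c.path))
    (hη : ∃ u, η ≤ dist (c.path u) w) (hwz : dist w z < r) (hρ : ρ + r ≤ η) : c ∈ EvU z r ρ := by
  have hK : IsCompact (Set.range c.path) := isCompact_range c.path.continuous
  obtain ⟨g, hg0, hg1, ζ, hζ, hg⟩ := exists_path hK hw (show 0 < r - dist w z by linarith) 10
  obtain ⟨s, hs⟩ := oB_sub hK.isClosed hw
  obtain ⟨u, hu⟩ := hη
  obtain ⟨j, hj⟩ := exists_nat_one_div_lt hζ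
  refine Set.mem_iUnion.mpr ⟨j, ⟨s, by rw [hs]; exact hwz⟩, ⟨u, ?_⟩, g, ?_, hg1, ?_⟩
  · have h6 := dist_triangle (c.path u) z w
    rw [dist_comm z w] at h6
    linarith
  · have h6 := dist_triangle (g 0) w z
    linarith
  · intro s t
    exact hj.trans (hg t _ ⟨s, rfl⟩)

/-! ### Probability -/

theorem prob_leO (hU : U3) {sel : (n : ℕ) → Finset Plain.Edge → ℤ × ℤ}
    {γ : (n : ℕ) → Finset Plain.Edge → Curve} (hT : Tr sel γ) :
    ∃ C : ℝ, 0 < C ∧ ∀ (z : ℂ) (r d ζ : ℝ) (n : ℕ), 0 < r → r ≤ d →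
      Metric.ball z d ⊆ Sq → 0 < n → 1 / (n : ℝ) ≤ r → 8 / (n : ℝ) ≤ ζ →
        (lawOf n (γ n) : Measure Curve) (EvO z r (d / 2) ζ) ≤
          ENNReal.ofReal (C * (r / d) ^ (2/3 : ℝ)) := by
  obtain ⟨Ca, hCa, hA'⟩ := hU
  refine ⟨(Ca + 1) * 256 ^ (2/3 : ℝ), by positivity, ?_⟩
  intro z r d ζ n hr hrd hball hn hδr hζ
  have hδ : (0:ℝ) < 1 / n := by positivity
  have hd0 : 0 < d := hr.trans_le hrd
  rw [lawOf_apply _ _ (EvO_open z r (d / 2) ζ).measurableSet]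
  apply ENNReal.ofReal_le_ofReal
  have hq : 0 < r / d := by positivity
  have hRHS : (Ca + 1) * 256 ^ (2/3 : ℝ) * (r / d) ^ (2/3 : ℝ) =
      (Ca + 1) * (256 * (r / d)) ^ (2/3 : ℝ) := by
    rw [Real.mul_rpow (by norm_num) hq.le]
    ring
  rw [hRHS]
  by_cases h256 : 256 * r ≤ d
  · obtain ⟨s1, s2, s3, s4⟩ := sizes hδ hδr h256
    obtain ⟨b1, b2, b3, b4⟩ := dom_boxC hn (by linarith) hball
    have hsub : blk (ctc (1 / n) z) ⌊d / (8 * (1 / (n : ℝ)))⌋₊ ⊆ RE 0 n 0 n :=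
      RE_subset b1.le b2.le b3.le b4.le
    have hsub1 : ∀ k : ℕ, k ≤ ⌊d / (8 * (1 / (n : ℝ)))⌋₊ →
        blk (ctc (1 / n) z) k ⊆ RE 0 n 0 n := by
      intro k hk
      refine (RE_subset ?_ ?_ ?_ ?_).trans hsub <;> omega
    have h1 := hA' (ctc (1 / n) z) (⌈r / (1 / (n : ℝ))⌉₊ + 3 + 2)
      (⌊d / (8 * (1 / (n : ℝ)))⌋₊ - 2) (by omega) s2 (RE 0 n 0 n) (hsub1 _ (by omega))
    have hmono : Plain.prob n (fun F => γ n F ∈ EvO z r (d / 2) ζ) ≤
        PQ (1/2) (RE 0 n 0 n) (fun F =>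
          A3v (ctc (1 / n) z) (⌈r / (1 / (n : ℝ))⌉₊ + 3 + 2)
            (⌊d / (8 * (1 / (n : ℝ)))⌋₊ - 2) ↑F) := by
      refine Plain.prob_le_of_pr ?_
      intro F hF hE
      exact detO hn hδr h256 hζ hball hF (hT.1 n F hn hF).1 (hT.2 n F hn hF) hE
    have hpow : (((⌈r / (1 / (n : ℝ))⌉₊ + 3 + 2 : ℕ) : ℝ) /
        ((⌊d / (8 * (1 / (n : ℝ)))⌋₊ - 2 : ℕ) : ℝ)) ^ (2/3 : ℝ) ≤
        (256 * (r / d)) ^ (2/3 : ℝ) :=
      Real.rpow_le_rpow (by positivity) s4 (by norm_num)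
    have hx0 : 0 ≤ (256 * (r / d)) ^ (2/3 : ℝ) := by positivity
    have h3 := mul_le_mul_of_nonneg_left hpow hCa.le
    have h5 := hmono.trans (h1.trans h3)
    refine h5.trans ?_
    nlinarith
  · push Not at h256
    have h1 : Plain.prob n (fun F => γ n F ∈ EvO z r (d / 2) ζ) ≤ 1 := by
      rw [Plain.prob_eq]
      exact Pr_le_one okh _ _
    refine h1.trans ?_
    have h2 : 1 ≤ 256 * (r / d) := by
      rw [← mul_div_assoc, le_div_iff₀ hd0]
      linarith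
    have h3 : 1 ≤ (256 * (r / d)) ^ (2/3 : ℝ) := Real.one_le_rpow h2 (by norm_num)
    nlinarith

/-- the same for the limit -/
theorem lim_le (hU : U3) {sel : (n : ℕ) → Finset Plain.Edge → ℤ × ℤ}
    {γ : (n : ℕ) → Finset Plain.Edge → Curve} (hT : Tr sel γ) {k : ℕ → ℕ}
    (hk : Tendsto k atTop atTop) {μ : ProbabilityMeasure Curve}
    (hμ : Tendsto (fun i => lawOf (k i) (γ (k i))) atTop (𝓝 μ)) :
    ∃ C : ℝ, 0 < C ∧ ∀ (z : ℂ) (r d : ℝ), 0 < r → r ≤ d → Metric.ball z d ⊆ Sq →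
      (μ : Measure Curve) (EvU z r (d / 2)) ≤ ENNReal.ofReal (C * (r / d) ^ (2/3 : ℝ)) := by
  obtain ⟨C, hC, hP⟩ := prob_leO hU hT
  refine ⟨C, hC, fun z r d hr hrd hball => ?_⟩
  have hmono : Monotone (fun j : ℕ => EvO z r (d / 2) (1 / ((j:ℝ) + 1))) := fun i j hij =>
    EvO_anti (Nat.one_div_le_one_div hij)
  unfold EvU
  rw [hmono.measure_iUnion]
  refine iSup_le fun j => ?_
  refine (ProbabilityMeasure.le_liminf_measure_open_of_tendsto hμ (EvO_open _ _ _ _)).trans ?_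
  refine liminf_le_of_frequently_le (Eventually.frequently ?_)
  obtain ⟨n1, hn1⟩ := exists_nat_gt (1 / r)
  have hev : ∀ᶠ i in atTop, max (max n1 (8 * (j + 1))) 1 ≤ k i := tendsto_atTop.mp hk _
  filter_upwards [hev] with i hi
  rw [max_le_iff, max_le_iff] at hi
  obtain ⟨⟨hi1, hi2⟩, hi3⟩ := hi
  have hki : (0:ℝ) < k i := by exact_mod_cast hi3
  have hi1' : (n1:ℝ) ≤ k i := by exact_mod_cast hi1
  have hi2' : 8 * ((j:ℝ) + 1) ≤ k i := by exact_mod_cast hi2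
  refine hP z r d _ (k i) hr hrd hball hi3 ?_ ?_
  · rw [div_lt_iff₀ hr] at hn1
    rw [div_le_iff₀ hki]
    nlinarith
  · rw [div_le_div_iff₀ hki (by positivity)]
    linarith

/-! ### Covering -/

/-- the limit of the covering sums -/
theorem lim0 (M : ℝ) (C d t : ℝ) (hd : 0 < d) (ht : 4 / 3 < t) (m0 : ℕ) (hm0 : 1 ≤ m0) :
    Tendsto (fun m : ℕ => (2 * M * ((m + m0 : ℕ) : ℝ)) ^ 2 * ((4 / ((m + m0 : ℕ) : ℝ)) ^ t *
      (C * ((2 / ((m + m0 : ℕ) : ℝ)) / d) ^ (2 / 3 : ℝ)))) atTop (𝓝 0) := by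
  have h1 : Tendsto (fun m : ℕ => ((m + m0 : ℕ) : ℝ)) atTop atTop :=
    tendsto_natCast_atTop_atTop.comp (tendsto_add_atTop_nat m0)
  have h2 : Tendsto (fun x : ℝ => x ^ (-(t - 4 / 3))) atTop (𝓝 0) :=
    tendsto_rpow_neg_atTop (by linarith)
  have h3 := (h2.comp h1).const_mul ((2 * M) ^ 2 * (4 ^ t * (C * (2 / d) ^ (2 / 3 : ℝ))))
  rw [mul_zero] at h3
  refine h3.congr ?_
  intro m
  have hpos : (0 : ℝ) < ((m + m0 : ℕ) : ℝ) := by
    have : 0 < m + m0 := by omega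
    exact_mod_cast this
  set x : ℝ := ((m + m0 : ℕ) : ℝ) with hx
  simp only [Function.comp]
  rw [← hx]
  have e1 : (4 / x) ^ t = 4 ^ t * x ^ (-t) := by
    rw [Real.div_rpow (by norm_num) hpos.le, Real.rpow_neg hpos.le]
    ring
  have e2 : ((2 / x) / d) ^ (2 / 3 : ℝ) = (2 / d) ^ (2 / 3 : ℝ) * x ^ (-(2 / 3) : ℝ) := by
    have : (2 / x) / d = (2 / d) / x := by
      field_simp
    rw [this, Real.div_rpow (by positivity) hpos.le, Real.rpow_neg hpos.le]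
    ring
  have e3 : x ^ (-(t - 4 / 3)) = x ^ (2 : ℝ) * (x ^ (-t) * x ^ (-(2 / 3) : ℝ)) := by
    rw [← Real.rpow_add hpos, ← Real.rpow_add hpos]
    congr 1
    ring
  rw [e1, e2, e3, Real.rpow_two]
  ring

open Classical in
/-- the event which belongs to a covering set -/
noncomputable def HO (D : Set ℂ) (d N : ℝ) (a b : ℤ) : Set Curve :=
  if h : (H934F.t10_sq N a b ∩ H934F.t10_A D d).Nonempty then EvU h.some (2 / N) (d / 2) else ∅

theorem HO_open (D : Set ℂ) (d N : ℝ) (a b : ℤ) : IsOpen (HO D d N a b) := by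
  unfold HO
  split_ifs
  · exact EvU_open _ _ _
  · exact isOpen_empty

/-- The points of the outer boundary from which the curve goes to distance `η`. -/
def oBη (η : ℝ) (c : Curve) : Set ℂ :=
  {w | w ∈ oB (Set.range c.path) ∧ ∃ u, η ≤ dist (c.path u) w}

theorem HO_of {D : Set ℂ} {d N η : ℝ} (hdη : d ≤ η) (hN : 2 / N ≤ d / 2) {a b : ℤ} {p : Curve}
    {A : Set ℂ} (h : ((oBη η p ∩ A) ∩ H934F.t10_U D d N a b).Nonempty) :
    p ∈ HO D d N a b := by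
  obtain ⟨w, ⟨⟨hw1, hw3⟩, _⟩, hw2⟩ := h
  unfold H934F.t10_U at hw2
  unfold HO
  split_ifs at hw2 ⊢ with h
  · rw [Metric.mem_ball] at hw2
    exact EvU_of hw1 hw3 hw2 (by linarith)
  · exact absurd hw2 (Set.notMem_empty _)

/-- one scale -/
theorem one_scaleO {D : Set ℂ} {M : ℕ} (hM : ∀ z ∈ D, |z.re| < M ∧ |z.im| < M) {C d η : ℝ}
    (hC : 0 < C) (hd : 0 < d) (hdη : d ≤ η) {μ : ProbabilityMeasure Curve}
    (hp : ∀ (z : ℂ) (r : ℝ), 0 < r → r ≤ d → Metric.ball z d ⊆ D →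
      (μ : Measure Curve) (EvU z r (d / 2)) ≤ ENNReal.ofReal (C * (r / d) ^ (2 / 3 : ℝ)))
    {t : ℝ} (ht : 4 / 3 < t) :
    ∀ᵐ p ∂(μ : Measure Curve), dimH (oBη η p ∩ H934F.t10_A D d) ≤ ENNReal.ofReal t := by
  obtain ⟨m1, hm1⟩ := exists_nat_gt (4 / d)
  set m0 : ℕ := m1 + 1 with hm0
  have hN : ∀ m : ℕ, (0 : ℝ) < ((m + m0 : ℕ) : ℝ) := by
    intro m
    have : 0 < m + m0 := by omega
    exact_mod_cast this
  have hNd : ∀ m : ℕ, 2 / ((m + m0 : ℕ) : ℝ) ≤ d / 2 := by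
    intro m
    rw [div_le_iff₀ (hN m)]
    rw [div_lt_iff₀ hd] at hm1
    have : (m1 : ℝ) ≤ ((m + m0 : ℕ) : ℝ) := by
      have : m1 ≤ m + m0 := by omega
      exact_mod_cast this
    nlinarith
  have hsub : H934F.t10_A D d ⊆ D := fun z hz => hz (Metric.mem_ball_self hd)
  refine upperG (μs := fun _ => μ) (by linarith) tendsto_const_nhds
    (fun p => oBη η p ∩ H934F.t10_A D d)
    (ι := fun m => Fin (2 * M * (m + m0)) × Fin (2 * M * (m + m0)))
    (fun m i => H934F.t10_U D d ((m + m0 : ℕ) : ℝ) ((i.1 : ℕ) - (M * (m + m0) : ℕ) : ℤ)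
      ((i.2 : ℕ) - (M * (m + m0) : ℕ) : ℤ))
    (fun m i => HO D d ((m + m0 : ℕ) : ℝ) ((i.1 : ℕ) - (M * (m + m0) : ℕ) : ℤ)
      ((i.2 : ℕ) - (M * (m + m0) : ℕ) : ℤ))
    (fun m i => HO_open _ _ _ _ _) (fun m i p h => HO_of hdη (hNd m) h)
    (fun m => ENNReal.ofReal (4 / ((m + m0 : ℕ) : ℝ))) ?_
    (fun m i => H934F.t10_U_ediam _ _ _ _ _)
    ?_ (fun m _ => ENNReal.ofReal (C * ((2 / ((m + m0 : ℕ) : ℝ)) / d) ^ (2 / 3 : ℝ))) ?_ ?_
  · -- the radii tend to zero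
    have h1 : Tendsto (fun m : ℕ => ((m + m0 : ℕ) : ℝ)) atTop atTop :=
      tendsto_natCast_atTop_atTop.comp (tendsto_add_atTop_nat m0)
    have h2 : Tendsto (fun m : ℕ => 4 / ((m + m0 : ℕ) : ℝ)) atTop (𝓝 0) :=
      h1.const_div_atTop 4
    have h3 := ENNReal.tendsto_ofReal h2
    rwa [ENNReal.ofReal_zero] at h3
  · -- covering
    rintro m p z ⟨_, hz⟩
    obtain ⟨h1, h2⟩ := hM z (hsub hz)
    have hb : ∀ y : ℝ, |y| < M → -((M * (m + m0) : ℕ) : ℤ) ≤ ⌊((m + m0 : ℕ) : ℝ) * y⌋ ∧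
        ⌊((m + m0 : ℕ) : ℝ) * y⌋ < ((M * (m + m0) : ℕ) : ℤ) := by
      intro y hy
      rw [abs_lt] at hy
      have hn := hN m
      constructor
      · rw [Int.le_floor]
        push_cast at hn ⊢
        nlinarith
      · rw [Int.floor_lt]
        push_cast at hn ⊢
        nlinarith
    obtain ⟨h3, h4⟩ := hb _ h1
    obtain ⟨h5, h6⟩ := hb _ h2
    refine Set.mem_iUnion.mpr ⟨(⟨(⌊((m + m0 : ℕ) : ℝ) * z.re⌋ + (M * (m + m0) : ℕ)).toNat, ?_⟩,
      ⟨(⌊((m + m0 : ℕ) : ℝ) * z.im⌋ + (M * (m + m0) : ℕ)).toNat, ?_⟩), ?_⟩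
    · rw [Int.toNat_lt (by omega)]
      have : ((2 * M * (m + m0) : ℕ) : ℤ) = 2 * ((M * (m + m0) : ℕ) : ℤ) := by
        push_cast; ring
      omega
    · rw [Int.toNat_lt (by omega)]
      have : ((2 * M * (m + m0) : ℕ) : ℤ) = 2 * ((M * (m + m0) : ℕ) : ℤ) := by
        push_cast; ring
      omega
    · have hcov := H934F.t10_U_cover (N := ((m + m0 : ℕ) : ℝ)) (hN m) hz
      simp only
      rw [Int.toNat_of_nonneg (by omega), Int.toNat_of_nonneg (by omega)]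
      rw [add_sub_cancel_right, add_sub_cancel_right]
      exact hcov
  · -- probabilities
    intro m i
    unfold HO
    split_ifs with h
    · exact (Eventually.of_forall fun _ => hp h.some (2 / ((m + m0 : ℕ) : ℝ))
        (div_pos two_pos (hN m)) ((hNd m).trans (by linarith)) h.some_mem.2).frequently
    · refine (Eventually.of_forall fun n => ?_).frequently
      rw [measure_empty]
      exact zero_le
  · -- the sums tend to zero
    have hl := ENNReal.tendsto_ofReal (lim0 M C d t hd ht m0 (by omega))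
    rw [ENNReal.ofReal_zero] at hl
    refine tendsto_of_tendsto_of_tendsto_of_le_of_le tendsto_const_nhds hl
      (fun m => zero_le) (fun m => ?_)
    have hn := hN m
    have ht0 : 0 ≤ t := by linarith
    have h4 : 0 ≤ (4 : ℝ) / ((m + m0 : ℕ) : ℝ) := by positivity
    calc ∑ i : Fin (2 * M * (m + m0)) × Fin (2 * M * (m + m0)),
          Metric.ediam (H934F.t10_U D d ((m + m0 : ℕ) : ℝ) ((i.1 : ℕ) - (M * (m + m0) : ℕ) : ℤ)
            ((i.2 : ℕ) - (M * (m + m0) : ℕ) : ℤ)) ^ t *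
            ENNReal.ofReal (C * ((2 / ((m + m0 : ℕ) : ℝ)) / d) ^ (2 / 3 : ℝ))
        ≤ ∑ _i : Fin (2 * M * (m + m0)) × Fin (2 * M * (m + m0)),
          ENNReal.ofReal ((4 / ((m + m0 : ℕ) : ℝ)) ^ t *
            (C * ((2 / ((m + m0 : ℕ) : ℝ)) / d) ^ (2 / 3 : ℝ))) := by
          refine Finset.sum_le_sum fun i _ => ?_
          have e5 : ENNReal.ofReal ((4 / ((m + m0 : ℕ) : ℝ)) ^ t *
              (C * ((2 / ((m + m0 : ℕ) : ℝ)) / d) ^ (2 / 3 : ℝ))) =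
              ENNReal.ofReal (4 / ((m + m0 : ℕ) : ℝ)) ^ t *
                ENNReal.ofReal (C * ((2 / ((m + m0 : ℕ) : ℝ)) / d) ^ (2 / 3 : ℝ)) := by
            rw [ENNReal.ofReal_mul (by positivity), ENNReal.ofReal_rpow_of_nonneg h4 ht0]
          rw [e5]
          gcongr
          exact H934F.t10_U_ediam _ _ _ _ _
      _ ≤ ENNReal.ofReal ((2 * M * ((m + m0 : ℕ) : ℝ)) ^ 2 * ((4 / ((m + m0 : ℕ) : ℝ)) ^ t *
            (C * ((2 / ((m + m0 : ℕ) : ℝ)) / d) ^ (2 / 3 : ℝ)))) := by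
          have e : (2 * (M : ℝ) * ((m + m0 : ℕ) : ℝ)) ^ 2 =
              ((2 * M * (m + m0) * (2 * M * (m + m0)) : ℕ) : ℝ) := by
            push_cast
            ring
          rw [Finset.sum_const, Finset.card_univ, Fintype.card_prod, Fintype.card_fin,
            nsmul_eq_mul, e, ENNReal.ofReal_mul (Nat.cast_nonneg _), ENNReal.ofReal_natCast]

theorem e43 : ENNReal.ofReal (4/3) = 4/3 := by
  rw [ENNReal.ofReal_div_of_pos (by norm_num)]
  norm_num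

/-- **UL3**: the outer boundary of the limits has dimension at most `4/3`. -/
theorem ul3 (hHB : PD_HB) (hBL : PD_BL)
    (hnd : ∀ (sel : (n : ℕ) → Finset Plain.Edge → ℤ × ℤ)
      (γ : (n : ℕ) → Finset Plain.Edge → Curve), Tr sel γ → ∀ (k : ℕ → ℕ), Tendsto k atTop atTop →
      ∀ μ : ProbabilityMeasure Curve, Tendsto (fun i => lawOf (k i) (γ (k i))) atTop (𝓝 μ) →
      ∀ᵐ c : Curve ∂(μ : Measure Curve), ∃ s t, c.path s ≠ c.path t) : S_UL3 := by
  intro hU sel γ hT k hk μ hμ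
  obtain ⟨C, hC, hP⟩ := lim_le hU hT hk hμ
  set dn : ℕ → ℕ → ℝ := fun i n => min (1 / ((i:ℝ) + 1)) (1 / ((n : ℝ) + 1)) with hdn
  have hdn0 : ∀ i n, 0 < dn i n := fun i n => lt_min (by positivity) (by positivity)
  have h1 : ∀ᵐ p ∂(μ : Measure Curve), ∀ i n j : ℕ,
      dimH (oBη (1 / ((i:ℝ) + 1)) p ∩ H934F.t10_A Sq (dn i n)) ≤
        ENNReal.ofReal (4 / 3 + 1 / ((j : ℝ) + 1)) := by
    rw [ae_all_iff]
    intro i
    rw [ae_all_iff]
    intro n
    rw [ae_all_iff]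
    intro j
    have hj : 0 < 1 / ((j : ℝ) + 1) := by positivity
    exact one_scaleO Sq_bdd hC (hdn0 i n) (min_le_left _ _)
      (fun z r hr hrd hb => hP z r (dn i n) hr hrd hb) (by linarith)
  have h2 : ∀ᵐ c : Curve ∂(μ : Measure Curve), ∀ j : ℕ, Set.range c.path ⊆ Sqc ∧
      dimH {z | z ∈ Set.range c.path ∧ z ∈ Sqc \ Sq ∧ ∃ u, 1 / ((j:ℝ) + 1) ≤ dist (c.path u) z} ≤
        ENNReal.ofReal (2/3) := by
    rw [ae_all_iff]
    intro j
    exact hBL hHB sel γ hT k hk μ hμ _ (by positivity)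
  filter_upwards [h1, h2, hnd sel γ hT k hk μ hμ] with p hp hq hne
  obtain ⟨s0, t0, hst⟩ := hne
  have hK : IsCompact (Set.range p.path) := isCompact_range p.path.continuous
  have hη : ∀ w : ℂ, ∃ i : ℕ, ∃ u, 1 / ((i:ℝ) + 1) ≤ dist (p.path u) w := by
    intro w
    have h3 : ∃ u, p.path u ≠ w := by
      by_contra hcon
      push Not at hcon
      exact hst ((hcon s0).trans (hcon t0).symm)
    obtain ⟨u, hu⟩ := h3
    obtain ⟨i, hi⟩ := exists_nat_one_div_lt (dist_pos.2 hu)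
    exact ⟨i, u, hi.le⟩
  have hin : ∀ i : ℕ, dimH (oBη (1 / ((i:ℝ) + 1)) p ∩ Sq) ≤ 4/3 := by
    intro i
    have hsub : oBη (1 / ((i:ℝ) + 1)) p ∩ Sq ⊆
        ⋃ n : ℕ, oBη (1 / ((i:ℝ) + 1)) p ∩ H934F.t10_A Sq (dn i n) := by
      rintro z ⟨hzK, hzD⟩
      obtain ⟨ε, hε, hb⟩ := Metric.isOpen_iff.mp Sq_open z hzD
      obtain ⟨n, hn⟩ := exists_nat_one_div_lt hε
      exact Set.mem_iUnion.mpr ⟨n, hzK,
        (Metric.ball_subset_ball ((min_le_right _ _).trans hn.le)).trans hb⟩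
    refine (dimH_mono hsub).trans ?_
    rw [dimH_iUnion]
    refine iSup_le fun n => ?_
    have hlim : Tendsto (fun j : ℕ => ENNReal.ofReal (4 / 3 + 1 / ((j : ℝ) + 1))) atTop
        (𝓝 (ENNReal.ofReal (4 / 3 + 0))) :=
      ENNReal.tendsto_ofReal (tendsto_const_nhds.add tendsto_one_div_add_atTop_nhds_zero_nat)
    rw [add_zero, e43] at hlim
    exact ge_of_tendsto' hlim (fun j => hp i n j)
  have hcov : oB (Set.range p.path) ⊆ (⋃ i : ℕ, oBη (1 / ((i:ℝ) + 1)) p ∩ Sq) ∪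
      ⋃ i : ℕ, {z | z ∈ Set.range p.path ∧ z ∈ Sqc \ Sq ∧
        ∃ u, 1 / ((i:ℝ) + 1) ≤ dist (p.path u) z} := by
    intro w hw
    obtain ⟨i, hi⟩ := hη w
    have hwK := oB_sub hK.isClosed hw
    by_cases h3 : w ∈ Sq
    · exact Or.inl (Set.mem_iUnion.mpr ⟨i, ⟨hw, hi⟩, h3⟩)
    · exact Or.inr (Set.mem_iUnion.mpr ⟨i, hwK, ⟨(hq 0).1 hwK, h3⟩, hi⟩)
  refine (dimH_mono hcov).trans ?_
  rw [dimH_union, dimH_iUnion, dimH_iUnion]
  refine max_le (iSup_le hin) (iSup_le fun i => (hq i).2.trans ?_)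
  rw [← e43]
  exact ENNReal.ofReal_le_ofReal (by norm_num)

end Pool.Agent.TH990.FU
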