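import Pool.Agent.TH990.FU.Geo
import Pool.Agent.TH990.FU.Up

/-!
The accessible points of the limits of the outer perimeters have dimension at most `4/3`.
-/

set_option autoImplicit false

namespace Pool.Agent.TH990.FU

open H974 H12S Finset H389NS H984P H984N H342P H342L H342T
open MeasureTheory Filter Topology Pool.Agent.W92.DP Pool.Agent.W822.PD Pool.Agent.W462.DPL
open Pool.Agent.W424.OD Pool.Agent.W978.PDUL
open scoped ENNReal NNReal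

theorem zp_pt (n : ℕ) (v : Vtx) : zp (1 / n) 0 v = pt n v := by
  apply Complex.ext
  · rw [pt_re]
    show (0 : ℂ).re + 1 / (n : ℝ) * v.1 = _
    rw [Complex.zero_re, zero_add, mul_comm]
  · rw [pt_im]
    show (0 : ℂ).im + 1 / (n : ℝ) * v.2 = _
    rw [Complex.zero_im, zero_add, mul_comm]

theorem vz_ctc (n : ℕ) (z : ℂ) : vz (1 / n) 0 z = ctc (1 / n) z := by
  unfold vz ctc
  rw [Complex.zero_re, Complex.zero_im, sub_zero, sub_zero]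

/-- The states of a tracing path. -/
theorem trace_states {n : ℕ} (hn : 0 < n) {F : Finset Plain.Edge} {v : ℤ × ℤ} {c : Curve}
    (hc : IsTrace n F v c) : ∃ A : Set St, (∀ σ, σ ∈ A ↔ nxt (↑F : Set Edg) σ ∈ A) ∧
      (∀ σ ∈ A, ∀ τ ∈ A, Reach (↑F : Set Edg) σ.1 τ.1 ∧
        Reach (dl '' (↑F : Set Edg)ᶜ) (face σ) (face τ)) ∧
      (∀ σ ∈ A, pt n σ.1 ∈ Set.range c.path) ∧
      ∀ s, ∃ σ ∈ A, |n * (c.path s).re - σ.1.1| ≤ 1 ∧ |n * (c.path s).im - σ.1.2| ≤ 1 := by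
  obtain ⟨σ, N, hN, hσ, ho, hp, hmin, hpath⟩ := hc
  have hn' : (0 : ℝ) < n := by exact_mod_cast hn
  have hrng := (t_POL (fun j => pt n (orb (↑F) σ j).1) N hN).2.2.1
  rw [← hpath] at hrng
  refine ⟨{τ | ∃ t, orb (↑F) σ t = τ}, ?_, ?_, ?_, ?_⟩
  · intro τ
    constructor
    · rintro ⟨t, rfl⟩
      exact ⟨t + 1, orb_succ _ _ _⟩
    · rintro ⟨t, ht⟩
      cases t with
      | succ t =>
        rw [orb_succ] at ht
        exact ⟨t, (nxt_bij _).1 ht⟩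
      | zero =>
        obtain ⟨p, rfl⟩ : ∃ p', N = p' + 1 := ⟨N - 1, by omega⟩
        refine ⟨p, (nxt_bij (↑F : Set Edg)).1 ?_⟩
        rw [← orb_succ, hp, ← ht, orb_zero]
  · rintro _ ⟨t, rfl⟩ _ ⟨t', rfl⟩
    constructor
    · exact (pb_reach _ _ _).symm.trans (pb_reach _ _ _)
    · have h1 := (reach_dl (F := (↑F : Set Edg)ᶜ)).2 (pb_dreach (↑F) σ t)
      have h2 := (reach_dl (F := (↑F : Set Edg)ᶜ)).2 (pb_dreach (↑F) σ t')
      exact h1.symm.trans h2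
  · rintro _ ⟨t, rfl⟩
    rw [hrng]
    refine Set.mem_iUnion₂.2 ⟨t % N, Finset.mem_range.2 (Nat.mod_lt _ hN), ?_⟩
    rw [RNG_mod hp]
    exact left_mem_segment _ _ _
  · intro s
    have h1 : c.path s ∈ Set.range c.path := ⟨s, rfl⟩
    rw [hrng] at h1
    simp only [Set.mem_iUnion] at h1
    obtain ⟨j, hj, a, b, ha, hb, hab, hz⟩ := h1
    have hstep := nxt_fst (↑F : Set Edg) (orb (↑F) σ j)
    rw [← orb_succ] at hstep
    refine ⟨orb (↑F : Set Edg) σ j, ⟨j, rfl⟩, ?_, ?_⟩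
    all_goals
      set w := (orb (↑F : Set Edg) σ j).1 with hw
      set w' := (orb (↑F : Set Edg) σ (j + 1)).1 with hw'
    · have ere : (c.path s).re = a * ((w.1 : ℝ) / n) + b * ((w'.1 : ℝ) / n) := by
        rw [← hz]
        simp [pt]
      have d1 : |(w'.1 : ℝ) - w.1| ≤ 1 := by exact_mod_cast hstep.1
      have : n * (c.path s).re - w.1 = b * ((w'.1 : ℝ) - w.1) := by
        rw [ere]
        field_simp
        have : a = 1 - b := by linarith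
        rw [this]
        ring
      rw [this, abs_mul, abs_of_nonneg hb]
      nlinarith [abs_nonneg ((w'.1 : ℝ) - w.1)]
    · have eim : (c.path s).im = a * ((w.2 : ℝ) / n) + b * ((w'.2 : ℝ) / n) := by
        rw [← hz]
        simp [pt]
      have d2 : |(w'.2 : ℝ) - w.2| ≤ 1 := by exact_mod_cast hstep.2
      have : n * (c.path s).im - w.2 = b * ((w'.2 : ℝ) - w.2) := by
        rw [eim]
        field_simp
        have : a = 1 - b := by linarith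
        rw [this]
        ring
      rw [this, abs_mul, abs_of_nonneg hb]
      nlinarith [abs_nonneg ((w'.2 : ℝ) - w.2)]

/-- the deterministic part for tracing paths -/
theorem det3 {z : ℂ} {r d ζ : ℝ} {n : ℕ} (hn : 0 < n) (hδr : 1 / (n : ℝ) ≤ r)
    (hd : 256 * r ≤ d) (hζ : 8 / (n : ℝ) ≤ ζ) {F : Finset Plain.Edge} {v : Vtx} {c : Curve}
    (hT : IsTrace n F v c) (hE : c.path ∈ Ev3 z r (d / 2) ζ) :
    A3v (ctc (1 / n) z) (⌈r / (1 / (n : ℝ))⌉₊ + 3 + 2) (⌊d / (8 * (1 / (n : ℝ)))⌋₊ - 2) ↑F ∨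
    A3v (ctc (1 / n) z) (⌈r / (1 / (n : ℝ))⌉₊ + 3 + 2) (⌊d / (8 * (1 / (n : ℝ)))⌋₊ - 2)
      (dl '' (↑F : Set Edg)ᶜ) := by
  have hn' : (0:ℝ) < n := by exact_mod_cast hn
  have hδ : (0:ℝ) < 1 / n := by positivity
  obtain ⟨⟨s, hs⟩, ⟨s', hs'⟩, g, hg0, hg1, hg⟩ := hE
  obtain ⟨A, hinv, hA1, hA2, hA3⟩ := trace_states hn hT
  obtain ⟨σ, hσ, k1, k2⟩ := hA3 s
  obtain ⟨τ, hτ, k3, k4⟩ := hA3 s'
  have d1 := pt_near hn k1 k2
  have d2 := pt_near hn k3 k4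
  have e2 : ((1:ℝ) + 1) / n = 2 * (1 / n) := by ring
  rw [e2] at d1 d2
  rw [← vz_ctc]
  refine det_gen hδ hδr hd hinv hs hs' hg0 hg1.le ?_ hσ (by rw [zp_pt]; exact d1)
    (by rw [zp_pt]; exact d2) (hA1 σ hσ τ hτ).1 (hA1 σ hσ τ hτ).2
  intro t u hu q hq
  obtain ⟨s'', h3⟩ := hA2 _ hq
  have h4 := hu.dist hδ
  rw [zp_pt] at h4
  have h5 := hg s'' t
  rw [h3] at h5
  have h6 : 2 * 3 * (1 / (n:ℝ)) ≤ 8 / n := by
    rw [mul_one_div]
    gcongr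
    norm_num
  linarith

/-- the probability bound for tracing paths -/
theorem prob3 (hU : U3) {sel : (n : ℕ) → Finset Plain.Edge → ℤ × ℤ}
    {γ : (n : ℕ) → Finset Plain.Edge → Curve} (hT : Tr sel γ) :
    ∃ C : ℝ, 0 < C ∧ ∀ (z : ℂ) (r d ζ : ℝ) (n : ℕ), 0 < r → r ≤ d →
      Metric.ball z d ⊆ Sq → 0 < n → 1 / (n : ℝ) ≤ r → 8 / (n : ℝ) ≤ ζ →
        (lawOf n (γ n) : Measure Curve) {c | c.path ∈ Ev3 z r (d / 2) ζ} ≤
          ENNReal.ofReal (C * (r / d) ^ (2/3 : ℝ)) := by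
  obtain ⟨Cd, hCd, hD'⟩ := u3d hU
  obtain ⟨Ca, hCa, hA'⟩ := hU
  refine ⟨(Ca + Cd + 1) * 256 ^ (2/3 : ℝ), by positivity, ?_⟩
  intro z r d ζ n hr hrd hball hn hδr hζ
  have hδ : (0:ℝ) < 1 / n := by positivity
  have hd0 : 0 < d := hr.trans_le hrd
  have hopen : IsOpen {c : Curve | c.path ∈ Ev3 z r (d / 2) ζ} := by
    rw [Metric.isOpen_iff]
    intro c hc
    obtain ⟨ε, hε, h⟩ := Ev3_near hc
    refine ⟨ε, hε, fun c' hcc' => ?_⟩
    rw [Metric.mem_ball, Curve.dist_def, cdist_eq] at hcc'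
    obtain ⟨φ, hφ⟩ := exists_lt_of_ciInf_lt hcc'
    refine h c'.path φ.toEquiv fun x => ?_
    have h := ContinuousMap.dist_apply_le_dist (f := c'.path) (g := rep c.path φ) x
    rw [rep_apply] at h
    exact lt_of_le_of_lt h hφ
  rw [lawOf_apply _ _ hopen.measurableSet]
  apply ENNReal.ofReal_le_ofReal
  have hq : 0 < r / d := by positivity
  have hRHS : (Ca + Cd + 1) * 256 ^ (2/3 : ℝ) * (r / d) ^ (2/3 : ℝ) =
      (Ca + Cd + 1) * (256 * (r / d)) ^ (2/3 : ℝ) := by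
    rw [Real.mul_rpow (by norm_num) hq.le]
    ring
  rw [hRHS]
  by_cases h256 : 256 * r ≤ d
  · obtain ⟨s1, s2, s3, s4⟩ := sizes hδ hδr h256
    obtain ⟨b1, b2, b3, b4⟩ := dom_boxC hn (by linarith) hball
    have hsub : blk (ctc (1 / n) z) ⌊d / (8 * (1 / (n : ℝ)))⌋₊ ⊆ RE 0 n 0 n :=
      RE_subset b1.le b2.le b3.le b4.le
    have hsub1 : ∀ k : ℕ, k ≤ ⌊d / (8 * (1 / (n : ℝ)))⌋₊ →
        blk (ctc (1 / n) z) k ⊆ RE 0 n 0 n := by
      intro k hk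
      refine (RE_subset ?_ ?_ ?_ ?_).trans hsub <;> omega
    have h1 := hA' (ctc (1 / n) z) (⌈r / (1 / (n : ℝ))⌉₊ + 3 + 2)
      (⌊d / (8 * (1 / (n : ℝ)))⌋₊ - 2) (by omega) s2 (RE 0 n 0 n) (hsub1 _ (by omega))
    have h2 := hD' (ctc (1 / n) z) (⌈r / (1 / (n : ℝ))⌉₊ + 3 + 2)
      (⌊d / (8 * (1 / (n : ℝ)))⌋₊ - 2) (by omega) s2 (RE 0 n 0 n) (hsub1 _ (by omega))
    have hmono : Plain.prob n (fun F => γ n F ∈ {c : Curve | c.path ∈ Ev3 z r (d / 2) ζ}) ≤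
        PQ (1/2) (RE 0 n 0 n) (fun F =>
          A3v (ctc (1 / n) z) (⌈r / (1 / (n : ℝ))⌉₊ + 3 + 2)
            (⌊d / (8 * (1 / (n : ℝ)))⌋₊ - 2) ↑F ∨
          A3v (ctc (1 / n) z) (⌈r / (1 / (n : ℝ))⌉₊ + 3 + 2)
            (⌊d / (8 * (1 / (n : ℝ)))⌋₊ - 2) (dl '' (↑F : Set Edg)ᶜ)) := by
      refine Plain.prob_le_of_pr ?_
      intro F hF hE
      exact det3 hn hδr h256 hζ (hT.2 n F hn hF) hE
    have hor := Pr_or_le okh (RE 0 n 0 n)
      (fun F => A3v (ctc (1 / n) z) (⌈r / (1 / (n : ℝ))⌉₊ + 3 + 2)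
        (⌊d / (8 * (1 / (n : ℝ)))⌋₊ - 2) ↑F)
      (fun F => A3v (ctc (1 / n) z) (⌈r / (1 / (n : ℝ))⌉₊ + 3 + 2)
        (⌊d / (8 * (1 / (n : ℝ)))⌋₊ - 2) (dl '' (↑F : Set Edg)ᶜ))
    have hpow : (((⌈r / (1 / (n : ℝ))⌉₊ + 3 + 2 : ℕ) : ℝ) /
        ((⌊d / (8 * (1 / (n : ℝ)))⌋₊ - 2 : ℕ) : ℝ)) ^ (2/3 : ℝ) ≤
        (256 * (r / d)) ^ (2/3 : ℝ) :=
      Real.rpow_le_rpow (by positivity) s4 (by norm_num)
    have hx0 : 0 ≤ (256 * (r / d)) ^ (2/3 : ℝ) := by positivity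
    have h3 := mul_le_mul_of_nonneg_left hpow hCa.le
    have h4 := mul_le_mul_of_nonneg_left hpow hCd.le
    have h5 := hmono.trans (hor.trans (add_le_add (h1.trans h3) (h2.trans h4)))
    refine h5.trans ?_
    nlinarith
  · push Not at h256
    have h1 : Plain.prob n (fun F => γ n F ∈ {c : Curve | c.path ∈ Ev3 z r (d / 2) ζ}) ≤ 1 := by
      rw [Plain.prob_eq]
      exact Pr_le_one okh _ _
    refine h1.trans ?_
    have h2 : 1 ≤ 256 * (r / d) := by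
      rw [← mul_div_assoc, le_div_iff₀ hd0]
      linarith
    have h3 : 1 ≤ (256 * (r / d)) ^ (2/3 : ℝ) := Real.one_le_rpow h2 (by norm_num)
    nlinarith

theorem Ev3_openC (z : ℂ) (r ρ ζ : ℝ) : IsOpen {c : Curve | c.path ∈ Ev3 z r ρ ζ} := by
  rw [Metric.isOpen_iff]
  intro c hc
  obtain ⟨ε, hε, h⟩ := Ev3_near hc
  refine ⟨ε, hε, fun c' hcc' => ?_⟩
  rw [Metric.mem_ball, Curve.dist_def, cdist_eq] at hcc'
  obtain ⟨φ, hφ⟩ := exists_lt_of_ciInf_lt hcc'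
  refine h c'.path φ.toEquiv fun x => ?_
  have h := ContinuousMap.dist_apply_le_dist (f := c'.path) (g := rep c.path φ) x
  rw [rep_apply] at h
  exact lt_of_le_of_lt h hφ

theorem E3U_openC (z : ℂ) (r ρ : ℝ) : IsOpen ((fun c : Curve => c.path) ⁻¹' E3U z r ρ) := by
  have h : (fun c : Curve => c.path) ⁻¹' E3U z r ρ =
      ⋃ j : ℕ, {c : Curve | c.path ∈ Ev3 z r ρ (1 / ((j:ℝ) + 1))} := by
    unfold E3U
    rw [Set.preimage_iUnion]
    rfl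
  rw [h]
  exact isOpen_iUnion fun j => Ev3_openC _ _ _ _

/-- the same for the limit -/
theorem lim3 (hU : U3) {sel : (n : ℕ) → Finset Plain.Edge → ℤ × ℤ}
    {γ : (n : ℕ) → Finset Plain.Edge → Curve} (hT : Tr sel γ) {k : ℕ → ℕ}
    (hk : Tendsto k atTop atTop) {μ : ProbabilityMeasure Curve}
    (hμ : Tendsto (fun i => lawOf (k i) (γ (k i))) atTop (𝓝 μ)) :
    ∃ C : ℝ, 0 < C ∧ ∀ (z : ℂ) (r d : ℝ), 0 < r → r ≤ d → Metric.ball z d ⊆ Sq →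
      (μ : Measure Curve) ((fun c : Curve => c.path) ⁻¹' E3U z r (d / 2)) ≤
        ENNReal.ofReal (C * (r / d) ^ (2/3 : ℝ)) := by
  obtain ⟨C, hC, hP⟩ := prob3 hU hT
  refine ⟨C, hC, fun z r d hr hrd hball => ?_⟩
  have hmono : Monotone (fun j : ℕ => {c : Curve | c.path ∈ Ev3 z r (d / 2) (1 / ((j:ℝ) + 1))}) :=
    fun i j hij c hc => Ev3_anti (Nat.one_div_le_one_div hij) hc
  have h : (fun c : Curve => c.path) ⁻¹' E3U z r (d / 2) =
      ⋃ j : ℕ, {c : Curve | c.path ∈ Ev3 z r (d / 2) (1 / ((j:ℝ) + 1))} := by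
    unfold E3U
    rw [Set.preimage_iUnion]
    rfl
  rw [h, hmono.measure_iUnion]
  refine iSup_le fun j => ?_
  refine (ProbabilityMeasure.le_liminf_measure_open_of_tendsto hμ (Ev3_openC _ _ _ _)).trans ?_
  refine liminf_le_of_frequently_le (Eventually.frequently ?_)
  obtain ⟨n1, hn1⟩ := exists_nat_gt (1 / r)
  have hev : ∀ᶠ i in atTop, max (max n1 (8 * (j + 1))) 1 ≤ k i := tendsto_atTop.mp hk _
  filter_upwards [hev] with i hi
  rw [max_le_iff, max_le_iff] at hi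
  obtain ⟨⟨hi1, hi2⟩, hi3⟩ := hi
  have hki : (0:ℝ) < k i := by exact_mod_cast hi3
  have hi1' : (n1:ℝ) ≤ k i := by exact_mod_cast hi1
  have hi2' : 8 * ((j:ℝ) + 1) ≤ k i := by exact_mod_cast hi2
  refine hP z r d _ (k i) hr hrd hball hi3 ?_ ?_
  · rw [div_lt_iff₀ hr] at hn1
    rw [div_le_iff₀ hki]
    nlinarith
  · rw [div_le_div_iff₀ hki (by positivity)]
    linarith

theorem oB_acc {f : C(unitInterval, ℂ)} (hne : ∃ s t, f s ≠ f t) :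
    oB (Set.range f) ⊆ ⋃ i : ℕ, Acc (1 / ((i:ℝ) + 1)) f := by
  intro w hw
  have hK : IsCompact (Set.range f) := isCompact_range f.continuous
  obtain ⟨s0, t0, hst⟩ := hne
  have h3 : ∃ u, f u ≠ w := by
    by_contra hcon
    push Not at hcon
    exact hst ((hcon s0).trans (hcon t0).symm)
  obtain ⟨u, hu⟩ := h3
  obtain ⟨i, hi⟩ := exists_nat_one_div_lt (lt_min one_pos (dist_pos.2 hu))
  refine Set.mem_iUnion.2 ⟨i, oB_sub hK.isClosed hw, ⟨u, (hi.le.trans (min_le_right _ _))⟩,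
    fun r hr => ?_⟩
  obtain ⟨g, hg0, hg1, ζ, hζ, hg⟩ := exists_path hK hw hr (‖w‖ + 1)
  refine ⟨g, hg0, ?_, fun t ht => ?_⟩
  · have h4 := norm_sub_norm_le (g 1) w
    rw [← dist_eq_norm] at h4
    have h5 := hi.le.trans (min_le_left _ _)
    linarith
  · have := hg t _ ht
    rw [dist_self] at this
    linarith

/-- **The accessible points.** -/
theorem tr3 (hU : U3) (hHB : PD_HB) (hBL : PD_BL)
    (hnd : ∀ (sel : (n : ℕ) → Finset Plain.Edge → ℤ × ℤ)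
      (γ : (n : ℕ) → Finset Plain.Edge → Curve), Tr sel γ → ∀ (k : ℕ → ℕ), Tendsto k atTop atTop →
      ∀ μ : ProbabilityMeasure Curve, Tendsto (fun i => lawOf (k i) (γ (k i))) atTop (𝓝 μ) →
      ∀ᵐ c : Curve ∂(μ : Measure Curve), ∃ s t, c.path s ≠ c.path t)
    (sel : (n : ℕ) → Finset Plain.Edge → ℤ × ℤ) (γ : (n : ℕ) → Finset Plain.Edge → Curve)
    (hT : Tr sel γ) (k : ℕ → ℕ) (hk : Tendsto k atTop atTop) (μ : ProbabilityMeasure Curve)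
    (hμ : Tendsto (fun i => lawOf (k i) (γ (k i))) atTop (𝓝 μ)) :
    ∀ᵐ c : Curve ∂(μ : Measure Curve), (∃ s t, c.path s ≠ c.path t) ∧
      dimH (⋃ i : ℕ, Acc (1 / ((i:ℝ) + 1)) c.path) ≤ 4/3 := by
  obtain ⟨C, hC, hP⟩ := lim3 hU hT hk hμ
  have h1 := acc_dim (pf := fun c : Curve => c.path) E3U_openC Sq_open Sq_bdd hC hP
  have h2 : ∀ᵐ c : Curve ∂(μ : Measure Curve), ∀ j : ℕ, Set.range c.path ⊆ Sqc ∧
      dimH {z | z ∈ Set.range c.path ∧ z ∈ Sqc \ Sq ∧ ∃ u, 1 / ((j:ℝ) + 1) ≤ dist (c.path u) z} ≤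
        ENNReal.ofReal (2/3) := by
    rw [ae_all_iff]
    intro j
    exact hBL hHB sel γ hT k hk μ hμ _ (by positivity)
  filter_upwards [h1, h2, hnd sel γ hT k hk μ hμ] with p hp hq hne
  refine ⟨hne, ?_⟩
  have hcov : (⋃ i : ℕ, Acc (1 / ((i:ℝ) + 1)) p.path) ⊆
      (⋃ i : ℕ, Acc (1 / ((i:ℝ) + 1)) p.path ∩ Sq) ∪
      ⋃ i : ℕ, {z | z ∈ Set.range p.path ∧ z ∈ Sqc \ Sq ∧
        ∃ u, 1 / ((i:ℝ) + 1) ≤ dist (p.path u) z} := by
    intro w hw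
    obtain ⟨i, hi⟩ := Set.mem_iUnion.1 hw
    by_cases h3 : w ∈ Sq
    · exact Or.inl (Set.mem_iUnion.mpr ⟨i, hi, h3⟩)
    · exact Or.inr (Set.mem_iUnion.mpr ⟨i, hi.1, ⟨(hq 0).1 hi.1, h3⟩, hi.2.1⟩)
  refine (dimH_mono hcov).trans ?_
  rw [dimH_union, dimH_iUnion, dimH_iUnion]
  refine max_le (iSup_le hp) (iSup_le fun i => (hq i).2.trans ?_)
  rw [← e43]
  exact ENNReal.ofReal_le_ofReal (by norm_num)

/-- `dimH` of a difference. -/
theorem dim_diff {K S : Set ℂ} (hK : dimH K = 7 / 4) (hS : dimH S ≤ 4 / 3) :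
    dimH (K \ S) = 7 / 4 := by
  have h74 : ENNReal.ofReal (7/4) = 7/4 := by
    rw [ENNReal.ofReal_div_of_pos (by norm_num)]
    norm_num
  have hlt : (4/3 : ℝ≥0∞) < 7/4 := by
    rw [← h74, ← e43, ENNReal.ofReal_lt_ofReal_iff (by norm_num)]
    norm_num
  refine le_antisymm (hK ▸ dimH_mono Set.sdiff_subset) ?_
  have h1 : K ⊆ (K \ S) ∪ S := by
    intro x hx
    by_cases h : x ∈ S
    · exact Or.inr h
    · exact Or.inl ⟨hx, h⟩
  have h2 := dimH_mono h1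
  rw [dimH_union, hK] at h2
  rcases le_max_iff.1 h2 with h | h
  · exact h
  · exact absurd (h.trans hS) (not_le.2 hlt)

end Pool.Agent.TH990.FU
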