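import Pool.Agent.TH990.FU.Gen
import Pool.Agent.W571.DPad

/-!
The three-arm bound for the dual configuration.
-/

set_option autoImplicit false

namespace Pool.Agent.TH990.FU

open H974 H12S Finset H389NS H984P H984N H342P
open MeasureTheory Filter Topology Pool.Agent.W424.OD Pool.Agent.W571.DPad

/-- The dual three-arm bound. -/
def U3d : Prop := ∃ C : ℝ, 0 < C ∧ ∀ (c : ℤ × ℤ) (d k : ℕ), 1 ≤ d → d ≤ k →
  ∀ S : Finset Edg, blk c (k + 1) ⊆ S →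
    PQ (1/2) S (fun F => A3v c d k (dl '' (↑F : Set Edg)ᶜ)) ≤ C * ((d:ℝ) / k) ^ (2/3 : ℝ)

theorem u3d (hU : U3) : U3d := by
  obtain ⟨C, hC, h⟩ := hU
  refine ⟨C, hC, ?_⟩
  intro c d k hd hdk S hS
  have hsub : blk c k ⊆ dmp S := by
    intro e he
    rw [mem_dmp]
    exact hS (dls_mem he)
  have h1 := h c d k hd hdk (dmp S) hsub
  refine le_of_eq_of_le ?_ h1
  show Pr (fun _ => (1 / 2 : ℝ)) S _ = Pr (fun _ => (1 / 2 : ℝ)) (dmp S) _
  rw [pr_dmp]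
  have h2 : (fun _ : Edg => (1 / 2 : ℝ)) = fun e => 1 - (fun _ : Edg => (1 / 2 : ℝ)) e := by
    funext e
    norm_num
  conv_rhs => rw [h2]
  rw [Pr_compl (fun _ : Edg => (1 / 2 : ℝ)) S (fun F => A3v c d k ↑(dmp F))]
  apply Pr_congr
  intro F hF
  apply A3v_congr
  ext e
  simp only [Set.mem_inter_iff, coe_dmp, Set.mem_image, Set.mem_compl_iff, Finset.mem_coe,
    Finset.mem_sdiff]
  constructor
  · rintro ⟨⟨g, hg, rfl⟩, he⟩
    have := dls_mem he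
    rw [Equiv.symm_apply_apply] at this
    exact ⟨⟨g, ⟨hS this, hg⟩, rfl⟩, he⟩
  · rintro ⟨⟨g, ⟨hg1, hg⟩, rfl⟩, he⟩
    exact ⟨⟨g, hg, rfl⟩, he⟩

end Pool.Agent.TH990.FU
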