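import Pool.Agent.TH990.FU.Cov
import Pool.Agent.TH990.FU.Dual
import Pool.Agent.W462.DPL.B

/-!
The event of the accessible points implies three arms (general deterministic part).
-/

set_option autoImplicit false

namespace Pool.Agent.TH990.FU

open H974 H12S Finset H389NS H984P H984N H342P
open MeasureTheory Filter Topology Pool.Agent.W424.OD Pool.Agent.W462.DPL

/-- The part of a path before its first exit of a disc. -/
theorem cut (g : C(unitInterval, ℂ)) {z : ℂ} {ρ : ℝ} (h0 : dist (g 0) z ≤ ρ)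
    (h1 : ρ ≤ dist (g 1) z) : ∃ g' : C(unitInterval, ℂ), g' 0 = g 0 ∧ dist (g' 1) z = ρ ∧
      (∀ t, dist (g' t) z ≤ ρ) ∧ ∀ t, ∃ t', g' t = g t' := by
  have hc : Continuous (fun t => dist (g t) z) := by fun_prop
  have hcl : IsClosed {t : unitInterval | dist (g t) z = ρ} := isClosed_eq hc continuous_const
  have hne : {t : unitInterval | dist (g t) z = ρ}.Nonempty := by
    obtain ⟨t, -, ht⟩ := intermediate_value_Icc (zero_le_one' unitInterval) hc.continuousOn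
      ⟨h0, h1⟩
    exact ⟨t, ht⟩
  set t1 := sInf {t : unitInterval | dist (g t) z = ρ} with ht1
  have hmem : dist (g t1) z = ρ := hcl.csInf_mem hne (OrderBot.bddBelow _)
  have hle : ∀ t, t ≤ t1 → dist (g t) z ≤ ρ := by
    intro t ht
    by_contra hcon
    push Not at hcon
    obtain ⟨t', ht', ht2⟩ := intermediate_value_Icc (unitInterval.nonneg' (t := t))
      hc.continuousOn ⟨h0, hcon.le⟩
    have h3 : t1 ≤ t' := csInf_le (OrderBot.bddBelow _) ht2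
    have h4 : t = t1 := le_antisymm ht (h3.trans ht'.2)
    rw [h4, hmem] at hcon
    exact lt_irrefl _ hcon
  refine ⟨⟨fun t => g (t1 * t), by fun_prop⟩, ?_, ?_, fun t => hle _ unitInterval.mul_le_left,
    fun t => ⟨t1 * t, rfl⟩⟩
  · show g (t1 * 0) = g 0
    rw [mul_zero]
  · show dist (g (t1 * 1)) z = ρ
    rw [mul_one]
    exact hmem

theorem box_of {δ : ℝ} (hδ : 0 < δ) {o z : ℂ} {r : ℝ} {w : Vtx}
    (h : dist (zp δ o w) z ≤ r + 2 * δ) : BX (vz δ o z) (⌈r / δ⌉₊ + 3) w := by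
  have h1 := (ML.le_dist_re _ _).trans h
  have h2 := (ML.le_dist_im _ _).trans h
  have key : ∀ (a b : ℝ) (x : ℤ), |b + δ * x - a| ≤ r + 2 * δ →
      ⌊(a - b) / δ⌋ - ((⌈r / δ⌉₊ + 3 : ℕ) : ℤ) ≤ x ∧
        x ≤ ⌊(a - b) / δ⌋ + ((⌈r / δ⌉₊ + 3 : ℕ) : ℤ) := by
    intro a b x hx
    have e1 : |(x : ℝ) - (a - b) / δ| ≤ r / δ + 2 := by
      have e2 : (x : ℝ) - (a - b) / δ = (b + δ * x - a) / δ := by
        field_simp
        ring
      rw [e2, abs_div, abs_of_pos hδ, div_le_iff₀ hδ]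
      have e3 : (r / δ + 2) * δ = r + 2 * δ := by field_simp
      rw [e3]
      exact hx
    have a1 := Int.floor_le ((a - b) / δ)
    have a2 := Int.lt_floor_add_one ((a - b) / δ)
    have a3 : r / δ ≤ (⌈r / δ⌉₊ : ℝ) := Nat.le_ceil _
    rw [abs_le] at e1
    constructor
    · have : ((⌊(a - b) / δ⌋ - ((⌈r / δ⌉₊ + 3 : ℕ) : ℤ) : ℤ) : ℝ) ≤ x := by
        push_cast
        linarith [e1.1]
      exact_mod_cast this
    · have : (x : ℝ) ≤ ((⌊(a - b) / δ⌋ + ((⌈r / δ⌉₊ + 3 : ℕ) : ℤ) : ℤ) : ℝ) := by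
        push_cast
        linarith [e1.2]
      exact_mod_cast this
  obtain ⟨k1, k2⟩ := key _ _ _ h1
  obtain ⟨k3, k4⟩ := key _ _ _ h2
  exact ⟨⟨k1, k2⟩, k3, k4⟩

theorem of_box {δ : ℝ} (hδ : 0 < δ) {o z : ℂ} {k : ℕ} {w : Vtx} (h : BX (vz δ o z) k w) :
    dist (zp δ o w) z ≤ 2 * δ * k + 2 * δ := by
  have key : ∀ (y : ℝ) (x : ℤ), ⌊y⌋ - (k : ℤ) ≤ x → x ≤ ⌊y⌋ + (k : ℤ) → |y - x| ≤ k + 1 := by
    intro y x h1 h2
    have a1 := Int.floor_le y
    have a2 := Int.lt_floor_add_one y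
    have h1' : ((⌊y⌋ - (k : ℤ) : ℤ) : ℝ) ≤ x := by exact_mod_cast h1
    have h2' : (x : ℝ) ≤ ((⌊y⌋ + (k : ℤ) : ℤ) : ℝ) := by exact_mod_cast h2
    push_cast at h1' h2'
    rw [abs_le]
    constructor <;> linarith
  obtain ⟨⟨h1, h2⟩, h3, h4⟩ := h
  have hN : Near δ o z (k + 1) w := ⟨key _ _ h1 h2, key _ _ h3 h4⟩
  rw [dist_comm]
  refine (hN.dist hδ).trans (le_of_eq ?_)
  ring

theorem box_face {c : ℤ × ℤ} {k : ℕ} {σ : St} (h : BX c k σ.1) : BX c (k + 1) (face σ) := by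
  obtain ⟨⟨x, y⟩, q⟩ := σ
  obtain ⟨⟨h1, h2⟩, h3, h4⟩ := h
  simp only at h1 h2 h3 h4
  unfold BX inR
  cases q
  · rw [face_ne]; push_cast; omega
  · rw [face_nw]; push_cast; omega
  · rw [face_sw]; push_cast; omega
  · rw [face_se]; push_cast; omega

theorem box_face' {c : ℤ × ℤ} {k : ℕ} {σ : St} (h : BX c k (face σ)) : BX c (k + 1) σ.1 := by
  obtain ⟨⟨x, y⟩, q⟩ := σ
  unfold BX inR at *
  cases q
  · rw [face_ne] at h; push_cast; simp only at h ⊢; omega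
  · rw [face_nw] at h; push_cast; simp only at h ⊢; omega
  · rw [face_sw] at h; push_cast; simp only at h ⊢; omega
  · rw [face_se] at h; push_cast; simp only at h ⊢; omega

/-- **the deterministic part** -/
theorem det_gen {δ : ℝ} (hδ : 0 < δ) {o z : ℂ} {r d : ℝ} (hδr : δ ≤ r) (hd : 256 * r ≤ d)
    {C : Set Edg} {A : Set St} (hinv : ∀ σ, σ ∈ A ↔ nxt C σ ∈ A) {x x' : ℂ} (hx : dist x z < r)
    (hx' : d / 2 < dist x' z) {g : C(unitInterval, ℂ)} (hg0 : dist (g 0) z < r)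
    (hg1 : d / 2 ≤ dist (g 1) z) (hN : ∀ t u, Near δ o (g t) 3 u → NV A u) {σ τ : St} (hσ : σ ∈ A)
    (hσx : dist x (zp δ o σ.1) ≤ 2 * δ) (hτx : dist x' (zp δ o τ.1) ≤ 2 * δ)
    (h1 : Reach C σ.1 τ.1) (h2 : Reach (dl '' Cᶜ) (face σ) (face τ)) :
    A3v (vz δ o z) (⌈r / δ⌉₊ + 3 + 2) (⌊d / (8 * δ)⌋₊ - 2) C ∨
      A3v (vz δ o z) (⌈r / δ⌉₊ + 3 + 2) (⌊d / (8 * δ)⌋₊ - 2) (dl '' Cᶜ) := by
  have hr : 0 < r := hδ.trans_le hδr
  have hd0 : 0 < d := by linarith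
  obtain ⟨s1, s2, s3, -⟩ := sizes hδ hδr hd
  have hbox : ∀ w : Vtx, BX (vz δ o z) (⌊d / (8 * δ)⌋₊ - 1) w →
      dist (zp δ o w) z ≤ d / 4 + 2 * δ := by
    intro w hw
    have h5 := of_box hδ hw
    have hk : ((⌊d / (8 * δ)⌋₊ - 1 : ℕ) : ℝ) ≤ d / (8 * δ) := by
      have h6 : (⌊d / (8 * δ)⌋₊ : ℝ) ≤ d / (8 * δ) := Nat.floor_le (by positivity)
      have h7 : ((⌊d / (8 * δ)⌋₊ - 1 : ℕ) : ℝ) ≤ (⌊d / (8 * δ)⌋₊ : ℝ) := by
        exact_mod_cast Nat.sub_le _ _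
      linarith
    have h6 : 2 * δ * ((⌊d / (8 * δ)⌋₊ - 1 : ℕ) : ℝ) ≤ d / 4 := by
      calc 2 * δ * ((⌊d / (8 * δ)⌋₊ - 1 : ℕ) : ℝ) ≤ 2 * δ * (d / (8 * δ)) :=
            mul_le_mul_of_nonneg_left hk (by positivity)
        _ = d / 4 := by
            field_simp
            norm_num
    linarith
  have hmono : ∀ {a b : ℕ} {w : Vtx}, a ≤ b → BX (vz δ o z) a w → BX (vz δ o z) b w := by
    rintro a b w hab ⟨⟨q1, q2⟩, q3, q4⟩
    unfold BX inR
    omega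
  have hfar : ∀ w : Vtx, d / 2 - 2 * δ ≤ dist (zp δ o w) z →
      ¬ BX (vz δ o z) (⌊d / (8 * δ)⌋₊ - 1) w := by
    intro w hw h
    have := hbox w h
    linarith
  have hσ1 : BX (vz δ o z) (⌈r / δ⌉₊ + 3) σ.1 := by
    apply box_of hδ
    have := dist_triangle_left (zp δ o σ.1) z x
    linarith
  have hτ1 : ¬ BX (vz δ o z) (⌊d / (8 * δ)⌋₊ - 1) τ.1 := by
    apply hfar
    have := dist_triangle x' (zp δ o τ.1) z
    linarith
  have hv : ∀ y : ℂ, dist y (zp δ o (vz δ o y)) ≤ 2 * δ := by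
    intro y
    refine ((near_vz (δ := δ) o y).dist hδ).trans (le_of_eq ?_)
    ring
  refine arms hinv hσ h1 h2 hδ hN (by omega) (hmono (by omega) hσ1)
    (hmono (by omega) (box_face hσ1)) (fun h => hτ1 (hmono (by omega) h))
    (fun h => hτ1 (hmono (by omega) (box_face' h)))
    (hmono (a := ⌈r / δ⌉₊ + 3) (by omega) (box_of hδ ?_))
    (fun h => hfar _ ?_ (hmono (by omega) h))
  · have := dist_triangle_left (zp δ o (vz δ o (g 0))) z (g 0)
    have := hv (g 0)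
    linarith
  · have := dist_triangle (g 1) (zp δ o (vz δ o (g 1))) z
    have := hv (g 1)
    linarith

end Pool.Agent.TH990.FU
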