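import Pool.Agent.TH990.FU.CovG
import Pool.Agent.TH990.FU.Geo

/-!
Boundaries of the components of the complement of compact sets, and of collections of compact sets.
-/

set_option autoImplicit false

namespace Pool.Agent.TH990.FU

open H974 H12S Finset H389NS H984P H984N H342P
open MeasureTheory Filter Topology TopologicalSpace Pool.Agent.W424.OD Pool.Agent.W462.DPL
open scoped ENNReal NNReal

/-- The compact set meets the disc `B(z, r)` and the complement of the disc of radius `ρ`, and some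
path `g` from `B(z, r)` to distance more than `ρ` from `z` keeps a distance larger than `ζ`. -/
def EvK (z : ℂ) (r ρ ζ : ℝ) : Set (NonemptyCompacts ℂ) :=
  {K | (∃ x ∈ K, dist x z < r) ∧ (∃ x ∈ K, ρ < dist x z) ∧
    ∃ g : C(unitInterval, ℂ), dist (g 0) z < r ∧ ρ < dist (g 1) z ∧ ∀ t, ∀ x ∈ K, ζ < dist (g t) x}

theorem EvK_open (z : ℂ) (r ρ ζ : ℝ) : IsOpen (EvK z r ρ ζ) := by
  rw [Metric.isOpen_iff]
  rintro K ⟨⟨x, hxK, hx⟩, ⟨x', hxK', hx'⟩, g, hg0, hg1, hg⟩
  have hcont : Continuous (fun p : unitInterval × ℂ => dist (g p.1) p.2) := by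
    fun_prop
  have hcomp : IsCompact ((Set.univ : Set unitInterval) ×ˢ (K : Set ℂ)) :=
    isCompact_univ.prod K.isCompact
  obtain ⟨p, hpK, hp⟩ := hcomp.exists_isMinOn ⟨(0, x), Set.mem_univ _, hxK⟩ hcont.continuousOn
  have hmin : ∀ t, ∀ y ∈ K, dist (g p.1) p.2 ≤ dist (g t) y := fun t y hy =>
    hp (show (t, y) ∈ _ from ⟨Set.mem_univ _, hy⟩)
  have hpp := hg p.1 p.2 hpK.2
  set ε : ℝ := min (min (r - dist x z) (dist x' z - ρ)) (dist (g p.1) p.2 - ζ) with hε
  have hpos : 0 < ε := lt_min (lt_min (by linarith) (by linarith)) (by linarith)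
  have e1 : ε ≤ r - dist x z := (min_le_left _ _).trans (min_le_left _ _)
  have e2 : ε ≤ dist x' z - ρ := (min_le_left _ _).trans (min_le_right _ _)
  have e3 : ε ≤ dist (g p.1) p.2 - ζ := min_le_right _ _
  refine ⟨ε, hpos, fun K' hK' => ?_⟩
  rw [Metric.mem_ball, Metric.NonemptyCompacts.dist_eq] at hK'
  have hfin : Metric.hausdorffEDist (K' : Set ℂ) (K : Set ℂ) ≠ ⊤ :=
    Metric.hausdorffEDist_ne_top_of_nonempty_of_bounded K'.nonempty K.nonempty
      K'.isCompact.isBounded K.isCompact.isBounded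
  refine ⟨?_, ?_, g, hg0, hg1, ?_⟩
  · obtain ⟨y, hy, hyx⟩ := Metric.exists_dist_lt_of_hausdorffDist_lt' hxK hK' hfin
    exact ⟨y, hy, by have := dist_triangle y x z; linarith⟩
  · obtain ⟨y, hy, hyx⟩ := Metric.exists_dist_lt_of_hausdorffDist_lt' hxK' hK' hfin
    exact ⟨y, hy, by have := dist_triangle_left x' z y; linarith⟩
  · intro t y hy
    obtain ⟨y', hy', hyy⟩ := Metric.exists_dist_lt_of_hausdorffDist_lt hy hK' hfin
    have h3 := dist_triangle (g t) y y'
    have h5 := hmin t y' hy'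
    linarith

theorem EvK_anti {z : ℂ} {r ρ ζ ζ' : ℝ} (h : ζ ≤ ζ') : EvK z r ρ ζ' ⊆ EvK z r ρ ζ := by
  rintro c ⟨h1, h2, g, hg0, hg1, hg⟩
  exact ⟨h1, h2, g, hg0, hg1, fun t x hx => h.trans_lt (hg t x hx)⟩

/-- The event without a bound of the distance. -/
def EKU (z : ℂ) (r ρ : ℝ) : Set (NonemptyCompacts ℂ) := ⋃ j : ℕ, EvK z r ρ (1 / ((j:ℝ) + 1))

/-- The points of `K` which are, at the scale `η`, accessible from the complement. -/
def AccK (η : ℝ) (K : Set ℂ) : Set ℂ :=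
  {w | w ∈ K ∧ (∃ u ∈ K, η ≤ dist u w) ∧ ∀ r : ℝ, 0 < r →
    ∃ g : C(unitInterval, ℂ), dist (g 0) w < r ∧ η ≤ dist (g 1) w ∧ ∀ t, g t ∉ K}

theorem EKU_of {η r ρ : ℝ} {K : NonemptyCompacts ℂ} {z w : ℂ} (hw : w ∈ AccK η (K : Set ℂ))
    (hwz : dist w z < r) (hρ : ρ + r ≤ η) : K ∈ EKU z r ρ := by
  obtain ⟨hwK, ⟨u, huK, hu⟩, hg⟩ := hw
  obtain ⟨g, hg0, hg1, hg⟩ := hg (r - dist w z) (by linarith)
  have hdis : Disjoint (Set.range g) (K : Set ℂ) := by
    rw [Set.disjoint_left]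
    rintro _ ⟨t, rfl⟩ ht
    exact hg t ht
  obtain ⟨ε, hε, hd⟩ := hdis.exists_thickenings (isCompact_range g.continuous)
    K.isCompact.isClosed
  obtain ⟨j, hj⟩ := exists_nat_one_div_lt hε
  refine Set.mem_iUnion.mpr ⟨j, ⟨w, hwK, hwz⟩, ⟨u, huK, ?_⟩, g, ?_, ?_, ?_⟩
  · have h6 := dist_triangle u z w
    rw [dist_comm z w] at h6
    linarith
  · have h6 := dist_triangle (g 0) w z
    linarith
  · have h6 := dist_triangle (g 1) z w
    rw [dist_comm z w] at h6
    linarith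
  · intro t x hx
    refine hj.trans_le ?_
    by_contra hcon
    push Not at hcon
    have hz1 : x ∈ Metric.thickening ε (Set.range g) := by
      rw [Metric.mem_thickening_iff]
      exact ⟨g t, ⟨t, rfl⟩, by rw [dist_comm]; exact hcon⟩
    exact Set.disjoint_left.mp hd hz1 (Metric.self_subset_thickening hε _ hx)

/-- The boundary of a component of the complement is accessible. -/
theorem comp_accK {K : Set ℂ} (hK : IsClosed K) (hne : K.Nontrivial) (x : ℂ) :
    frontier (connectedComponentIn Kᶜ x) ⊆ ⋃ i : ℕ, AccK (1 / ((i:ℝ) + 1)) K := by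
  intro w hw
  by_cases hx : x ∈ Kᶜ
  swap
  · rw [connectedComponentIn_eq_empty hx, frontier_empty] at hw
    exact absurd hw (Set.notMem_empty _)
  set C := connectedComponentIn Kᶜ x with hC
  have hCo : IsOpen C := hK.isOpen_compl.connectedComponentIn
  have hCc : IsConnected C := isConnected_connectedComponentIn_iff.mpr hx
  have hxC : x ∈ C := mem_connectedComponentIn hx
  have hpc : IsPathConnected C := (hCo.isConnected_iff_isPathConnected).1 hCc
  have hwC : w ∉ C := by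
    rw [frontier, hCo.interior_eq] at hw
    exact hw.2
  have hcl : w ∈ closure C := frontier_subset_closure hw
  have hwK : w ∈ K := by
    by_contra hcon
    have ho : IsOpen (connectedComponentIn Kᶜ w) := hK.isOpen_compl.connectedComponentIn
    obtain ⟨y, hy1, hy2⟩ := mem_closure_iff.1 hcl _ ho (mem_connectedComponentIn hcon)
    apply hwC
    have h1 := connectedComponentIn_eq hy1
    have h2 := connectedComponentIn_eq hy2
    rw [hC, h2, ← h1]
    exact mem_connectedComponentIn hcon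
  have hxw : 0 < dist x w := dist_pos.2 (fun h => hwC (h ▸ hxC))
  obtain ⟨u, huK, hu⟩ := hne.exists_ne w
  obtain ⟨i, hi⟩ := exists_nat_one_div_lt (lt_min hxw (dist_pos.2 hu))
  refine Set.mem_iUnion.2 ⟨i, hwK, ⟨u, huK, (hi.le.trans (min_le_right _ _))⟩, fun r hr => ?_⟩
  obtain ⟨y, hy, hyw⟩ := Metric.mem_closure_iff.mp hcl r hr
  obtain ⟨γ, hγ⟩ := hpc.joinedIn y hy x hxC
  refine ⟨⟨γ, γ.continuous⟩, ?_, ?_, fun t => ?_⟩
  · show dist (γ 0) w < r
    rw [γ.source, dist_comm]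
    exact hyw
  · show _ ≤ dist (γ 1) w
    rw [γ.target]
    exact hi.le.trans (min_le_left _ _)
  · exact connectedComponentIn_subset _ _ (hγ t)

/-- **the deterministic part for clusters** -/
theorem det_clu {δ : ℝ} (hδ : 0 < δ) {o z : ℂ} {r d : ℝ} (hδr : δ ≤ r) (hd : 256 * r ≤ d)
    {G : Set Edg} {v : Vtx} {x x' : ℂ} (hx : dist x z < r) (hx' : d / 2 < dist x' z)
    {g : C(unitInterval, ℂ)} (hg0 : dist (g 0) z < r) (hg1 : d / 2 ≤ dist (g 1) z)
    (hN : ∀ t u, Near δ o (g t) 3 u → ¬ Reach G v u) {u u' : Vtx} (hu : Reach G v u)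
    (hu' : Reach G v u') (hux : dist x (zp δ o u) ≤ 2 * δ) (hux' : dist x' (zp δ o u') ≤ 2 * δ) :
    A3v (vz δ o z) (⌈r / δ⌉₊ + 3 + 2) (⌊d / (8 * δ)⌋₊ - 2) G := by
  have hr : 0 < r := hδ.trans_le hδr
  have hd0 : 0 < d := by linarith
  obtain ⟨s1, s2, s3, -⟩ := sizes hδ hδr hd
  have hbox : ∀ w : Vtx, BX (vz δ o z) (⌊d / (8 * δ)⌋₊ - 1) w →
      dist (zp δ o w) z ≤ d / 4 + 2 * δ := by
    intro w hw
    have h5 := of_box hδ hw
    have hk : ((⌊d / (8 * δ)⌋₊ - 1 : ℕ) : ℝ) ≤ d / (8 * δ) := by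
      have h6 : (⌊d / (8 * δ)⌋₊ : ℝ) ≤ d / (8 * δ) := Nat.floor_le (by positivity)
      have h7 : ((⌊d / (8 * δ)⌋₊ - 1 : ℕ) : ℝ) ≤ (⌊d / (8 * δ)⌋₊ : ℝ) := by
        exact_mod_cast Nat.sub_le _ _
      linarith
    have h6 : 2 * δ * ((⌊d / (8 * δ)⌋₊ - 1 : ℕ) : ℝ) ≤ d / 4 := by
      calc 2 * δ * ((⌊d / (8 * δ)⌋₊ - 1 : ℕ) : ℝ) ≤ 2 * δ * (d / (8 * δ)) :=
            mul_le_mul_of_nonneg_left hk (by positivity)
        _ = d / 4 := by
            field_simp
            norm_num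
    linarith
  have hmono : ∀ {a b : ℕ} {w : Vtx}, a ≤ b → BX (vz δ o z) a w → BX (vz δ o z) b w := by
    rintro a b w hab ⟨⟨q1, q2⟩, q3, q4⟩
    unfold BX inR
    omega
  have hfar : ∀ w : Vtx, d / 2 - 2 * δ ≤ dist (zp δ o w) z →
      ¬ BX (vz δ o z) (⌊d / (8 * δ)⌋₊ - 1) w := by
    intro w hw h
    have := hbox w h
    linarith
  have hv : ∀ y : ℂ, dist y (zp δ o (vz δ o y)) ≤ 2 * δ := by
    intro y
    refine ((near_vz (δ := δ) o y).dist hδ).trans (le_of_eq ?_)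
    ring
  refine A3v_of (v := v) (by omega) (hmono (a := ⌈r / δ⌉₊ + 3) (by omega) (box_of hδ ?_)) hu
    (fun h => hfar u' ?_ (hmono (by omega) h)) hu'
    (hmono (a := ⌈r / δ⌉₊ + 3) (by omega) (box_of hδ ?_))
    (fun h => hfar (vz δ o (g 1)) ?_ (hmono (by omega) h))
    (follow' hδ fun t e h1 h2 => ⟨hN t _ h1, hN t _ h2⟩)
  · have := dist_triangle_left (zp δ o u) z x
    linarith
  · have := dist_triangle x' (zp δ o u') z
    linarith
  · have := dist_triangle_left (zp δ o (vz δ o (g 0))) z (g 0)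
    have := hv (g 0)
    linarith
  · have := dist_triangle (g 1) (zp δ o (vz δ o (g 1))) z
    have := hv (g 1)
    linarith

end Pool.Agent.TH990.FU
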