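import Pool.Agent.TH990.FU.AccK
import Pool.Agent.H389R2.CL.Up
import Pool.Agent.W462.DPL.C

/-!
Boundaries of the components of the complements of all clusters: dimension at most `4/3`.
-/

set_option autoImplicit false

namespace Pool.Agent.TH990.FU

open H974 H12S Finset H984P H342P H934E
open MeasureTheory Filter Topology TopologicalSpace Pool.Agent.W424.OD Pool.Agent.W462.DPL
open Pool.Agent.H389R2.CL
open scoped ENNReal NNReal

/-- the rectangle of the other model -/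
def toN (R : H934E.Rect) : H984N.Rect := ⟨R.A, R.B, R.H, R.t, R.hA, R.hB, R.hH, R.ht1, R.ht2⟩

theorem zp_ptE (δ : ℝ) (v : Vtx) : zp δ ⟨0, δ⟩ v = H934E.pt δ v := by
  apply Complex.ext
  · show (0 : ℝ) + δ * v.1 = δ * v.1
    rw [zero_add]
  · show δ + δ * v.2 = δ * (v.2 + 1)
    ring

theorem vz_ctrE {δ : ℝ} (hδ : 0 < δ) (z : ℂ) : vz δ ⟨0, δ⟩ z = ctr δ z := by
  have e : (z.im - δ) / δ = z.im / δ - 1 := by
    field_simp
  show (⌊(z.re - 0) / δ⌋, ⌊(z.im - δ) / δ⌋) = (⌊z.re / δ⌋, ⌊z.im / δ⌋ - 1)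
  rw [e, sub_zero, Int.floor_sub_one]

theorem blk_ES {l r h : ℤ} {c : ℤ × ℤ} {k : ℕ} (b1 : l < c.1 - k) (b2 : c.1 + k < r)
    (b3 : 0 < c.2 - k) (b4 : c.2 + k < h) :
    H12S.blk c k ⊆ H973.ES (Finset.Icc l r ×ˢ Finset.Icc 0 h) := by
  intro e he
  rw [H973.mem_ES, Finset.mem_product, Finset.mem_product, Finset.mem_Icc, Finset.mem_Icc,
    Finset.mem_Icc, Finset.mem_Icc]
  obtain ⟨x, y, t⟩ := e
  unfold H12S.blk at he
  cases t
  · rw [mem_RE_false] at he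
    rw [src_mk, tgt_false]
    simp only
    omega
  · rw [mem_RE_true] at he
    rw [src_mk, tgt_true]
    simp only
    omega

theorem wired_blk {R : H934E.Rect} {δ : ℝ} {c : ℤ × ℤ} {k : ℕ} (b1 : R.x0 δ < c.1 - k)
    (b3 : 0 < c.2 - k) (b4 : c.2 + k < R.y1 δ) {e : Edg} (he : e ∈ H12S.blk c k) :
    e ∉ R.wired δ := by
  obtain ⟨x, y, t⟩ := e
  unfold H12S.blk at he
  unfold H934E.Rect.wired
  simp only [Set.mem_ofPred_eq]
  cases t
  · rw [mem_RE_false] at he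
    simp only [Bool.false_eq_true, false_and, or_false, false_or, true_and]
    omega
  · rw [mem_RE_true] at he
    simp only [Bool.true_eq_false, false_and, false_or, true_and]
    omega

/-- the deterministic part for the clusters of the rectangle -/
theorem detC (R : H934E.Rect) {z : ℂ} {r d δ ζ : ℝ} (hδ : 0 < δ) (hδr : δ ≤ r)
    (hd : 256 * r ≤ d) (hζ : 8 * δ ≤ ζ) (hball : Metric.ball z d ⊆ R.D) {F : Finset Edg}
    {v : Vtx} (hE : clAt R δ F v ∈ EvK z r (d / 2) ζ) :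
    A3v (ctr δ z) (⌈r / δ⌉₊ + 3 + 2) (⌊d / (8 * δ)⌋₊ - 2) ↑F := by
  obtain ⟨⟨x, hxK, hx⟩, ⟨x', hxK', hx'⟩, g, hg0, hg1, hg⟩ := hE
  obtain ⟨u, hu, k1, k2⟩ := csetAt_near R hδ.le hxK
  obtain ⟨u', hu', k3, k4⟩ := csetAt_near R hδ.le hxK'
  have d1 : dist x (H934E.pt δ u) ≤ 2 * δ := by
    rw [dist_comm]
    refine (H984N.ML.dist_le_of (a := δ) (b := δ) ?_ ?_).trans (by linarith)
    · rw [abs_sub_comm]; exact k1
    · rw [abs_sub_comm]; exact k2
  have d2 : dist x' (H934E.pt δ u') ≤ 2 * δ := by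
    rw [dist_comm]
    refine (H984N.ML.dist_le_of (a := δ) (b := δ) ?_ ?_).trans (by linarith)
    · rw [abs_sub_comm]; exact k3
    · rw [abs_sub_comm]; exact k4
  obtain ⟨s1, s2, s3, -⟩ := sizes hδ hδr hd
  have hr : 0 < r := hδ.trans_le hδr
  obtain ⟨b1, b2, b3, b4⟩ := dom_box (toN R) hδ (show 64 * δ ≤ d by linarith) hball
  change R.x0 δ < _ at b1
  change _ < R.y1 δ at b4
  have hmain := det_clu (o := ⟨0, δ⟩) hδ hδr hd (G := ↑F ∪ R.wired δ) (v := v) hx hx' hg0 hg1.le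
    ?_ hu hu' (by rw [zp_ptE]; exact d1) (by rw [zp_ptE]; exact d2)
  · rw [vz_ctrE hδ] at hmain
    refine (A3v_congr ?_).1 hmain
    ext e
    simp only [Set.mem_inter_iff, Finset.mem_coe, Set.mem_union]
    constructor
    · rintro ⟨h1 | h1, h2⟩
      · exact ⟨h1, h2⟩
      · exact absurd h1 (wired_blk (by omega) (by omega) (by omega) h2)
    · rintro ⟨h1, h2⟩
      exact ⟨Or.inl h1, h2⟩
  · intro t w hw hR
    have h4 := hw.dist hδ
    rw [zp_ptE] at h4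
    have h5 := hg t (H934E.pt δ w) (Or.inl ⟨w, hR, rfl⟩)
    linarith

/-- the probability bound for clusters -/
theorem probC (hU : U3) (R : H934E.Rect) :
    ∃ C : ℝ, 0 < C ∧ ∀ (z : ℂ) (r d δ ζ : ℝ), 0 < r → r ≤ d →
      Metric.ball z d ⊆ R.D → 0 < δ → δ ≤ r → 8 * δ ≤ ζ →
        (collLaw R δ : Measure (NonemptyCompacts (NonemptyCompacts ℂ)))
          {𝒞 | ((𝒞 : Set (NonemptyCompacts ℂ)) ∩ EvK z r (d / 2) ζ).Nonempty} ≤
            ENNReal.ofReal (C * (r / d) ^ (2/3 : ℝ)) := by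
  obtain ⟨Ca, hCa, hA'⟩ := hU
  refine ⟨(Ca + 1) * 256 ^ (2/3 : ℝ), by positivity, ?_⟩
  intro z r d δ ζ hr hrd hball hδ hδr hζ
  have hd0 : 0 < d := hr.trans_le hrd
  refine (collLaw_exists_le R δ (EvK_open z r (d / 2) ζ)).trans ?_
  apply ENNReal.ofReal_le_ofReal
  have hq : 0 < r / d := by positivity
  have hRHS : (Ca + 1) * 256 ^ (2/3 : ℝ) * (r / d) ^ (2/3 : ℝ) =
      (Ca + 1) * (256 * (r / d)) ^ (2/3 : ℝ) := by
    rw [Real.mul_rpow (by norm_num) hq.le]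
    ring
  rw [hRHS]
  by_cases h256 : 256 * r ≤ d
  · obtain ⟨s1, s2, s3, s4⟩ := sizes hδ hδr h256
    obtain ⟨b1, b2, b3, b4⟩ := dom_box (toN R) hδ (show 64 * δ ≤ d by linarith) hball
    change R.x0 δ < _ at b1
    change _ < R.x1 δ at b2
    change _ < R.y1 δ at b4
    have hsub1 : ∀ k : ℕ, k ≤ ⌊d / (8 * δ)⌋₊ → H12S.blk (ctr δ z) k ⊆ R.edges δ := by
      intro k hk
      exact blk_ES (by omega) (by omega) (by omega) (by omega)
    have h1 := hA' (ctr δ z) (⌈r / δ⌉₊ + 3 + 2) (⌊d / (8 * δ)⌋₊ - 2) (by omega) s2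
      (R.edges δ) (hsub1 _ (by omega))
    have hmono : Pr Pool.Agent.H160R2.CV.P (R.edges δ)
          (fun F => ∃ v : Vtx, clAt R δ F v ∈ EvK z r (d / 2) ζ) ≤
        PQ (1/2) (R.edges δ) (fun F =>
          A3v (ctr δ z) (⌈r / δ⌉₊ + 3 + 2) (⌊d / (8 * δ)⌋₊ - 2) ↑F) := by
      show Pr (fun _ => (1/2:ℝ)) _ _ ≤ Pr (fun _ => (1/2:ℝ)) _ _
      apply Pr_mono okh
      rintro F hF ⟨v, hE⟩
      exact detC R hδ hδr h256 hζ hball hE
    have hpow : (((⌈r / δ⌉₊ + 3 + 2 : ℕ) : ℝ) / ((⌊d / (8 * δ)⌋₊ - 2 : ℕ) : ℝ)) ^ (2/3 : ℝ) ≤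
        (256 * (r / d)) ^ (2/3 : ℝ) :=
      Real.rpow_le_rpow (by positivity) s4 (by norm_num)
    have hx0 : 0 ≤ (256 * (r / d)) ^ (2/3 : ℝ) := by positivity
    have h3 := mul_le_mul_of_nonneg_left hpow hCa.le
    have h5 := hmono.trans (h1.trans h3)
    refine h5.trans ?_
    nlinarith
  · push Not at h256
    have h1 : Pr Pool.Agent.H160R2.CV.P (R.edges δ)
        (fun F => ∃ v : Vtx, clAt R δ F v ∈ EvK z r (d / 2) ζ) ≤ 1 := Pr_le_one okh _ _
    refine h1.trans ?_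
    have h2 : 1 ≤ 256 * (r / d) := by
      rw [← mul_div_assoc, le_div_iff₀ hd0]
      linarith
    have h3 : 1 ≤ (256 * (r / d)) ^ (2/3 : ℝ) := Real.one_le_rpow h2 (by norm_num)
    nlinarith

theorem DE_open (R : H934E.Rect) : IsOpen R.D := by
  have h : R.D = {z : ℂ | -R.A < z.re} ∩ {z : ℂ | z.re < R.B} ∩ {z : ℂ | 0 < z.im} ∩
      {z : ℂ | z.im < R.H} := by
    ext z
    simp only [H934E.Rect.D, Set.mem_ofPred_eq, Set.mem_inter_iff]
    tauto
  rw [h]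
  exact (((isOpen_lt continuous_const Complex.continuous_re).inter
    (isOpen_lt Complex.continuous_re continuous_const)).inter
    (isOpen_lt continuous_const Complex.continuous_im)).inter
    (isOpen_lt Complex.continuous_im continuous_const)

theorem DE_bdd (R : H934E.Rect) : ∃ M : ℕ, ∀ z ∈ R.D, |z.re| < M ∧ |z.im| < M := by
  obtain ⟨M, hM⟩ := exists_nat_gt (R.A + R.B + R.H)
  have := R.hA
  have := R.hB
  have := R.hH
  refine ⟨M, ?_⟩
  rintro z ⟨h1, h2, h3, h4⟩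
  constructor
  · rw [abs_lt]
    constructor <;> linarith
  · rw [abs_lt]
    constructor <;> linarith

/-- The accessible points of the members of a collection. -/
def SK (η : ℝ) (𝒞 : NonemptyCompacts (NonemptyCompacts ℂ)) : Set ℂ :=
  {w | ∃ K ∈ 𝒞, w ∈ AccK η (K : Set ℂ)}

/-- The accessible points of all clusters in the open rectangle. -/
theorem colD (hU : U3) (R : H934E.Rect) {δ : ℕ → ℝ} (hδ : ∀ i, 0 < δ i)
    (hlim : Tendsto δ atTop (𝓝 0)) {μ : ProbabilityMeasure (NonemptyCompacts (NonemptyCompacts ℂ))}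
    (hμ : Tendsto (fun i => collLaw R (δ i)) atTop (𝓝 μ)) :
    ∀ᵐ 𝒞 ∂(μ : Measure (NonemptyCompacts (NonemptyCompacts ℂ))), ∀ i : ℕ,
      dimH (SK (1 / ((i:ℝ) + 1)) 𝒞 ∩ R.D) ≤ 4/3 := by
  obtain ⟨C, hC, hP⟩ := probC hU R
  obtain ⟨M, hM⟩ := DE_bdd R
  refine dim_gen (E := fun d z r => {𝒞 : NonemptyCompacts (NonemptyCompacts ℂ) |
    ((𝒞 : Set (NonemptyCompacts ℂ)) ∩ EKU z r (d / 2)).Nonempty}) ?_ (S := SK) ?_ (DE_open R) hM
    hC ?_
  · intro d z r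
    exact NonemptyCompacts.isOpen_inter_nonempty_of_isOpen
      (isOpen_iUnion fun j => EvK_open _ _ _ _)
  · rintro η d z r w 𝒞 hdη hrd ⟨K, hK, hw⟩ hwz
    exact ⟨K, hK, EKU_of hw hwz (by linarith)⟩
  · intro z r d hr hrd hball
    have hmono : Monotone (fun j : ℕ => {𝒞 : NonemptyCompacts (NonemptyCompacts ℂ) |
        ((𝒞 : Set (NonemptyCompacts ℂ)) ∩ EvK z r (d / 2) (1 / ((j:ℝ) + 1))).Nonempty}) := by
      rintro i j hij 𝒞 ⟨K, h1, h2⟩
      exact ⟨K, h1, EvK_anti (Nat.one_div_le_one_div hij) h2⟩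
    have h : {𝒞 : NonemptyCompacts (NonemptyCompacts ℂ) |
          ((𝒞 : Set (NonemptyCompacts ℂ)) ∩ EKU z r (d / 2)).Nonempty} =
        ⋃ j : ℕ, {𝒞 : NonemptyCompacts (NonemptyCompacts ℂ) |
          ((𝒞 : Set (NonemptyCompacts ℂ)) ∩ EvK z r (d / 2) (1 / ((j:ℝ) + 1))).Nonempty} := by
      ext 𝒞
      simp only [Set.mem_ofPred_eq, Set.mem_iUnion]
      constructor
      · rintro ⟨K, h1, h2⟩
        obtain ⟨j, hj⟩ := Set.mem_iUnion.1 h2
        exact ⟨j, K, h1, hj⟩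
      · rintro ⟨j, K, h1, hj⟩
        exact ⟨K, h1, Set.mem_iUnion.2 ⟨j, hj⟩⟩
    rw [h, hmono.measure_iUnion]
    refine iSup_le fun j => ?_
    refine (ProbabilityMeasure.le_liminf_measure_open_of_tendsto hμ
      (NonemptyCompacts.isOpen_inter_nonempty_of_isOpen (EvK_open _ _ _ _))).trans ?_
    refine liminf_le_of_frequently_le (Eventually.frequently ?_)
    have hpos : 0 < min r (1 / ((j:ℝ) + 1) / 8) := lt_min hr (by positivity)
    filter_upwards [hlim.eventually (gt_mem_nhds hpos)] with i hi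
    have k1 := hi.le.trans (min_le_left _ _)
    have k3 := hi.le.trans (min_le_right _ _)
    exact hP z r d (δ i) _ hr hrd hball (hδ i) k1 (by linarith)

/-- **The accessible points of all clusters.** -/
theorem col (hU : U3) (R : H934E.Rect) {δ : ℕ → ℝ} (hδ : ∀ i, 0 < δ i)
    (hlim : Tendsto δ atTop (𝓝 0)) {μ : ProbabilityMeasure (NonemptyCompacts (NonemptyCompacts ℂ))}
    (hμ : Tendsto (fun i => collLaw R (δ i)) atTop (𝓝 μ)) :
    ∀ᵐ 𝒞 ∂(μ : Measure (NonemptyCompacts (NonemptyCompacts ℂ))),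
      dimH (⋃ i : ℕ, SK (1 / ((i:ℝ) + 1)) 𝒞) ≤ 4/3 := by
  filter_upwards [colD hU R hδ hlim hμ, coll_sub R hδ hlim hμ] with 𝒞 h1 h2
  have hsub : (⋃ i : ℕ, SK (1 / ((i:ℝ) + 1)) 𝒞) ⊆ (⋃ i : ℕ, SK (1 / ((i:ℝ) + 1)) 𝒞 ∩ R.D) ∪
      (({z : ℂ | z.re = -R.A} ∪ {z : ℂ | z.re = R.B}) ∪
        ({z : ℂ | z.im = 0} ∪ {z : ℂ | z.im = R.H})) := by
    intro z hz
    obtain ⟨i, hi⟩ := Set.mem_iUnion.1 hz
    obtain ⟨K, hK, hzK⟩ := id hi
    obtain ⟨⟨g1, g2⟩, g3, g4⟩ := h2 K hK hzK.1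
    rcases eq_or_lt_of_le g1 with e1 | e1
    · right; left; left; exact e1.symm
    rcases eq_or_lt_of_le g2 with e2 | e2
    · right; left; right; exact e2
    rcases eq_or_lt_of_le g3 with e3 | e3
    · right; right; left; exact e3.symm
    rcases eq_or_lt_of_le g4 with e4 | e4
    · right; right; right; exact e4
    left
    exact Set.mem_iUnion.2 ⟨i, hi, e1, e2, e3, e4⟩
  have h1le : (1 : ℝ≥0∞) ≤ 4/3 := by
    rw [← ENNReal.ofReal_one, ← e43']
    exact ENNReal.ofReal_le_ofReal (by norm_num)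
  refine (dimH_mono hsub).trans ?_
  rw [dimH_union, dimH_union, dimH_union, dimH_union, dimH_iUnion]
  refine max_le (iSup_le h1) (max_le (max_le ?_ ?_) (max_le ?_ ?_))
  · exact (Pool.Agent.H389R2.CD.dimH_vline _).trans h1le
  · exact (Pool.Agent.H389R2.CD.dimH_vline _).trans h1le
  · exact (Pool.Agent.H389R2.CD.dimH_hline _).trans h1le
  · exact (Pool.Agent.H389R2.CD.dimH_hline _).trans h1le

end Pool.Agent.TH990.FU
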