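import Pool.Agent.TH990.FU.Top
import Pool.Agent.W462.DPL.A
import Pool.Agent.H934R3.D74.T10Aux

/-!
Boundaries of the components of the complement of a path: covering argument.
-/

set_option autoImplicit false

namespace Pool.Agent.TH990.FU

open H974 H12S Finset H389NS H984P H984N
open MeasureTheory Filter Topology Pool.Agent.W424.OD Pool.Agent.W462.DPL
open scoped ENNReal NNReal

/-- The path visits the disc `B(z, r)`, leaves the disc of radius `ρ`, and some path `g` from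
`B(z, r)` to distance more than `ρ` from `z` keeps a distance larger than `ζ` from it. -/
def Ev3 (z : ℂ) (r ρ ζ : ℝ) : Set C(unitInterval, ℂ) :=
  {f | (∃ s, dist (f s) z < r) ∧ (∃ s, ρ < dist (f s) z) ∧
    ∃ g : C(unitInterval, ℂ), dist (g 0) z < r ∧ ρ < dist (g 1) z ∧ ∀ s t, ζ < dist (g t) (f s)}

theorem Ev3_near {z : ℂ} {r ρ ζ : ℝ} {f : C(unitInterval, ℂ)} (h : f ∈ Ev3 z r ρ ζ) :
    ∃ ε : ℝ, 0 < ε ∧ ∀ (f' : C(unitInterval, ℂ)) (φ : unitInterval ≃ unitInterval),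
      (∀ x, dist (f' x) (f (φ x)) < ε) → f' ∈ Ev3 z r ρ ζ := by
  obtain ⟨⟨s, hs⟩, ⟨s', hs'⟩, g, hg0, hg1, hg⟩ := h
  have hcont : Continuous (fun p : unitInterval × unitInterval => dist (g p.2) (f p.1)) := by
    fun_prop
  obtain ⟨p, -, hp⟩ := (isCompact_univ (X := unitInterval × unitInterval)).exists_isMinOn
    ⟨(0, 0), Set.mem_univ _⟩ hcont.continuousOn
  have hmin : ∀ s t, dist (g p.2) (f p.1) ≤ dist (g t) (f s) := fun s t =>
    hp (Set.mem_univ (s, t))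
  have hpp := hg p.1 p.2
  set ε : ℝ := min (min (r - dist (f s) z) (dist (f s') z - ρ))
    (dist (g p.2) (f p.1) - ζ) with hε
  have hpos : 0 < ε := lt_min (lt_min (by linarith) (by linarith)) (by linarith)
  have e1 : ε ≤ r - dist (f s) z := (min_le_left _ _).trans (min_le_left _ _)
  have e2 : ε ≤ dist (f s') z - ρ := (min_le_left _ _).trans (min_le_right _ _)
  have e3 : ε ≤ dist (g p.2) (f p.1) - ζ := min_le_right _ _
  refine ⟨ε, hpos, fun f' φ key => ?_⟩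
  have key' : ∀ x : unitInterval, dist (f' (φ.symm x)) (f x) < ε := by
    intro x
    have := key (φ.symm x)
    rwa [Equiv.apply_symm_apply] at this
  refine ⟨⟨φ.symm s, ?_⟩, ⟨φ.symm s', ?_⟩, g, hg0, hg1, ?_⟩
  · have h3 := dist_triangle (f' (φ.symm s)) (f s) z
    have h4 := key' s
    linarith
  · have h3 := dist_triangle_left (f s') z (f' (φ.symm s'))
    have h4 := key' s'
    linarith
  · intro x t
    have h3 := dist_triangle (g t) (f' x) (f (φ x))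
    have h4 := key x
    have h5 := hmin (φ x) t
    linarith

theorem Ev3_open (z : ℂ) (r ρ ζ : ℝ) : IsOpen (Ev3 z r ρ ζ) := by
  rw [Metric.isOpen_iff]
  intro f hf
  obtain ⟨ε, hε, h⟩ := Ev3_near hf
  refine ⟨ε, hε, fun f' hf' => h f' (Equiv.refl _) fun x => ?_⟩
  exact (ContinuousMap.dist_apply_le_dist x).trans_lt hf'

theorem Ev3_anti {z : ℂ} {r ρ ζ ζ' : ℝ} (h : ζ ≤ ζ') : Ev3 z r ρ ζ' ⊆ Ev3 z r ρ ζ := by
  rintro c ⟨h1, h2, g, hg0, hg1, hg⟩
  exact ⟨h1, h2, g, hg0, hg1, fun s t => h.trans_lt (hg s t)⟩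

/-- The event without a bound of the distance. -/
def E3U (z : ℂ) (r ρ : ℝ) : Set C(unitInterval, ℂ) := ⋃ j : ℕ, Ev3 z r ρ (1 / ((j:ℝ) + 1))

/-- The points of the range of `f` which are, at the scale `η`, accessible from the complement. -/
def Acc (η : ℝ) (f : C(unitInterval, ℂ)) : Set ℂ :=
  {w | w ∈ Set.range f ∧ (∃ u, η ≤ dist (f u) w) ∧ ∀ r : ℝ, 0 < r →
    ∃ g : C(unitInterval, ℂ), dist (g 0) w < r ∧ η ≤ dist (g 1) w ∧ ∀ t, g t ∉ Set.range f}

theorem Acc_anti {η η' : ℝ} (h : η ≤ η') (f : C(unitInterval, ℂ)) : Acc η' f ⊆ Acc η f := by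
  rintro w ⟨h1, ⟨u, hu⟩, h2⟩
  refine ⟨h1, ⟨u, h.trans hu⟩, fun r hr => ?_⟩
  obtain ⟨g, g1, g2, g3⟩ := h2 r hr
  exact ⟨g, g1, h.trans g2, g3⟩

theorem E3U_of {η r ρ : ℝ} {f : C(unitInterval, ℂ)} {z w : ℂ} (hw : w ∈ Acc η f)
    (hwz : dist w z < r) (hρ : ρ + r ≤ η) : f ∈ E3U z r ρ := by
  obtain ⟨⟨s, hs⟩, ⟨u, hu⟩, hg⟩ := hw
  obtain ⟨g, hg0, hg1, hg⟩ := hg (r - dist w z) (by linarith)
  have hdis : Disjoint (Set.range g) (Set.range f) := by
    rw [Set.disjoint_left]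
    rintro _ ⟨t, rfl⟩ ht
    exact hg t ht
  obtain ⟨ε, hε, hd⟩ := hdis.exists_thickenings (isCompact_range g.continuous)
    (isCompact_range f.continuous).isClosed
  obtain ⟨j, hj⟩ := exists_nat_one_div_lt hε
  refine Set.mem_iUnion.mpr ⟨j, ⟨s, by rw [hs]; exact hwz⟩, ⟨u, ?_⟩, g, ?_, ?_, ?_⟩
  · have h6 := dist_triangle (f u) z w
    rw [dist_comm z w] at h6
    linarith
  · have h6 := dist_triangle (g 0) w z
    linarith
  · have h6 := dist_triangle (g 1) z w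
    rw [dist_comm z w] at h6
    linarith
  · intro s t
    refine hj.trans_le ?_
    by_contra hcon
    push Not at hcon
    have hz1 : f s ∈ Metric.thickening ε (Set.range g) := by
      rw [Metric.mem_thickening_iff]
      exact ⟨g t, ⟨t, rfl⟩, by rw [dist_comm]; exact hcon⟩
    exact Set.disjoint_left.mp hd hz1 (Metric.self_subset_thickening hε _ ⟨s, rfl⟩)

/-! ### Components -/

/-- The boundary of a component of the complement is accessible. -/
theorem comp_acc {f : C(unitInterval, ℂ)} (hne : ∃ s t, f s ≠ f t) (x : ℂ) :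
    frontier (connectedComponentIn (Set.range f)ᶜ x) ⊆ ⋃ i : ℕ, Acc (1 / ((i:ℝ) + 1)) f := by
  intro w hw
  have hK : IsClosed (Set.range f) := (isCompact_range f.continuous).isClosed
  by_cases hx : x ∈ (Set.range f)ᶜ
  swap
  · rw [connectedComponentIn_eq_empty hx, frontier_empty] at hw
    exact absurd hw (Set.notMem_empty _)
  set C := connectedComponentIn (Set.range f)ᶜ x with hC
  have hCo : IsOpen C := hK.isOpen_compl.connectedComponentIn
  have hCc : IsConnected C := isConnected_connectedComponentIn_iff.mpr hx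
  have hxC : x ∈ C := mem_connectedComponentIn hx
  have hpc : IsPathConnected C := (hCo.isConnected_iff_isPathConnected).1 hCc
  have hwC : w ∉ C := by
    rw [frontier, hCo.interior_eq] at hw
    exact hw.2
  have hcl : w ∈ closure C := frontier_subset_closure hw
  have hwK : w ∈ Set.range f := by
    by_contra hcon
    have ho : IsOpen (connectedComponentIn (Set.range f)ᶜ w) := hK.isOpen_compl.connectedComponentIn
    obtain ⟨y, hy1, hy2⟩ := mem_closure_iff.1 hcl _ ho (mem_connectedComponentIn hcon)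
    apply hwC
    have h1 := connectedComponentIn_eq hy1
    have h2 := connectedComponentIn_eq hy2
    rw [hC, h2, ← h1]
    exact mem_connectedComponentIn hcon
  have hxw : 0 < dist x w := dist_pos.2 (fun h => hwC (h ▸ hxC))
  obtain ⟨s0, t0, hst⟩ := hne
  have h3 : ∃ u, f u ≠ w := by
    by_contra hcon
    push Not at hcon
    exact hst ((hcon s0).trans (hcon t0).symm)
  obtain ⟨u, hu⟩ := h3
  obtain ⟨i, hi⟩ := exists_nat_one_div_lt (lt_min hxw (dist_pos.2 hu))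
  refine Set.mem_iUnion.2 ⟨i, hwK, ⟨u, (hi.le.trans (min_le_right _ _))⟩, fun r hr => ?_⟩
  obtain ⟨y, hy, hyw⟩ := Metric.mem_closure_iff.mp hcl r hr
  obtain ⟨γ, hγ⟩ := hpc.joinedIn y hy x hxC
  refine ⟨⟨γ, γ.continuous⟩, ?_, ?_, fun t => ?_⟩
  · show dist (γ 0) w < r
    rw [γ.source, dist_comm]
    exact hyw
  · show _ ≤ dist (γ 1) w
    rw [γ.target]
    exact hi.le.trans (min_le_left _ _)
  · exact connectedComponentIn_subset _ _ (hγ t)

theorem frontiers_acc {f : C(unitInterval, ℂ)} (hne : ∃ s t, f s ≠ f t) :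
    (⋃ x : ℂ, frontier (connectedComponentIn (Set.range f)ᶜ x)) ⊆
      ⋃ i : ℕ, Acc (1 / ((i:ℝ) + 1)) f := Set.iUnion_subset fun x => comp_acc hne x

/-! ### Covering -/

/-- the limit of the covering sums -/
theorem lim0' (M : ℝ) (C d t : ℝ) (hd : 0 < d) (ht : 4 / 3 < t) (m0 : ℕ) (hm0 : 1 ≤ m0) :
    Tendsto (fun m : ℕ => (2 * M * ((m + m0 : ℕ) : ℝ)) ^ 2 * ((4 / ((m + m0 : ℕ) : ℝ)) ^ t *
      (C * ((2 / ((m + m0 : ℕ) : ℝ)) / d) ^ (2 / 3 : ℝ)))) atTop (𝓝 0) := by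
  have h1 : Tendsto (fun m : ℕ => ((m + m0 : ℕ) : ℝ)) atTop atTop :=
    tendsto_natCast_atTop_atTop.comp (tendsto_add_atTop_nat m0)
  have h2 : Tendsto (fun x : ℝ => x ^ (-(t - 4 / 3))) atTop (𝓝 0) :=
    tendsto_rpow_neg_atTop (by linarith)
  have h3 := (h2.comp h1).const_mul ((2 * M) ^ 2 * (4 ^ t * (C * (2 / d) ^ (2 / 3 : ℝ))))
  rw [mul_zero] at h3
  refine h3.congr ?_
  intro m
  have hpos : (0 : ℝ) < ((m + m0 : ℕ) : ℝ) := by
    have : 0 < m + m0 := by omega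
    exact_mod_cast this
  set x : ℝ := ((m + m0 : ℕ) : ℝ) with hx
  simp only [Function.comp]
  rw [← hx]
  have e1 : (4 / x) ^ t = 4 ^ t * x ^ (-t) := by
    rw [Real.div_rpow (by norm_num) hpos.le, Real.rpow_neg hpos.le]
    ring
  have e2 : ((2 / x) / d) ^ (2 / 3 : ℝ) = (2 / d) ^ (2 / 3 : ℝ) * x ^ (-(2 / 3) : ℝ) := by
    have : (2 / x) / d = (2 / d) / x := by
      field_simp
    rw [this, Real.div_rpow (by positivity) hpos.le, Real.rpow_neg hpos.le]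
    ring
  have e3 : x ^ (-(t - 4 / 3)) = x ^ (2 : ℝ) * (x ^ (-t) * x ^ (-(2 / 3) : ℝ)) := by
    rw [← Real.rpow_add hpos, ← Real.rpow_add hpos]
    congr 1
    ring
  rw [e1, e2, e3, Real.rpow_two]
  ring

section cover
variable {Ω : Type*} [TopologicalSpace Ω] [MeasurableSpace Ω] [OpensMeasurableSpace Ω]
  [HasOuterApproxClosed Ω]

open Classical in
/-- the event which belongs to a covering set -/
noncomputable def H3 (pf : Ω → C(unitInterval, ℂ)) (D : Set ℂ) (d N : ℝ) (a b : ℤ) : Set Ω :=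
  if h : (H934F.t10_sq N a b ∩ H934F.t10_A D d).Nonempty then pf ⁻¹' E3U h.some (2 / N) (d / 2)
  else ∅

omit [MeasurableSpace Ω] [OpensMeasurableSpace Ω] [HasOuterApproxClosed Ω] in
theorem H3_open {pf : Ω → C(unitInterval, ℂ)} (hO : ∀ z r ρ, IsOpen (pf ⁻¹' E3U z r ρ))
    (D : Set ℂ) (d N : ℝ) (a b : ℤ) : IsOpen (H3 pf D d N a b) := by
  unfold H3
  split_ifs
  · exact hO _ _ _
  · exact isOpen_empty

omit [TopologicalSpace Ω] [MeasurableSpace Ω] [OpensMeasurableSpace Ω] [HasOuterApproxClosed Ω] in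
theorem H3_of {pf : Ω → C(unitInterval, ℂ)} {D : Set ℂ} {d N η : ℝ} (hdη : d ≤ η)
    (hN : 2 / N ≤ d / 2) {a b : ℤ} {p : Ω} {A : Set ℂ}
    (h : ((Acc η (pf p) ∩ A) ∩ H934F.t10_U D d N a b).Nonempty) : p ∈ H3 pf D d N a b := by
  obtain ⟨w, ⟨hw1, _⟩, hw2⟩ := h
  unfold H934F.t10_U at hw2
  unfold H3
  split_ifs at hw2 ⊢ with h
  · rw [Metric.mem_ball] at hw2
    exact E3U_of hw1 hw2 (by linarith)
  · exact absurd hw2 (Set.notMem_empty _)

/-- one scale -/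
theorem one_scale3 {pf : Ω → C(unitInterval, ℂ)} (hO : ∀ z r ρ, IsOpen (pf ⁻¹' E3U z r ρ))
    {D : Set ℂ} {M : ℕ} (hM : ∀ z ∈ D, |z.re| < M ∧ |z.im| < M) {C d η : ℝ}
    (hC : 0 < C) (hd : 0 < d) (hdη : d ≤ η) {μ : ProbabilityMeasure Ω}
    (hp : ∀ (z : ℂ) (r : ℝ), 0 < r → r ≤ d → Metric.ball z d ⊆ D →
      (μ : Measure Ω) (pf ⁻¹' E3U z r (d / 2)) ≤ ENNReal.ofReal (C * (r / d) ^ (2 / 3 : ℝ)))
    {t : ℝ} (ht : 4 / 3 < t) :
    ∀ᵐ p ∂(μ : Measure Ω), dimH (Acc η (pf p) ∩ H934F.t10_A D d) ≤ ENNReal.ofReal t := by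
  obtain ⟨m1, hm1⟩ := exists_nat_gt (4 / d)
  set m0 : ℕ := m1 + 1 with hm0
  have hN : ∀ m : ℕ, (0 : ℝ) < ((m + m0 : ℕ) : ℝ) := by
    intro m
    have : 0 < m + m0 := by omega
    exact_mod_cast this
  have hNd : ∀ m : ℕ, 2 / ((m + m0 : ℕ) : ℝ) ≤ d / 2 := by
    intro m
    rw [div_le_iff₀ (hN m)]
    rw [div_lt_iff₀ hd] at hm1
    have : (m1 : ℝ) ≤ ((m + m0 : ℕ) : ℝ) := by
      have : m1 ≤ m + m0 := by omega
      exact_mod_cast this
    nlinarith
  have hsub : H934F.t10_A D d ⊆ D := fun z hz => hz (Metric.mem_ball_self hd)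
  refine upperG (μs := fun _ => μ) (by linarith) tendsto_const_nhds
    (fun p => Acc η (pf p) ∩ H934F.t10_A D d)
    (ι := fun m => Fin (2 * M * (m + m0)) × Fin (2 * M * (m + m0)))
    (fun m i => H934F.t10_U D d ((m + m0 : ℕ) : ℝ) ((i.1 : ℕ) - (M * (m + m0) : ℕ) : ℤ)
      ((i.2 : ℕ) - (M * (m + m0) : ℕ) : ℤ))
    (fun m i => H3 pf D d ((m + m0 : ℕ) : ℝ) ((i.1 : ℕ) - (M * (m + m0) : ℕ) : ℤ)
      ((i.2 : ℕ) - (M * (m + m0) : ℕ) : ℤ))
    (fun m i => H3_open hO _ _ _ _ _) (fun m i p h => H3_of hdη (hNd m) h)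
    (fun m => ENNReal.ofReal (4 / ((m + m0 : ℕ) : ℝ))) ?_
    (fun m i => H934F.t10_U_ediam _ _ _ _ _)
    ?_ (fun m _ => ENNReal.ofReal (C * ((2 / ((m + m0 : ℕ) : ℝ)) / d) ^ (2 / 3 : ℝ))) ?_ ?_
  · -- the radii tend to zero
    have h1 : Tendsto (fun m : ℕ => ((m + m0 : ℕ) : ℝ)) atTop atTop :=
      tendsto_natCast_atTop_atTop.comp (tendsto_add_atTop_nat m0)
    have h2 : Tendsto (fun m : ℕ => 4 / ((m + m0 : ℕ) : ℝ)) atTop (𝓝 0) :=
      h1.const_div_atTop 4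
    have h3 := ENNReal.tendsto_ofReal h2
    rwa [ENNReal.ofReal_zero] at h3
  · -- covering
    rintro m p z ⟨_, hz⟩
    obtain ⟨h1, h2⟩ := hM z (hsub hz)
    have hb : ∀ y : ℝ, |y| < M → -((M * (m + m0) : ℕ) : ℤ) ≤ ⌊((m + m0 : ℕ) : ℝ) * y⌋ ∧
        ⌊((m + m0 : ℕ) : ℝ) * y⌋ < ((M * (m + m0) : ℕ) : ℤ) := by
      intro y hy
      rw [abs_lt] at hy
      have hn := hN m
      constructor
      · rw [Int.le_floor]
        push_cast at hn ⊢
        nlinarith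
      · rw [Int.floor_lt]
        push_cast at hn ⊢
        nlinarith
    obtain ⟨h3, h4⟩ := hb _ h1
    obtain ⟨h5, h6⟩ := hb _ h2
    refine Set.mem_iUnion.mpr ⟨(⟨(⌊((m + m0 : ℕ) : ℝ) * z.re⌋ + (M * (m + m0) : ℕ)).toNat, ?_⟩,
      ⟨(⌊((m + m0 : ℕ) : ℝ) * z.im⌋ + (M * (m + m0) : ℕ)).toNat, ?_⟩), ?_⟩
    · rw [Int.toNat_lt (by omega)]
      have : ((2 * M * (m + m0) : ℕ) : ℤ) = 2 * ((M * (m + m0) : ℕ) : ℤ) := by
        push_cast; ring
      omega
    · rw [Int.toNat_lt (by omega)]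
      have : ((2 * M * (m + m0) : ℕ) : ℤ) = 2 * ((M * (m + m0) : ℕ) : ℤ) := by
        push_cast; ring
      omega
    · have hcov := H934F.t10_U_cover (N := ((m + m0 : ℕ) : ℝ)) (hN m) hz
      simp only
      rw [Int.toNat_of_nonneg (by omega), Int.toNat_of_nonneg (by omega)]
      rw [add_sub_cancel_right, add_sub_cancel_right]
      exact hcov
  · -- probabilities
    intro m i
    unfold H3
    split_ifs with h
    · exact (Eventually.of_forall fun _ => hp h.some (2 / ((m + m0 : ℕ) : ℝ))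
        (div_pos two_pos (hN m)) ((hNd m).trans (by linarith)) h.some_mem.2).frequently
    · refine (Eventually.of_forall fun n => ?_).frequently
      rw [measure_empty]
      exact zero_le
  · -- the sums tend to zero
    have hl := ENNReal.tendsto_ofReal (lim0' M C d t hd ht m0 (by omega))
    rw [ENNReal.ofReal_zero] at hl
    refine tendsto_of_tendsto_of_tendsto_of_le_of_le tendsto_const_nhds hl
      (fun m => zero_le) (fun m => ?_)
    have hn := hN m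
    have ht0 : 0 ≤ t := by linarith
    have h4 : 0 ≤ (4 : ℝ) / ((m + m0 : ℕ) : ℝ) := by positivity
    calc ∑ i : Fin (2 * M * (m + m0)) × Fin (2 * M * (m + m0)),
          Metric.ediam (H934F.t10_U D d ((m + m0 : ℕ) : ℝ) ((i.1 : ℕ) - (M * (m + m0) : ℕ) : ℤ)
            ((i.2 : ℕ) - (M * (m + m0) : ℕ) : ℤ)) ^ t *
            ENNReal.ofReal (C * ((2 / ((m + m0 : ℕ) : ℝ)) / d) ^ (2 / 3 : ℝ))
        ≤ ∑ _i : Fin (2 * M * (m + m0)) × Fin (2 * M * (m + m0)),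
          ENNReal.ofReal ((4 / ((m + m0 : ℕ) : ℝ)) ^ t *
            (C * ((2 / ((m + m0 : ℕ) : ℝ)) / d) ^ (2 / 3 : ℝ))) := by
          refine Finset.sum_le_sum fun i _ => ?_
          have e5 : ENNReal.ofReal ((4 / ((m + m0 : ℕ) : ℝ)) ^ t *
              (C * ((2 / ((m + m0 : ℕ) : ℝ)) / d) ^ (2 / 3 : ℝ))) =
              ENNReal.ofReal (4 / ((m + m0 : ℕ) : ℝ)) ^ t *
                ENNReal.ofReal (C * ((2 / ((m + m0 : ℕ) : ℝ)) / d) ^ (2 / 3 : ℝ)) := by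
            rw [ENNReal.ofReal_mul (by positivity), ENNReal.ofReal_rpow_of_nonneg h4 ht0]
          rw [e5]
          gcongr
          exact H934F.t10_U_ediam _ _ _ _ _
      _ ≤ ENNReal.ofReal ((2 * M * ((m + m0 : ℕ) : ℝ)) ^ 2 * ((4 / ((m + m0 : ℕ) : ℝ)) ^ t *
            (C * ((2 / ((m + m0 : ℕ) : ℝ)) / d) ^ (2 / 3 : ℝ)))) := by
          have e : (2 * (M : ℝ) * ((m + m0 : ℕ) : ℝ)) ^ 2 =
              ((2 * M * (m + m0) * (2 * M * (m + m0)) : ℕ) : ℝ) := by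
            push_cast
            ring
          rw [Finset.sum_const, Finset.card_univ, Fintype.card_prod, Fintype.card_fin,
            nsmul_eq_mul, e, ENNReal.ofReal_mul (Nat.cast_nonneg _), ENNReal.ofReal_natCast]

theorem e43' : ENNReal.ofReal (4/3) = 4/3 := by
  rw [ENNReal.ofReal_div_of_pos (by norm_num)]
  norm_num

/-- The accessible points in `D` have dimension at most `4/3`. -/
theorem acc_dim {pf : Ω → C(unitInterval, ℂ)} (hO : ∀ z r ρ, IsOpen (pf ⁻¹' E3U z r ρ))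
    {D : Set ℂ} (hDo : IsOpen D) {M : ℕ} (hM : ∀ z ∈ D, |z.re| < M ∧ |z.im| < M) {C : ℝ}
    (hC : 0 < C) {μ : ProbabilityMeasure Ω}
    (hp : ∀ (z : ℂ) (r d : ℝ), 0 < r → r ≤ d → Metric.ball z d ⊆ D →
      (μ : Measure Ω) (pf ⁻¹' E3U z r (d / 2)) ≤ ENNReal.ofReal (C * (r / d) ^ (2 / 3 : ℝ))) :
    ∀ᵐ p ∂(μ : Measure Ω), ∀ i : ℕ, dimH (Acc (1 / ((i:ℝ) + 1)) (pf p) ∩ D) ≤ 4/3 := by
  set dn : ℕ → ℕ → ℝ := fun i n => min (1 / ((i:ℝ) + 1)) (1 / ((n : ℝ) + 1)) with hdn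
  have hdn0 : ∀ i n, 0 < dn i n := fun i n => lt_min (by positivity) (by positivity)
  have h1 : ∀ᵐ p ∂(μ : Measure Ω), ∀ i n j : ℕ,
      dimH (Acc (1 / ((i:ℝ) + 1)) (pf p) ∩ H934F.t10_A D (dn i n)) ≤
        ENNReal.ofReal (4 / 3 + 1 / ((j : ℝ) + 1)) := by
    rw [ae_all_iff]
    intro i
    rw [ae_all_iff]
    intro n
    rw [ae_all_iff]
    intro j
    have hj : 0 < 1 / ((j : ℝ) + 1) := by positivity
    exact one_scale3 hO hM hC (hdn0 i n) (min_le_left _ _)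
      (fun z r hr hrd hb => hp z r (dn i n) hr hrd hb) (by linarith)
  filter_upwards [h1] with p hp i
  have hsub : Acc (1 / ((i:ℝ) + 1)) (pf p) ∩ D ⊆
      ⋃ n : ℕ, Acc (1 / ((i:ℝ) + 1)) (pf p) ∩ H934F.t10_A D (dn i n) := by
    rintro z ⟨hzK, hzD⟩
    obtain ⟨ε, hε, hb⟩ := Metric.isOpen_iff.mp hDo z hzD
    obtain ⟨n, hn⟩ := exists_nat_one_div_lt hε
    exact Set.mem_iUnion.mpr ⟨n, hzK,
      (Metric.ball_subset_ball ((min_le_right _ _).trans hn.le)).trans hb⟩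
  refine (dimH_mono hsub).trans ?_
  rw [dimH_iUnion]
  refine iSup_le fun n => ?_
  have hlim : Tendsto (fun j : ℕ => ENNReal.ofReal (4 / 3 + 1 / ((j : ℝ) + 1))) atTop
      (𝓝 (ENNReal.ofReal (4 / 3 + 0))) :=
    ENNReal.tendsto_ofReal (tendsto_const_nhds.add tendsto_one_div_add_atTop_nhds_zero_nat)
  rw [add_zero, e43'] at hlim
  exact ge_of_tendsto' hlim (fun j => hp i n j)

end cover

end Pool.Agent.TH990.FU
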