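import Pool.Agent.H934R3.D74.T10Aux

/-!
Covering argument: intersections of random sets with a fixed set.
-/

set_option autoImplicit false

namespace Pool.Agent.TH990.FU

open MeasureTheory Filter Topology Measure
open scoped ENNReal NNReal

/-- coverings with small sums -/
theorem exists_cover {A : Set ℂ} {u : ℝ} (hu : 0 < u) (hA : μH[u] A = 0) {ε : ℝ} (hε : 0 < ε) :
    ∃ (U : ℕ → Set ℂ) (r : ℕ → ℝ), A ⊆ ⋃ i, U i ∧ (∀ i, 0 < r i) ∧ (∀ i, r i ≤ ε) ∧
      (∀ i, Metric.ediam (U i) ≤ ENNReal.ofReal (r i)) ∧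
      ∑' i, ENNReal.ofReal (r i ^ u) ≤ ENNReal.ofReal ε := by
  rw [hausdorffMeasure_apply] at hA
  have h1 := ENNReal.iSup_eq_zero.1 hA (ENNReal.ofReal ε)
  have h2 := ENNReal.iSup_eq_zero.1 h1 (ENNReal.ofReal_pos.2 hε)
  have h3 : (⨅ (t : ℕ → Set ℂ) (_ : A ⊆ ⋃ n, t n) (_ : ∀ n, Metric.ediam (t n) ≤
      ENNReal.ofReal ε), ∑' n, ⨆ _ : (t n).Nonempty, Metric.ediam (t n) ^ u) <
      ENNReal.ofReal (ε / 2) := by
    rw [h2]
    exact ENNReal.ofReal_pos.2 (by linarith)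
  simp only [iInf_lt_iff] at h3
  obtain ⟨U, hU1, hU2, hU3⟩ := h3
  set q : ℕ → ℝ := fun i => ε / 2 * (1 / 2) ^ (i + 1) with hq
  have hq0 : ∀ i, 0 < q i := fun i => by positivity
  have hfin : ∀ i, Metric.ediam (U i) ≠ ⊤ := fun i => ne_top_of_le_ne_top ENNReal.ofReal_ne_top
    (hU2 i)
  set b : ℕ → ℝ := fun i => min ε (q i ^ (1 / u)) with hb
  have hb0 : ∀ i, 0 < b i := fun i => lt_min hε (Real.rpow_pos_of_pos (hq0 i) _)
  have hbu : ∀ i, b i ^ u ≤ q i := by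
    intro i
    have h4 : b i ≤ q i ^ (1 / u) := min_le_right _ _
    calc b i ^ u ≤ (q i ^ (1 / u)) ^ u := Real.rpow_le_rpow (hb0 i).le h4 hu.le
      _ = q i := by
          rw [← Real.rpow_mul (hq0 i).le, one_div, inv_mul_cancel₀ hu.ne', Real.rpow_one]
  refine ⟨U, fun i => max (Metric.ediam (U i)).toReal (b i), hU1,
    fun i => lt_max_of_lt_right (hb0 i), fun i => max_le ?_ (min_le_left _ _), fun i => ?_, ?_⟩
  · exact ENNReal.toReal_le_of_le_ofReal hε.le (hU2 i)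
  · rw [← ENNReal.ofReal_toReal (hfin i)]
    exact ENNReal.ofReal_le_ofReal (le_max_left _ _)
  · have hle : ∀ i, ENNReal.ofReal (max (Metric.ediam (U i)).toReal (b i) ^ u) ≤
        (⨆ _ : (U i).Nonempty, Metric.ediam (U i) ^ u) + ENNReal.ofReal (q i) := by
      intro i
      rcases le_total (Metric.ediam (U i)).toReal (b i) with h4 | h4
      · rw [max_eq_right h4]
        exact (ENNReal.ofReal_le_ofReal (hbu i)).trans le_add_self
      · rw [max_eq_left h4]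
        refine le_trans ?_ le_self_add
        have h5 : (U i).Nonempty := by
          by_contra hcon
          rw [Set.not_nonempty_iff_eq_empty] at hcon
          rw [hcon, Metric.ediam_empty] at h4
          have := hb0 i
          simp only [ENNReal.toReal_zero] at h4
          linarith
        rw [iSup_pos h5, ← ENNReal.ofReal_rpow_of_nonneg ENNReal.toReal_nonneg hu.le,
          ENNReal.ofReal_toReal (hfin i)]
    refine (ENNReal.tsum_le_tsum hle).trans ?_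
    rw [ENNReal.tsum_add]
    have hsum : ∑' i, ENNReal.ofReal (q i) = ENNReal.ofReal (ε / 2) := by
      rw [← ENNReal.ofReal_tsum_of_nonneg (fun i => (hq0 i).le)]
      · congr 1
        rw [hq]
        simp only [pow_succ]
        rw [tsum_mul_left, tsum_mul_right, tsum_geometric_of_lt_one (by norm_num) (by norm_num)]
        norm_num
      · rw [hq]
        have := (summable_geometric_of_lt_one (r := (1/2:ℝ)) (by norm_num) (by norm_num))
        exact ((summable_nat_add_iff 1).2 this).mul_left _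
    rw [hsum]
    calc _ ≤ ENNReal.ofReal (ε / 2) + ENNReal.ofReal (ε / 2) := by gcongr
      _ = ENNReal.ofReal ε := by
          rw [← ENNReal.ofReal_add (by linarith) (by linarith)]
          congr 1
          ring

section fixed
variable {Ω : Type*} [MeasurableSpace Ω]

open Classical in
/-- the event which belongs to a covering set -/
noncomputable def HF (E : ℂ → ℝ → Set Ω) (B : Set ℂ) (U : Set ℂ) (r : ℝ) : Set Ω :=
  if h : (U ∩ B).Nonempty then E h.some (2 * r) else ∅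

theorem HF_meas {E : ℂ → ℝ → Set Ω} (hE : ∀ z r, MeasurableSet (E z r)) (B U : Set ℂ) (r : ℝ) :
    MeasurableSet (HF E B U r) := by
  unfold HF
  split_ifs
  · exact hE _ _
  · exact MeasurableSet.empty

omit [MeasurableSpace Ω] in
theorem HF_of {E : ℂ → ℝ → Set Ω} {S : Ω → Set ℂ} {d : ℝ}
    (hS : ∀ z r w ω, r ≤ d / 2 → w ∈ S ω → dist w z < r → ω ∈ E z r) {B U : Set ℂ} {r : ℝ}
    (hr : 0 < r) (hrd : r ≤ d / 4) (hU : Metric.ediam U ≤ ENNReal.ofReal r) {ω : Ω} {w : ℂ}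
    (hw : w ∈ S ω) (hwB : w ∈ B) (hwU : w ∈ U) : ω ∈ HF E B U r := by
  have h : (U ∩ B).Nonempty := ⟨w, hwU, hwB⟩
  unfold HF
  rw [dif_pos h]
  refine hS _ _ w ω (by linarith) hw ?_
  have h1 : edist w h.some ≤ ENNReal.ofReal r :=
    (Metric.edist_le_ediam_of_mem hwU h.some_mem.1).trans hU
  rw [edist_dist] at h1
  have h2 := (ENNReal.ofReal_le_ofReal_iff hr.le).1 h1
  linarith

theorem HF_le {E : ℂ → ℝ → Set Ω} {D : Set ℂ} {d C s : ℝ} {μ : Measure Ω}
    (hd : 0 < d)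
    (hp : ∀ (z : ℂ) (r : ℝ), 0 < r → r ≤ d → Metric.ball z d ⊆ D →
      μ (E z r) ≤ ENNReal.ofReal (C * (r / d) ^ s)) {B U : Set ℂ}
    (hB : B ⊆ H934F.t10_A D d) {r : ℝ} (hr : 0 < r) (hrd : r ≤ d / 4) :
    μ (HF E B U r) ≤ ENNReal.ofReal (C * (2 / d) ^ s * r ^ s) := by
  have e : C * (2 / d) ^ s * r ^ s = C * (2 * r / d) ^ s := by
    rw [mul_assoc, ← Real.mul_rpow (by positivity) hr.le]
    congr 2
    ring
  unfold HF
  split_ifs with h
  · rw [e]
    exact hp _ _ (by linarith) (by linarith) (hB h.some_mem.2)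
  · rw [measure_empty]
    exact zero_le

/-- **empty intersections** -/
theorem fixed_empty {E : ℂ → ℝ → Set Ω}
    {S : Ω → Set ℂ} {A D : Set ℂ} {d C s : ℝ} {μ : Measure Ω} (hC : 0 ≤ C) (hd : 0 < d)
    (hs : 0 < s) (hS : ∀ z r w ω, r ≤ d / 2 → w ∈ S ω → dist w z < r → ω ∈ E z r)
    (hp : ∀ (z : ℂ) (r : ℝ), 0 < r → r ≤ d → Metric.ball z d ⊆ D →
      μ (E z r) ≤ ENNReal.ofReal (C * (r / d) ^ s)) (hA : μH[s] A = 0) :
    ∀ᵐ ω ∂μ, S ω ∩ A ∩ H934F.t10_A D d = ∅ := by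
  have key : ∀ ε : ℝ, 0 < ε → ε ≤ d / 4 →
      μ {ω | (S ω ∩ A ∩ H934F.t10_A D d).Nonempty} ≤
        ENNReal.ofReal (C * (2 / d) ^ s) * ENNReal.ofReal ε := by
    intro ε hε hεd
    obtain ⟨U, r, h1, h2, h3, h4, h5⟩ := exists_cover hs hA hε
    have hsub : {ω | (S ω ∩ A ∩ H934F.t10_A D d).Nonempty} ⊆
        ⋃ i, HF E (H934F.t10_A D d) (U i) (r i) := by
      rintro ω ⟨w, ⟨hw1, hw2⟩, hw3⟩
      obtain ⟨i, hi⟩ := Set.mem_iUnion.1 (h1 hw2)
      exact Set.mem_iUnion.2 ⟨i, HF_of hS (h2 i) ((h3 i).trans hεd) (h4 i) hw1 hw3 hi⟩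
    refine (measure_mono hsub).trans ((measure_iUnion_le _).trans ?_)
    refine (ENNReal.tsum_le_tsum (g := fun i => ENNReal.ofReal (C * (2 / d) ^ s) *
      ENNReal.ofReal (r i ^ s)) fun i => ?_).trans ?_
    · rw [← ENNReal.ofReal_mul (by positivity)]
      exact HF_le hd hp subset_rfl (h2 i) ((h3 i).trans hεd)
    · rw [ENNReal.tsum_mul_left]
      gcongr
  have h0 : μ {ω | (S ω ∩ A ∩ H934F.t10_A D d).Nonempty} = 0 := by
    rw [← nonpos_iff_eq_zero]
    have hlim : Tendsto (fun n : ℕ => ENNReal.ofReal (C * (2 / d) ^ s) *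
        ENNReal.ofReal (d / 4 * (1 / ((n:ℝ) + 1)))) atTop
        (𝓝 (ENNReal.ofReal (C * (2 / d) ^ s) * ENNReal.ofReal (d / 4 * 0))) :=
      ENNReal.Tendsto.const_mul (ENNReal.tendsto_ofReal (tendsto_const_nhds.mul tendsto_one_div_add_atTop_nhds_zero_nat)) (Or.inr ENNReal.ofReal_ne_top)
    rw [mul_zero, ENNReal.ofReal_zero, mul_zero] at hlim
    refine ge_of_tendsto' hlim fun n => key _ (by positivity) ?_
    have h6 : 1 / ((n:ℝ) + 1) ≤ 1 := by
      rw [div_le_one (by positivity)]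
      have : (0:ℝ) ≤ n := Nat.cast_nonneg _
      linarith
    nlinarith
  rw [ae_iff]
  convert h0 using 2
  ext ω
  simp only [Set.mem_ofPred_eq]
  exact Set.nonempty_iff_ne_empty.symm

/-- **dimension of the intersections** -/
theorem fixed_meas {E : ℂ → ℝ → Set Ω} (hE : ∀ z r, MeasurableSet (E z r))
    {S : Ω → Set ℂ} {A D : Set ℂ} {d C s t : ℝ} {μ : Measure Ω} (hC : 0 ≤ C) (hd : 0 < d)
    (hs : 0 < s) (ht : 0 < t)
    (hS : ∀ z r w ω, r ≤ d / 2 → w ∈ S ω → dist w z < r → ω ∈ E z r)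
    (hp : ∀ (z : ℂ) (r : ℝ), 0 < r → r ≤ d → Metric.ball z d ⊆ D →
      μ (E z r) ≤ ENNReal.ofReal (C * (r / d) ^ s)) (hA : μH[s + t] A = 0) :
    ∀ᵐ ω ∂μ, μH[t] (S ω ∩ A ∩ H934F.t10_A D d) = 0 := by
  have hε0 : ∀ n : ℕ, 0 < d / 4 * (1 / ((n:ℝ) + 1)) := fun n => by positivity
  have hεd : ∀ n : ℕ, d / 4 * (1 / ((n:ℝ) + 1)) ≤ d / 4 := by
    intro n
    have h6 : 1 / ((n:ℝ) + 1) ≤ 1 := by
      rw [div_le_one (by positivity)]
      have : (0:ℝ) ≤ n := Nat.cast_nonneg _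
      linarith
    nlinarith
  have hεl : Tendsto (fun n : ℕ => d / 4 * (1 / ((n:ℝ) + 1))) atTop (𝓝 0) := by
    have h := (tendsto_const_nhds (x := d / 4)).mul tendsto_one_div_add_atTop_nhds_zero_nat
    rwa [mul_zero] at h
  choose U r h1 h2 h3 h4 h5 using fun n : ℕ => exists_cover (show 0 < s + t by linarith) hA
    (hε0 n)
  set H : ℕ → ℕ → Set Ω := fun n i => HF E (H934F.t10_A D d) (U n i) (r n i) with hH
  have hHm : ∀ n i, MeasurableSet (H n i) := fun n i => HF_meas hE _ _ _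
  set Z : ℕ → Ω → ℝ≥0∞ := fun n ω =>
    ∑' i, (H n i).indicator (fun _ => ENNReal.ofReal (r n i ^ t)) ω with hZ
  have hZm : ∀ n, Measurable (Z n) := fun n =>
    Measurable.tsum fun i => measurable_const.indicator (hHm n i)
  have hZi : ∀ n, ∫⁻ ω, Z n ω ∂μ ≤ ENNReal.ofReal (C * (2 / d) ^ s) *
      ENNReal.ofReal (d / 4 * (1 / ((n:ℝ) + 1))) := by
    intro n
    rw [hZ]
    simp only
    rw [lintegral_tsum fun i => (measurable_const.indicator (hHm n i)).aemeasurable]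
    have h6 : ∀ i, ∫⁻ ω, (H n i).indicator (fun _ => ENNReal.ofReal (r n i ^ t)) ω ∂μ ≤
        ENNReal.ofReal (C * (2 / d) ^ s) * ENNReal.ofReal (r n i ^ (s + t)) := by
      intro i
      rw [lintegral_indicator (hHm n i), setLIntegral_const]
      calc ENNReal.ofReal (r n i ^ t) * μ (H n i)
          ≤ ENNReal.ofReal (r n i ^ t) * ENNReal.ofReal (C * (2 / d) ^ s * r n i ^ s) := by
            gcongr
            exact HF_le hd hp subset_rfl (h2 n i) ((h3 n i).trans (hεd n))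
        _ = ENNReal.ofReal (C * (2 / d) ^ s) * ENNReal.ofReal (r n i ^ (s + t)) := by
            rw [← ENNReal.ofReal_mul (Real.rpow_nonneg (h2 n i).le _),
              ← ENNReal.ofReal_mul (by positivity), Real.rpow_add (h2 n i)]
            congr 1
            ring
    refine (ENNReal.tsum_le_tsum h6).trans ?_
    rw [ENNReal.tsum_mul_left]
    gcongr
    exact h5 n
  have hlim : Tendsto (fun n : ℕ => ENNReal.ofReal (C * (2 / d) ^ s) *
      ENNReal.ofReal (d / 4 * (1 / ((n:ℝ) + 1)))) atTop (𝓝 0) := by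
    have h := ENNReal.Tendsto.const_mul (a := ENNReal.ofReal (C * (2 / d) ^ s))
      (ENNReal.tendsto_ofReal hεl) (Or.inr ENNReal.ofReal_ne_top)
    rwa [ENNReal.ofReal_zero, mul_zero] at h
  have h0 : ∫⁻ ω, liminf (fun n => Z n ω) atTop ∂μ = 0 := by
    rw [← nonpos_iff_eq_zero]
    refine (lintegral_liminf_le hZm).trans ?_
    refine (liminf_le_liminf (Eventually.of_forall hZi)).trans ?_
    rw [hlim.liminf_eq]
  rw [lintegral_eq_zero_iff (Measurable.liminf hZm)] at h0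
  filter_upwards [h0] with ω hω
  have hω' : liminf (fun n => Z n ω) atTop = 0 := hω
  classical
  rw [← nonpos_iff_eq_zero, ← hω']
  have hr : Tendsto (fun n : ℕ => ENNReal.ofReal (d / 4 * (1 / ((n:ℝ) + 1)))) atTop (𝓝 0) := by
    have h := ENNReal.tendsto_ofReal hεl
    rwa [ENNReal.ofReal_zero] at h
  have h7 := Measure.hausdorffMeasure_le_liminf_tsum (l := atTop) t
    (S ω ∩ A ∩ H934F.t10_A D d) _ hr
    (fun n i => if ω ∈ H n i then U n i else ∅) (Eventually.of_forall fun n i => by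
      by_cases h : ω ∈ H n i
      · rw [if_pos h]
        exact (h4 n i).trans (ENNReal.ofReal_le_ofReal (h3 n i))
      · rw [if_neg h]; simp) (Eventually.of_forall fun n => by
      rintro w ⟨⟨hw1, hw2⟩, hw3⟩
      obtain ⟨i, hi⟩ := Set.mem_iUnion.1 (h1 n hw2)
      refine Set.mem_iUnion.2 ⟨i, ?_⟩
      rw [if_pos (HF_of hS (h2 n i) ((h3 n i).trans (hεd n)) (h4 n i) hw1 hw3 hi)]
      exact hi)
  refine h7.trans (liminf_le_liminf (Eventually.of_forall fun n => ?_))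
  rw [hZ]
  refine ENNReal.tsum_le_tsum fun i => ?_
  by_cases h : ω ∈ H n i
  · rw [if_pos h, Set.indicator_of_mem h, ← ENNReal.ofReal_rpow_of_nonneg (h2 n i).le ht.le]
    exact ENNReal.rpow_le_rpow (h4 n i) ht.le
  · rw [if_neg h, Set.indicator_of_notMem h, Metric.ediam_empty, ENNReal.zero_rpow_of_pos ht]

/-- The intersections of the sets `S η ω` with a fixed set: the Hausdorff measure of dimension `t`
is zero if the fixed set has measure zero in dimension `s + t`. -/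
theorem fixed_all {E : ℝ → ℂ → ℝ → Set Ω} (hE : ∀ d z r, MeasurableSet (E d z r))
    {S : ℝ → Ω → Set ℂ}
    (hS : ∀ η d z r w ω, d ≤ η → r ≤ d / 2 → w ∈ S η ω → dist w z < r → ω ∈ E d z r)
    {D : Set ℂ} (hDo : IsOpen D) {C s : ℝ} (hC : 0 ≤ C) (hs : 0 < s) {μ : Measure Ω}
    (hp : ∀ (z : ℂ) (r d : ℝ), 0 < r → r ≤ d → Metric.ball z d ⊆ D →
      μ (E d z r) ≤ ENNReal.ofReal (C * (r / d) ^ s)) (A : Set ℂ) :
    (μH[s] A = 0 → ∀ᵐ ω ∂μ, ∀ i : ℕ, S (1 / ((i:ℝ) + 1)) ω ∩ A ∩ D = ∅) ∧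
    ∀ t : ℝ, 0 < t → μH[s + t] A = 0 → ∀ᵐ ω ∂μ, ∀ i : ℕ,
      μH[t] (S (1 / ((i:ℝ) + 1)) ω ∩ A ∩ D) = 0 := by
  set dn : ℕ → ℕ → ℝ := fun i n => min (1 / ((i:ℝ) + 1)) (1 / ((n : ℝ) + 1)) with hdn
  have hdn0 : ∀ i n, 0 < dn i n := fun i n => lt_min (by positivity) (by positivity)
  have hsub : ∀ (i : ℕ) (ω : Ω), S (1 / ((i:ℝ) + 1)) ω ∩ A ∩ D ⊆
      ⋃ n : ℕ, S (1 / ((i:ℝ) + 1)) ω ∩ A ∩ H934F.t10_A D (dn i n) := by
    rintro i ω z ⟨hzK, hzD⟩
    obtain ⟨ε, hε, hb⟩ := Metric.isOpen_iff.mp hDo z hzD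
    obtain ⟨n, hn⟩ := exists_nat_one_div_lt hε
    exact Set.mem_iUnion.mpr ⟨n, hzK,
      (Metric.ball_subset_ball ((min_le_right _ _).trans hn.le)).trans hb⟩
  constructor
  · intro hA
    have h1 : ∀ᵐ ω ∂μ, ∀ i n : ℕ, S (1 / ((i:ℝ) + 1)) ω ∩ A ∩ H934F.t10_A D (dn i n) = ∅ := by
      rw [ae_all_iff]
      intro i
      rw [ae_all_iff]
      intro n
      exact fixed_empty hC (hdn0 i n) hs
        (fun z r w ω h1 h2 h3 => hS _ _ z r w ω (min_le_left _ _) h1 h2 h3)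
        (fun z r hr hrd hb => hp z r (dn i n) hr hrd hb) hA
    filter_upwards [h1] with ω hω i
    rw [← Set.subset_empty_iff]
    refine (hsub i ω).trans (Set.iUnion_subset fun n => ?_)
    rw [hω i n]
  · intro t ht hA
    have h1 : ∀ᵐ ω ∂μ, ∀ i n : ℕ,
        μH[t] (S (1 / ((i:ℝ) + 1)) ω ∩ A ∩ H934F.t10_A D (dn i n)) = 0 := by
      rw [ae_all_iff]
      intro i
      rw [ae_all_iff]
      intro n
      exact fixed_meas (hE (dn i n)) hC (hdn0 i n) hs ht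
        (fun z r w ω h1 h2 h3 => hS _ _ z r w ω (min_le_left _ _) h1 h2 h3)
        (fun z r hr hrd hb => hp z r (dn i n) hr hrd hb) hA
    filter_upwards [h1] with ω hω i
    exact measure_mono_null (hsub i ω) (measure_iUnion_null fun n => hω i n)

/-- Dimension of the intersection of the union of the sets `S η ω` with a fixed set. -/
theorem fixed_dim {E : ℝ → ℂ → ℝ → Set Ω} (hE : ∀ d z r, MeasurableSet (E d z r))
    {S : ℝ → Ω → Set ℂ}
    (hS : ∀ η d z r w ω, d ≤ η → r ≤ d / 2 → w ∈ S η ω → dist w z < r → ω ∈ E d z r)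
    {D : Set ℂ} (hDo : IsOpen D) {C s : ℝ} (hC : 0 ≤ C) (hs : 0 < s) {μ : Measure Ω}
    (hp : ∀ (z : ℂ) (r d : ℝ), 0 < r → r ≤ d → Metric.ball z d ⊆ D →
      μ (E d z r) ≤ ENNReal.ofReal (C * (r / d) ^ s)) (A : Set ℂ) :
    ∀ᵐ ω ∂μ, dimH ((⋃ i : ℕ, S (1 / ((i:ℝ) + 1)) ω) ∩ A ∩ D) ≤ dimH A - ENNReal.ofReal s ∧
      (μH[s] A = 0 → (⋃ i : ℕ, S (1 / ((i:ℝ) + 1)) ω) ∩ A ∩ D = ∅) := by
  obtain ⟨h1, h2⟩ := fixed_all hE hS hDo hC hs hp A
  have hcov : ∀ ω : Ω, (⋃ i : ℕ, S (1 / ((i:ℝ) + 1)) ω) ∩ A ∩ D =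
      ⋃ i : ℕ, S (1 / ((i:ℝ) + 1)) ω ∩ A ∩ D := by
    intro ω
    rw [Set.iUnion_inter, Set.iUnion_inter]
  have hemp : ∀ᵐ ω ∂μ, μH[s] A = 0 → (⋃ i : ℕ, S (1 / ((i:ℝ) + 1)) ω) ∩ A ∩ D = ∅ := by
    by_cases hA : μH[s] A = 0
    · filter_upwards [h1 hA] with ω hω _
      rw [hcov, Set.iUnion_eq_empty]
      exact hω
    · exact Eventually.of_forall fun ω h => absurd h hA
  have hq : ∀ᵐ ω ∂μ, ∀ q : ℚ, 0 < (q:ℝ) → μH[s + q] A = 0 → ∀ i : ℕ,
      μH[(q:ℝ)] (S (1 / ((i:ℝ) + 1)) ω ∩ A ∩ D) = 0 := by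
    rw [ae_all_iff]
    intro q
    by_cases h0 : 0 < (q:ℝ)
    swap
    · exact Eventually.of_forall fun ω h => absurd h h0
    by_cases hA : μH[s + q] A = 0
    swap
    · exact Eventually.of_forall fun ω _ h => absurd h hA
    filter_upwards [h2 q h0 hA] with ω hω _ _
    exact hω
  filter_upwards [hemp, hq] with ω he hω
  refine ⟨?_, he⟩
  by_cases hA : μH[s] A = 0
  · rw [he hA, dimH_empty]
    exact zero_le
  refine le_of_forall_gt fun c hc => ?_
  obtain ⟨q, hq0, hq1, hq2⟩ := ENNReal.lt_iff_exists_rat_btwn.1 hc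
  have hq0' : (0:ℝ) ≤ (q:ℝ) := by exact_mod_cast hq0
  have hqpos : 0 < (q:ℝ) := by
    rcases hq0'.lt_or_eq with h | h
    · exact h
    · rw [← h, Real.toNNReal_zero] at hq1
      exact absurd hq1 (by simp)
  have hdim : dimH A < ENNReal.ofReal (s + q) := by
    rw [ENNReal.ofReal_add hs.le hqpos.le, add_comm]
    refine lt_of_le_of_lt (le_tsub_add (b := dimH A) (a := ENNReal.ofReal s)) ?_
    exact ENNReal.add_lt_add_right ENNReal.ofReal_ne_top hq1
  have hAq : μH[s + q] A = 0 := by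
    have h := hausdorffMeasure_of_dimH_lt (s := A) (d := (s + q).toNNReal) hdim
    rwa [Real.coe_toNNReal _ (by linarith)] at h
  refine lt_of_le_of_lt ?_ hq2
  rw [hcov, dimH_iUnion]
  refine iSup_le fun i => ?_
  apply dimH_le_of_hausdorffMeasure_ne_top
  rw [Real.coe_toNNReal _ hqpos.le, hω q hqpos hAq i]
  exact ENNReal.zero_ne_top

end fixed

end Pool.Agent.TH990.FU
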