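import Pool.Agent.TH990.FU.Cov

/-!
General covering argument with open events.
-/

set_option autoImplicit false

namespace Pool.Agent.TH990.FU

open H974 H12S Finset H389NS H984P H984N
open MeasureTheory Filter Topology Pool.Agent.W424.OD Pool.Agent.W462.DPL
open scoped ENNReal NNReal

section cover
variable {Ω : Type*} [TopologicalSpace Ω] [MeasurableSpace Ω] [OpensMeasurableSpace Ω]
  [HasOuterApproxClosed Ω]

open Classical in
/-- the event which belongs to a covering set -/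
noncomputable def HG (E : ℂ → ℝ → Set Ω) (D : Set ℂ) (d N : ℝ) (a b : ℤ) : Set Ω :=
  if h : (H934F.t10_sq N a b ∩ H934F.t10_A D d).Nonempty then E h.some (2 / N) else ∅

omit [MeasurableSpace Ω] [OpensMeasurableSpace Ω] [HasOuterApproxClosed Ω] in
theorem HG_open {E : ℂ → ℝ → Set Ω} (hO : ∀ z r, IsOpen (E z r))
    (D : Set ℂ) (d N : ℝ) (a b : ℤ) : IsOpen (HG E D d N a b) := by
  unfold HG
  split_ifs
  · exact hO _ _
  · exact isOpen_empty

omit [TopologicalSpace Ω] [MeasurableSpace Ω] [OpensMeasurableSpace Ω] [HasOuterApproxClosed Ω] in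
theorem HG_of {E : ℂ → ℝ → Set Ω} {S : Ω → Set ℂ} {D : Set ℂ} {d N : ℝ}
    (hS : ∀ z r w ω, r ≤ d / 2 → w ∈ S ω → dist w z < r → ω ∈ E z r)
    (hN : 2 / N ≤ d / 2) {a b : ℤ} {p : Ω} {A : Set ℂ}
    (h : ((S p ∩ A) ∩ H934F.t10_U D d N a b).Nonempty) : p ∈ HG E D d N a b := by
  obtain ⟨w, ⟨hw1, _⟩, hw2⟩ := h
  unfold H934F.t10_U at hw2
  unfold HG
  split_ifs at hw2 ⊢ with h
  · rw [Metric.mem_ball] at hw2
    exact hS _ _ w p hN hw1 hw2
  · exact absurd hw2 (Set.notMem_empty _)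

/-- one scale -/
theorem one_scaleG {E : ℂ → ℝ → Set Ω} (hO : ∀ z r, IsOpen (E z r)) {S : Ω → Set ℂ}
    {D : Set ℂ} {M : ℕ} (hM : ∀ z ∈ D, |z.re| < M ∧ |z.im| < M) {C d : ℝ}
    (hC : 0 < C) (hd : 0 < d)
    (hS : ∀ z r w ω, r ≤ d / 2 → w ∈ S ω → dist w z < r → ω ∈ E z r) {μ : ProbabilityMeasure Ω}
    (hp : ∀ (z : ℂ) (r : ℝ), 0 < r → r ≤ d → Metric.ball z d ⊆ D →
      (μ : Measure Ω) (E z r) ≤ ENNReal.ofReal (C * (r / d) ^ (2 / 3 : ℝ)))
    {t : ℝ} (ht : 4 / 3 < t) :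
    ∀ᵐ p ∂(μ : Measure Ω), dimH (S p ∩ H934F.t10_A D d) ≤ ENNReal.ofReal t := by
  obtain ⟨m1, hm1⟩ := exists_nat_gt (4 / d)
  set m0 : ℕ := m1 + 1 with hm0
  have hN : ∀ m : ℕ, (0 : ℝ) < ((m + m0 : ℕ) : ℝ) := by
    intro m
    have : 0 < m + m0 := by omega
    exact_mod_cast this
  have hNd : ∀ m : ℕ, 2 / ((m + m0 : ℕ) : ℝ) ≤ d / 2 := by
    intro m
    rw [div_le_iff₀ (hN m)]
    rw [div_lt_iff₀ hd] at hm1
    have : (m1 : ℝ) ≤ ((m + m0 : ℕ) : ℝ) := by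
      have : m1 ≤ m + m0 := by omega
      exact_mod_cast this
    nlinarith
  have hsub : H934F.t10_A D d ⊆ D := fun z hz => hz (Metric.mem_ball_self hd)
  refine upperG (μs := fun _ => μ) (by linarith) tendsto_const_nhds
    (fun p => S p ∩ H934F.t10_A D d)
    (ι := fun m => Fin (2 * M * (m + m0)) × Fin (2 * M * (m + m0)))
    (fun m i => H934F.t10_U D d ((m + m0 : ℕ) : ℝ) ((i.1 : ℕ) - (M * (m + m0) : ℕ) : ℤ)
      ((i.2 : ℕ) - (M * (m + m0) : ℕ) : ℤ))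
    (fun m i => HG E D d ((m + m0 : ℕ) : ℝ) ((i.1 : ℕ) - (M * (m + m0) : ℕ) : ℤ)
      ((i.2 : ℕ) - (M * (m + m0) : ℕ) : ℤ))
    (fun m i => HG_open hO _ _ _ _ _) (fun m i p h => HG_of hS (hNd m) h)
    (fun m => ENNReal.ofReal (4 / ((m + m0 : ℕ) : ℝ))) ?_
    (fun m i => H934F.t10_U_ediam _ _ _ _ _)
    ?_ (fun m _ => ENNReal.ofReal (C * ((2 / ((m + m0 : ℕ) : ℝ)) / d) ^ (2 / 3 : ℝ))) ?_ ?_
  · -- the radii tend to zero
    have h1 : Tendsto (fun m : ℕ => ((m + m0 : ℕ) : ℝ)) atTop atTop :=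
      tendsto_natCast_atTop_atTop.comp (tendsto_add_atTop_nat m0)
    have h2 : Tendsto (fun m : ℕ => 4 / ((m + m0 : ℕ) : ℝ)) atTop (𝓝 0) :=
      h1.const_div_atTop 4
    have h3 := ENNReal.tendsto_ofReal h2
    rwa [ENNReal.ofReal_zero] at h3
  · -- covering
    rintro m p z ⟨_, hz⟩
    obtain ⟨h1, h2⟩ := hM z (hsub hz)
    have hb : ∀ y : ℝ, |y| < M → -((M * (m + m0) : ℕ) : ℤ) ≤ ⌊((m + m0 : ℕ) : ℝ) * y⌋ ∧
        ⌊((m + m0 : ℕ) : ℝ) * y⌋ < ((M * (m + m0) : ℕ) : ℤ) := by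
      intro y hy
      rw [abs_lt] at hy
      have hn := hN m
      constructor
      · rw [Int.le_floor]
        push_cast at hn ⊢
        nlinarith
      · rw [Int.floor_lt]
        push_cast at hn ⊢
        nlinarith
    obtain ⟨h3, h4⟩ := hb _ h1
    obtain ⟨h5, h6⟩ := hb _ h2
    refine Set.mem_iUnion.mpr ⟨(⟨(⌊((m + m0 : ℕ) : ℝ) * z.re⌋ + (M * (m + m0) : ℕ)).toNat, ?_⟩,
      ⟨(⌊((m + m0 : ℕ) : ℝ) * z.im⌋ + (M * (m + m0) : ℕ)).toNat, ?_⟩), ?_⟩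
    · rw [Int.toNat_lt (by omega)]
      have : ((2 * M * (m + m0) : ℕ) : ℤ) = 2 * ((M * (m + m0) : ℕ) : ℤ) := by
        push_cast; ring
      omega
    · rw [Int.toNat_lt (by omega)]
      have : ((2 * M * (m + m0) : ℕ) : ℤ) = 2 * ((M * (m + m0) : ℕ) : ℤ) := by
        push_cast; ring
      omega
    · have hcov := H934F.t10_U_cover (N := ((m + m0 : ℕ) : ℝ)) (hN m) hz
      simp only
      rw [Int.toNat_of_nonneg (by omega), Int.toNat_of_nonneg (by omega)]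
      rw [add_sub_cancel_right, add_sub_cancel_right]
      exact hcov
  · -- probabilities
    intro m i
    unfold HG
    split_ifs with h
    · exact (Eventually.of_forall fun _ => hp h.some (2 / ((m + m0 : ℕ) : ℝ))
        (div_pos two_pos (hN m)) ((hNd m).trans (by linarith)) h.some_mem.2).frequently
    · refine (Eventually.of_forall fun n => ?_).frequently
      rw [measure_empty]
      exact zero_le
  · -- the sums tend to zero
    have hl := ENNReal.tendsto_ofReal (lim0' M C d t hd ht m0 (by omega))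
    rw [ENNReal.ofReal_zero] at hl
    refine tendsto_of_tendsto_of_tendsto_of_le_of_le tendsto_const_nhds hl
      (fun m => zero_le) (fun m => ?_)
    have hn := hN m
    have ht0 : 0 ≤ t := by linarith
    have h4 : 0 ≤ (4 : ℝ) / ((m + m0 : ℕ) : ℝ) := by positivity
    calc ∑ i : Fin (2 * M * (m + m0)) × Fin (2 * M * (m + m0)),
          Metric.ediam (H934F.t10_U D d ((m + m0 : ℕ) : ℝ) ((i.1 : ℕ) - (M * (m + m0) : ℕ) : ℤ)
            ((i.2 : ℕ) - (M * (m + m0) : ℕ) : ℤ)) ^ t *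
            ENNReal.ofReal (C * ((2 / ((m + m0 : ℕ) : ℝ)) / d) ^ (2 / 3 : ℝ))
        ≤ ∑ _i : Fin (2 * M * (m + m0)) × Fin (2 * M * (m + m0)),
          ENNReal.ofReal ((4 / ((m + m0 : ℕ) : ℝ)) ^ t *
            (C * ((2 / ((m + m0 : ℕ) : ℝ)) / d) ^ (2 / 3 : ℝ))) := by
          refine Finset.sum_le_sum fun i _ => ?_
          have e5 : ENNReal.ofReal ((4 / ((m + m0 : ℕ) : ℝ)) ^ t *
              (C * ((2 / ((m + m0 : ℕ) : ℝ)) / d) ^ (2 / 3 : ℝ))) =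
              ENNReal.ofReal (4 / ((m + m0 : ℕ) : ℝ)) ^ t *
                ENNReal.ofReal (C * ((2 / ((m + m0 : ℕ) : ℝ)) / d) ^ (2 / 3 : ℝ)) := by
            rw [ENNReal.ofReal_mul (by positivity), ENNReal.ofReal_rpow_of_nonneg h4 ht0]
          rw [e5]
          gcongr
          exact H934F.t10_U_ediam _ _ _ _ _
      _ ≤ ENNReal.ofReal ((2 * M * ((m + m0 : ℕ) : ℝ)) ^ 2 * ((4 / ((m + m0 : ℕ) : ℝ)) ^ t *
            (C * ((2 / ((m + m0 : ℕ) : ℝ)) / d) ^ (2 / 3 : ℝ)))) := by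
          have e : (2 * (M : ℝ) * ((m + m0 : ℕ) : ℝ)) ^ 2 =
              ((2 * M * (m + m0) * (2 * M * (m + m0)) : ℕ) : ℝ) := by
            push_cast
            ring
          rw [Finset.sum_const, Finset.card_univ, Fintype.card_prod, Fintype.card_fin,
            nsmul_eq_mul, e, ENNReal.ofReal_mul (Nat.cast_nonneg _), ENNReal.ofReal_natCast]

/-- The sets `S η p` have dimension at most `4/3`. -/
theorem dim_gen {E : ℝ → ℂ → ℝ → Set Ω} (hO : ∀ d z r, IsOpen (E d z r)) {S : ℝ → Ω → Set ℂ}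
    (hS : ∀ η d z r w ω, d ≤ η → r ≤ d / 2 → w ∈ S η ω → dist w z < r → ω ∈ E d z r)
    {D : Set ℂ} (hDo : IsOpen D) {M : ℕ} (hM : ∀ z ∈ D, |z.re| < M ∧ |z.im| < M) {C : ℝ}
    (hC : 0 < C) {μ : ProbabilityMeasure Ω}
    (hp : ∀ (z : ℂ) (r d : ℝ), 0 < r → r ≤ d → Metric.ball z d ⊆ D →
      (μ : Measure Ω) (E d z r) ≤ ENNReal.ofReal (C * (r / d) ^ (2 / 3 : ℝ))) :
    ∀ᵐ p ∂(μ : Measure Ω), ∀ i : ℕ, dimH (S (1 / ((i:ℝ) + 1)) p ∩ D) ≤ 4/3 := by
  set dn : ℕ → ℕ → ℝ := fun i n => min (1 / ((i:ℝ) + 1)) (1 / ((n : ℝ) + 1)) with hdn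
  have hdn0 : ∀ i n, 0 < dn i n := fun i n => lt_min (by positivity) (by positivity)
  have h1 : ∀ᵐ p ∂(μ : Measure Ω), ∀ i n j : ℕ,
      dimH (S (1 / ((i:ℝ) + 1)) p ∩ H934F.t10_A D (dn i n)) ≤
        ENNReal.ofReal (4 / 3 + 1 / ((j : ℝ) + 1)) := by
    rw [ae_all_iff]
    intro i
    rw [ae_all_iff]
    intro n
    rw [ae_all_iff]
    intro j
    have hj : 0 < 1 / ((j : ℝ) + 1) := by positivity
    exact one_scaleG (hO (dn i n)) hM hC (hdn0 i n)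
      (fun z r w ω h1 h2 h3 => hS _ _ z r w ω (min_le_left _ _) h1 h2 h3)
      (fun z r hr hrd hb => hp z r (dn i n) hr hrd hb) (by linarith)
  filter_upwards [h1] with p hp i
  have hsub : S (1 / ((i:ℝ) + 1)) p ∩ D ⊆
      ⋃ n : ℕ, S (1 / ((i:ℝ) + 1)) p ∩ H934F.t10_A D (dn i n) := by
    rintro z ⟨hzK, hzD⟩
    obtain ⟨ε, hε, hb⟩ := Metric.isOpen_iff.mp hDo z hzD
    obtain ⟨n, hn⟩ := exists_nat_one_div_lt hε
    exact Set.mem_iUnion.mpr ⟨n, hzK,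
      (Metric.ball_subset_ball ((min_le_right _ _).trans hn.le)).trans hb⟩
  refine (dimH_mono hsub).trans ?_
  rw [dimH_iUnion]
  refine iSup_le fun n => ?_
  have hlim : Tendsto (fun j : ℕ => ENNReal.ofReal (4 / 3 + 1 / ((j : ℝ) + 1))) atTop
      (𝓝 (ENNReal.ofReal (4 / 3 + 0))) :=
    ENNReal.tendsto_ofReal (tendsto_const_nhds.add tendsto_one_div_add_atTop_nhds_zero_nat)
  rw [add_zero, e43'] at hlim
  exact ge_of_tendsto' hlim (fun j => hp i n j)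

end cover

end Pool.Agent.TH990.FU
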