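import Pool.Agent.TH990.FU.Top
import Pool.Agent.W424.OD.Ann
import Pool.Agent.W978.PD.UL
import Pool.Agent.W597.PDBL
import Pool.Agent.H342R3.Tig.RNG
import Pool.Agent.H342R3.Tig.ORB
import Pool.Agent.H342R3.Tig.POL
import Pool.Agent.H342R3.Lim.CPT

/-!
The event of the outer boundary implies three arms (deterministic part).
-/

set_option autoImplicit false

namespace Pool.Agent.TH990.FU

open H974 H12S Finset H389NS H984P H984N H342P H342L H342T
open MeasureTheory Filter Topology Pool.Agent.W92.DP Pool.Agent.W822.PD Pool.Agent.W462.DPL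
open Pool.Agent.W424.OD Pool.Agent.W978.PDUL

/-- lattice point near `z` -/
noncomputable def vt (n : ℕ) (z : ℂ) : Vtx := (⌊n * z.re⌋, ⌊n * z.im⌋)

theorem pt_near {n : ℕ} (hn : 0 < n) {z : ℂ} {v : Vtx} {a b : ℝ} (h1 : |n * z.re - v.1| ≤ a)
    (h2 : |n * z.im - v.2| ≤ b) : dist z (pt n v) ≤ (a + b) / n := by
  have hn' : (0:ℝ) < n := by exact_mod_cast hn
  have e1 : |z.re - (pt n v).re| ≤ a / n := by
    rw [pt_re, le_div_iff₀ hn']
    have : |z.re - (v.1 : ℝ) * (1 / n)| * n = |n * z.re - v.1| := by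
      rw [← abs_of_pos hn', ← abs_mul, abs_of_pos hn']
      congr 1
      field_simp
    rw [this]
    exact h1
  have e2 : |z.im - (pt n v).im| ≤ b / n := by
    rw [pt_im, le_div_iff₀ hn']
    have : |z.im - (v.2 : ℝ) * (1 / n)| * n = |n * z.im - v.2| := by
      rw [← abs_of_pos hn', ← abs_mul, abs_of_pos hn']
      congr 1
      field_simp
    rw [this]
    exact h2
  refine (ML.dist_le_of e1 e2).trans (le_of_eq ?_)
  ring

theorem vt_re (n : ℕ) (z : ℂ) : |n * z.re - ((vt n z).1 : ℝ)| ≤ 1 := by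
  have a1 := Int.floor_le (n * z.re)
  have a2 := Int.lt_floor_add_one (n * z.re)
  show |n * z.re - (⌊n * z.re⌋ : ℝ)| ≤ 1
  rw [abs_le]
  constructor <;> linarith

theorem vt_im (n : ℕ) (z : ℂ) : |n * z.im - ((vt n z).2 : ℝ)| ≤ 1 := by
  have a1 := Int.floor_le (n * z.im)
  have a2 := Int.lt_floor_add_one (n * z.im)
  show |n * z.im - (⌊n * z.im⌋ : ℝ)| ≤ 1
  rw [abs_le]
  constructor <;> linarith

theorem dist_vt {n : ℕ} (hn : 0 < n) (z : ℂ) : dist z (pt n (vt n z)) ≤ 2 / n := by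
  have := pt_near hn (vt_re n z) (vt_im n z)
  norm_num at this
  exact this

/-- one step -/
theorem unit_step {G : Set Edg} {u w : Vtx} (h1 : |u.1 - w.1| ≤ 1) (h2 : |u.2 - w.2| ≤ 1)
    (hG : ∀ e : Edg, ((src e = u ∧ tgt e = (w.1, u.2)) ∨ (src e = (w.1, u.2) ∧ tgt e = u) ∨
      (src e = (w.1, u.2) ∧ tgt e = w) ∨ (src e = w ∧ tgt e = (w.1, u.2))) → e ∈ G) :
    Reach G u w := by
  obtain ⟨x, y⟩ := u
  obtain ⟨x', y'⟩ := w
  simp only at h1 h2 hG
  rw [abs_le] at h1 h2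
  have s1 : Reach G (x, y) (x', y) := by
    rcases (by omega : x' = x ∨ x' = x + 1 ∨ x' = x - 1) with h | h | h
    · rw [h]; exact Reach.refl _ _
    · refine Adj.reach ⟨(x, y, true), hG _ (Or.inl ⟨rfl, ?_⟩), Or.inl ⟨rfl, ?_⟩⟩ <;> rw [h] <;> rfl
    · have e : ((x', y, true) : Edg) ∈ G := hG _ (Or.inr (Or.inl ⟨rfl, by
        rw [tgt_true, h]; simp⟩))
      refine Adj.reach ⟨(x', y, true), e, Or.inr ⟨rfl, ?_⟩⟩
      rw [tgt_true, h]; simp
  have s2 : Reach G (x', y) (x', y') := by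
    rcases (by omega : y' = y ∨ y' = y + 1 ∨ y' = y - 1) with h | h | h
    · rw [h]; exact Reach.refl _ _
    · refine Adj.reach ⟨(x', y, false), hG _ (Or.inr (Or.inr (Or.inl ⟨rfl, ?_⟩))), Or.inl ⟨rfl, ?_⟩⟩
        <;> rw [h] <;> rfl
    · have e : ((x', y', false) : Edg) ∈ G := hG _ (Or.inr (Or.inr (Or.inr ⟨rfl, by
        rw [tgt_false, h]; simp⟩)))
      refine Adj.reach ⟨(x', y', false), e, Or.inr ⟨rfl, ?_⟩⟩
      rw [tgt_false, h]; simp
  exact s1.trans s2

/-- The lattice path which follows `g`. -/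
theorem follow {n : ℕ} (hn : 0 < n) {g : C(unitInterval, ℂ)} {G : Set Edg}
    (hG : ∀ (t : unitInterval) (e : Edg), dist (g t) (pt n (src e)) ≤ 5 / n →
      dist (g t) (pt n (tgt e)) ≤ 5 / n → e ∈ G) : Reach G (vt n (g 0)) (vt n (g 1)) := by
  have hn' : (0:ℝ) < n := by exact_mod_cast hn
  have hl : IsLocallyConstant (fun t : unitInterval => {w : Vtx | Reach G (vt n (g t)) w}) := by
    rw [IsLocallyConstant.iff_exists_open]
    intro t
    refine ⟨g ⁻¹' Metric.ball (g t) (1 / n), Metric.isOpen_ball.preimage g.continuous,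
      Metric.mem_ball_self (by positivity), ?_⟩
    intro t' ht'
    have hd : dist (g t') (g t) < 1 / n := ht'
    have key : Reach G (vt n (g t)) (vt n (g t')) := by
      have r1 := (ML.le_dist_re (g t') (g t)).trans hd.le
      have r2 := (ML.le_dist_im (g t') (g t)).trans hd.le
      have r3 : |n * (g t').re - n * (g t).re| ≤ 1 := by
        rw [← mul_sub, abs_mul, abs_of_pos hn']
        have := mul_le_mul_of_nonneg_left r1 hn'.le
        rwa [mul_one_div, div_self hn'.ne'] at this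
      have r4 : |n * (g t').im - n * (g t).im| ≤ 1 := by
        rw [← mul_sub, abs_mul, abs_of_pos hn']
        have := mul_le_mul_of_nonneg_left r2 hn'.le
        rwa [mul_one_div, div_self hn'.ne'] at this
      have a1 := vt_re n (g t)
      have a2 := vt_im n (g t)
      have b1 := vt_re n (g t')
      have b2 := vt_im n (g t')
      rw [abs_le] at r3 r4
      have hfl : ∀ x y : ℝ, x - y ≤ 1 → -1 ≤ x - y → |⌊y⌋ - ⌊x⌋| ≤ 1 := by
        intro x y h1 h2
        have := Int.floor_le x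
        have := Int.lt_floor_add_one x
        have := Int.floor_le y
        have := Int.lt_floor_add_one y
        rw [abs_le]
        constructor
        · have : (-1 - 1 : ℝ) < ((⌊y⌋ - ⌊x⌋ : ℤ) : ℝ) := by push_cast; linarith
          have h3 : (-1 - 1 : ℤ) < ⌊y⌋ - ⌊x⌋ := by exact_mod_cast this
          omega
        · have : ((⌊y⌋ - ⌊x⌋ : ℤ) : ℝ) < 1 + 1 := by push_cast; linarith
          have h3 : ⌊y⌋ - ⌊x⌋ < (1 + 1 : ℤ) := by exact_mod_cast this
          omega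
      have n0 : dist (g t) (pt n (vt n (g t))) ≤ 5 / n := (dist_vt hn _).trans (by gcongr; norm_num)
      have n1 : dist (g t) (pt n (vt n (g t'))) ≤ 5 / n := by
        have h1 := dist_triangle (g t) (g t') (pt n (vt n (g t')))
        have h2 := dist_vt hn (g t')
        rw [dist_comm (g t) (g t')] at h1
        have h3 : (5:ℝ) / n = 1 / n + 2 / n + 2 / n := by ring
        have h4 : (0:ℝ) < 2 / n := by positivity
        linarith
      have n2 : dist (g t) (pt n ((vt n (g t')).1, (vt n (g t)).2)) ≤ 5 / n := by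
        have h1 : |n * (g t).re - (((vt n (g t')).1 : ℤ) : ℝ)| ≤ 2 := by
          rw [abs_le] at b1 ⊢
          constructor <;> linarith
        have h2 : |n * (g t).im - (((vt n (g t)).2 : ℤ) : ℝ)| ≤ 1 := a2
        refine (pt_near hn (v := ((vt n (g t')).1, (vt n (g t)).2)) h1 h2).trans ?_
        gcongr
        norm_num
      refine unit_step (hfl _ _ (by linarith) (by linarith)) (hfl _ _ (by linarith) (by linarith)) ?_
      intro e he
      rcases he with ⟨h1, h2⟩ | ⟨h1, h2⟩ | ⟨h1, h2⟩ | ⟨h1, h2⟩ <;> apply hG t <;>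
        simp only [h1, h2] <;> assumption
    ext w
    exact ⟨fun h => key.trans h, fun h => key.symm.trans h⟩
  have h := hl.apply_eq_of_preconnectedSpace 0 1
  have h2 : vt n (g 1) ∈ {w : Vtx | Reach G (vt n (g 1)) w} := Reach.refl _ _
  rw [← h] at h2
  exact h2

/-- **the deterministic part** -/
theorem detO {z : ℂ} {r d ζ : ℝ} {n : ℕ} (hn : 0 < n) (hδr : 1 / (n : ℝ) ≤ r)
    (hd : 256 * r ≤ d) (hζ : 8 / (n : ℝ) ≤ ζ) (hball : Metric.ball z d ⊆ Sq)
    {F : Finset Plain.Edge} (hF : F ⊆ Plain.edges n) {v : Vtx} (hv : v ∈ Plain.box n) {c : Curve}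
    (hT : IsTrace n F v c) (hE : c ∈ EvO z r (d / 2) ζ) :
    A3v (ctc (1 / n) z) (⌈r / (1 / (n : ℝ))⌉₊ + 3 + 2) (⌊d / (8 * (1 / (n : ℝ)))⌋₊ - 2) ↑F := by
  have hn' : (0:ℝ) < n := by exact_mod_cast hn
  have hδ : (0:ℝ) < 1 / n := by positivity
  have hr : 0 < r := hδ.trans_le hδr
  have hd0 : 0 < d := by linarith
  have hζ0 : 0 < ζ := lt_of_lt_of_le (by positivity) hζ
  obtain ⟨⟨s, hs⟩, ⟨s', hs'⟩, g, hg0, hg1, hg⟩ := hE
  obtain ⟨s1, _, _, _⟩ := sizes hδ hδr hd
  have hrng : Set.range c.path = outerBoundary n F v :=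
    (t_RNG t_ORB t_POL n F v c hn hF hv hT).2
  -- everything near the path is outside
  have hbn : ∀ x ∈ body n F v, ‖x‖ ≤ 2 := by
    intro x hx
    obtain ⟨⟨k1, k2⟩, k3, k4⟩ := CPT_body_square hn hF hv hx
    refine (Complex.norm_le_abs_re_add_abs_im x).trans ?_
    rw [abs_of_nonneg k1, abs_of_nonneg k3]
    linarith
  have hU : IsOpen (outside n F v) := isOpen_unb (CPT_isCompact_body n F v).isClosed
  have hg1U : g 1 ∈ outside n F v :=
    mem_unb (K := body n F v) (M := 2) (by norm_num) hbn (by linarith)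
  have hfr : ∀ t, ∀ x ∈ frontier (outside n F v), ζ < dist (g t) x := by
    intro t x hx
    have h1 : x ∈ Set.range c.path := by rw [hrng]; exact hx
    obtain ⟨u, rfl⟩ := h1
    exact hg u t
  have hfar : ∀ t, ∀ w : Vtx, dist (g t) (pt n w) ≤ 5 / n → ¬ Reach (↑F : Set Edg) v w := by
    intro t w hw hR
    have h1 : pt n w ∉ outside n F v := by
      intro h
      apply h.1
      left
      exact Set.mem_biUnion (x := w) ((Plain.mem_cluster _ _ _).2 hR) (Set.mem_singleton _)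
    have h2 := far_compl hU hζ0 hfr hg1U t h1
    have h3 : (5:ℝ) / n ≤ 8 / n := by gcongr; norm_num
    linarith
  have hreach := follow hn (g := g) (G := {e | ¬ Reach (↑F : Set Edg) v (src e) ∧
    ¬ Reach (↑F : Set Edg) v (tgt e)}) (fun t e h1 h2 => ⟨hfar t _ h1, hfar t _ h2⟩)
  -- vertices of the cluster
  obtain ⟨-, w1, hw1, m1, m2⟩ := Pool.Agent.W597.PDBL.trace_near hn hF hv hT s
  obtain ⟨-, w2, hw2, m3, m4⟩ := Pool.Agent.W597.PDBL.trace_near hn hF hv hT s'
  have d1 := pt_near hn m1 m2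
  have d2 := pt_near hn m3 m4
  have e11 : ((1:ℝ) + 1) / n = 2 / n := by norm_num
  rw [e11] at d1 d2
  have e2n : (2:ℝ) / n = 2 * (1 / n) := by ring
  -- boxes
  have hin : ∀ w : Vtx, dist (pt n w) z ≤ r + 2 / n →
      BX (ctc (1 / n) z) (⌈r / (1 / (n : ℝ))⌉₊ + 3 + 2) w := by
    intro w hw
    have h1 : dist (pt n w) z ≤ (r + 1 / n) + 1 / n := by rw [e2n] at hw; linarith
    have h2 := near_boxC hn h1
    have h3 : ⌈(r + 1 / n) / (1 / (n : ℝ))⌉₊ ≤ ⌈r / (1 / (n : ℝ))⌉₊ + 1 := by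
      have e : (r + 1 / n) / (1 / (n : ℝ)) = r / (1 / (n : ℝ)) + 1 := by
        field_simp
      rw [e, Nat.ceil_add_one (by positivity)]
    unfold BX inR
    unfold inR at h2
    push_cast at h2 ⊢
    have h4 : ((⌈(r + 1 / n) / (1 / (n : ℝ))⌉₊ : ℕ) : ℤ) ≤ (⌈r / (1 / (n : ℝ))⌉₊ : ℤ) + 1 := by
      exact_mod_cast h3
    omega
  have hbox : ∀ w : Vtx, BX (ctc (1 / n) z) (⌊d / (8 * (1 / (n : ℝ)))⌋₊ - 2) w →
      dist (pt n w) z ≤ d / 4 + 2 / n := by
    intro w hw
    have h5 := box_nearC hn hw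
    have hk : ((⌊d / (8 * (1 / (n : ℝ)))⌋₊ - 2 : ℕ) : ℝ) ≤ d / (8 * (1 / (n : ℝ))) := by
      have h6 : (⌊d / (8 * (1 / (n : ℝ)))⌋₊ : ℝ) ≤ d / (8 * (1 / (n : ℝ))) :=
        Nat.floor_le (by positivity)
      have h7 : ((⌊d / (8 * (1 / (n : ℝ)))⌋₊ - 2 : ℕ) : ℝ) ≤ (⌊d / (8 * (1 / (n : ℝ)))⌋₊ : ℝ) := by
        exact_mod_cast Nat.sub_le _ _
      linarith
    have h6 : 2 * (1 / (n : ℝ)) * ((⌊d / (8 * (1 / (n : ℝ)))⌋₊ - 2 : ℕ) : ℝ) ≤ d / 4 := by
      calc 2 * (1 / (n : ℝ)) * ((⌊d / (8 * (1 / (n : ℝ)))⌋₊ - 2 : ℕ) : ℝ) ≤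
            2 * (1 / (n : ℝ)) * (d / (8 * (1 / (n : ℝ)))) :=
            mul_le_mul_of_nonneg_left hk (by positivity)
        _ = d / 4 := by
            field_simp
            norm_num
    rw [e2n]
    linarith
  have hz := hball (Metric.mem_ball_self hd0)
  refine A3v_of (v := v) (x := w1) (x' := w2) (w := vt n (g 0)) (w' := vt n (g 1)) (by omega)
    (hin w1 ?_) hw1 ?_ hw2 (hin _ ?_) ?_ hreach
  · have := dist_triangle_left (pt n w1) z (c.path s)
    linarith
  · intro h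
    have h1 := hbox w2 h
    have h2 := dist_triangle (c.path s') (pt n w2) z
    have h3 : 4 * (1 / (n:ℝ)) ≤ 4 * r := by linarith
    rw [e2n] at h1 d2
    linarith
  · have h1 := dist_triangle_left (pt n (vt n (g 0))) z (g 0)
    have h2 := dist_vt hn (g 0)
    linarith
  · intro h
    have h1 := hbox _ h
    have h2 : pt n (vt n (g 1)) ∈ Metric.ball z d := by
      rw [Metric.mem_ball]
      rw [e2n] at h1
      linarith
    obtain ⟨k1, k2, k3, k4⟩ := hball h2
    have h3 := dist_vt hn (g 1)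
    have h4 : ‖pt n (vt n (g 1))‖ ≤ 2 := by
      refine (Complex.norm_le_abs_re_add_abs_im _).trans ?_
      rw [abs_of_pos k1, abs_of_pos k3]
      linarith
    have h5 : ‖g 1‖ ≤ dist (g 1) (pt n (vt n (g 1))) + ‖pt n (vt n (g 1))‖ := by
      rw [dist_eq_norm]
      have := norm_add_le (g 1 - pt n (vt n (g 1))) (pt n (vt n (g 1)))
      rwa [sub_add_cancel] at this
    have h6 : (2:ℝ) / n ≤ 2 := by
      rw [div_le_iff₀ hn']
      have : (1:ℝ) ≤ n := by exact_mod_cast hn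
      linarith
    linarith

end Pool.Agent.TH990.FU
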