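import Pool.Agent.TH990.FU.Geo
import Pool.Agent.TH990.DP.LimL
import Pool.Agent.W462.DPL.C

/-!
The accessible points of the limits of the exploration path have dimension at most `4/3`.
-/

set_option autoImplicit false

namespace Pool.Agent.TH990.FU

open H974 H973 H12S Finset H389NS H984P H984N H342P H443B
open MeasureTheory Filter Topology Pool.Agent.W92.DP Pool.Agent.W462.DPL
open Pool.Agent.W424.OD Pool.Agent.W571.DPad
open scoped ENNReal NNReal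

theorem zp_zv (δ : ℝ) (v : Vtx) : zp δ ⟨0, δ⟩ v = DP.zv δ v := by
  apply Complex.ext
  · show (0 : ℝ) + δ * v.1 = δ * v.1
    rw [zero_add]
  · show δ + δ * v.2 = δ * (v.2 + 1)
    ring

theorem vz_ctr {δ : ℝ} (hδ : 0 < δ) (z : ℂ) : vz δ ⟨0, δ⟩ z = ctr δ z := by
  have e : (z.im - δ) / δ = z.im / δ - 1 := by
    field_simp
  show (⌊(z.re - 0) / δ⌋, ⌊(z.im - δ) / δ⌋) = (⌊z.re / δ⌋, ⌊z.im / δ⌋ - 1)
  rw [e, sub_zero, Int.floor_sub_one]

/-- States of the full orbit over interior vertices are visited by the path. -/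
theorem vis_of_inner {D : Dm} {F : Finset Edg} (hD : D.Ok) (hF : F ⊆ D.edges) {σ : St}
    (hσ : ∃ t, D.walk F t = σ) (h1 : D.l < σ.1.1) (h2 : 0 < σ.1.2) (h3 : σ.1.2 < D.h) :
    ∃ k ≤ D.len F, D.walk F k = σ := by
  have key : ∀ n, (∃ k ≤ D.len F, D.walk F k = D.walk F n) ∨ face (D.walk F n) ∈ WF D := by
    intro n
    induction n with
    | zero => exact Or.inl ⟨0, Nat.zero_le _, rfl⟩
    | succ n ih =>
      rcases ih with ⟨k, hk, he⟩ | h
      · rcases Nat.lt_or_eq_of_le hk with hk' | hk'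
        · left
          refine ⟨k + 1, hk', ?_⟩
          rw [clu_walk_succ, clu_walk_succ, he]
        · right
          rw [clu_walk_succ, ← he, hk', walk_len hD hF]
          exact stop_step hD hF
      · rcases out_step hD hF (walk_in hD hF n) h with h' | h'
        · right
          rw [clu_walk_succ]
          exact h'
        · left
          refine ⟨0, Nat.zero_le _, ?_⟩
          rw [clu_walk_succ, h']
          rfl
  obtain ⟨t, rfl⟩ := hσ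
  rcases key t with h | h
  · exact h
  · exfalso
    generalize D.walk F t = σ at h h1 h2 h3
    obtain ⟨⟨x, y⟩, q⟩ := σ
    change D.l < x at h1
    change 0 < y at h2
    change y < D.h at h3
    unfold WF at h
    simp only [Set.mem_ofPred_eq] at h
    cases q
    · rw [face_ne] at h; simp only at h; omega
    · rw [face_nw] at h; simp only at h; omega
    · rw [face_sw] at h; simp only at h; omega
    · rw [face_se] at h; simp only at h; omega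

theorem wir_blk {D : Dm} {c : ℤ × ℤ} {k : ℕ} (b1 : D.l < c.1 - k) (b3 : 0 < c.2 - k)
    (b4 : c.2 + k < D.h) {e : Edg} (he : e ∈ H12S.blk c k) : e ∉ D.wir := by
  obtain ⟨x, y, t⟩ := e
  unfold H12S.blk at he
  unfold Dm.wir
  simp only [Set.mem_ofPred_eq]
  cases t
  · rw [mem_RE_false] at he
    simp only [Bool.false_eq_true, false_and, or_false, false_or, true_and]
    omega
  · rw [mem_RE_true] at he
    simp only [Bool.true_eq_false, false_and, false_or, true_and]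
    omega

theorem cfg_congr {D : Dm} {F : Finset Edg} {c : ℤ × ℤ} {d k : ℕ} (b1 : D.l < c.1 - k)
    (b3 : 0 < c.2 - k) (b4 : c.2 + k < D.h) : A3v c d k (D.cfg F) ↔ A3v c d k ↑F := by
  apply A3v_congr
  ext e
  simp only [Set.mem_inter_iff, Finset.mem_coe]
  constructor
  · rintro ⟨h1 | h1, h2⟩
    · exact ⟨h1, h2⟩
    · exact absurd h1 (wir_blk b1 b3 b4 h2)
  · rintro ⟨h1, h2⟩
    exact ⟨Or.inl h1, h2⟩

theorem cfg_congr_d {D : Dm} {F : Finset Edg} {c : ℤ × ℤ} {d k : ℕ}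
    (b1 : D.l < c.1 - (k + 1 : ℕ)) (b3 : 0 < c.2 - (k + 1 : ℕ)) (b4 : c.2 + (k + 1 : ℕ) < D.h) :
    A3v c d k (dl '' (D.cfg F)ᶜ) ↔ A3v c d k (dl '' (↑F : Set Edg)ᶜ) := by
  apply A3v_congr
  ext e
  simp only [Set.mem_inter_iff, Finset.mem_coe, Set.mem_image, Set.mem_compl_iff]
  constructor
  · rintro ⟨⟨g, hg, rfl⟩, h2⟩
    exact ⟨⟨g, fun h => hg (Or.inl h), rfl⟩, h2⟩
  · rintro ⟨⟨g, hg, rfl⟩, h2⟩
    refine ⟨⟨g, ?_, rfl⟩, h2⟩
    rintro (h | h)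
    · exact hg h
    · have h3 := dls_mem h2
      rw [Equiv.symm_apply_apply] at h3
      exact wir_blk b1 b3 b4 h3 h

/-- vertices near the inner part of a disc of the domain are interior -/
theorem inner_of {R : Rect} {z w : ℂ} {d δ : ℝ} (hδ : 0 < δ) (hd : 64 * δ ≤ d)
    (hball : Metric.ball z d ⊆ R.D) (hw : dist w z ≤ d / 2) {u : Vtx}
    (hu : dist w (zp δ ⟨0, δ⟩ u) ≤ 6 * δ) :
    (R.dm δ).l < u.1 ∧ 0 < u.2 ∧ u.2 < (R.dm δ).h := by
  have mem : ∀ x : ℂ, ‖x‖ ≤ 2 * δ → zp δ ⟨0, δ⟩ u + x ∈ R.D := by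
    intro x hx
    apply hball
    rw [Metric.mem_ball]
    have h1 : dist (zp δ ⟨0, δ⟩ u + x) (zp δ ⟨0, δ⟩ u) ≤ 2 * δ := by
      rw [dist_eq_norm, add_sub_cancel_left]
      exact hx
    have h2 := dist_triangle (zp δ ⟨0, δ⟩ u + x) (zp δ ⟨0, δ⟩ u) z
    have h3 := dist_triangle_left (zp δ ⟨0, δ⟩ u) z w
    linarith
  have n1 : ‖(⟨-(3/2 * δ), 0⟩ : ℂ)‖ ≤ 2 * δ := by
    refine (Complex.norm_le_abs_re_add_abs_im _).trans ?_
    show |-(3/2 * δ)| + |(0:ℝ)| ≤ 2 * δ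
    rw [abs_neg, abs_of_pos (by positivity), abs_zero]
    linarith
  have n2 : ‖(⟨0, -(3/2 * δ)⟩ : ℂ)‖ ≤ 2 * δ := by
    refine (Complex.norm_le_abs_re_add_abs_im _).trans ?_
    show |(0:ℝ)| + |-(3/2 * δ)| ≤ 2 * δ
    rw [abs_zero, abs_neg, abs_of_pos (by positivity)]
    linarith
  have n3 : ‖(⟨0, 3/2 * δ⟩ : ℂ)‖ ≤ 2 * δ := by
    refine (Complex.norm_le_abs_re_add_abs_im _).trans ?_
    show |(0:ℝ)| + |3/2 * δ| ≤ 2 * δ
    rw [abs_zero, abs_of_pos (by positivity)]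
    linarith
  have m1 : -R.A < (0 + δ * (u.1:ℝ)) + -(3/2 * δ) := (mem _ n1).1
  have m2 : 0 < (δ + δ * (u.2:ℝ)) + -(3/2 * δ) := (mem _ n2).2.2.1
  have m3 : (δ + δ * (u.2:ℝ)) + 3/2 * δ < R.H := (mem _ n3).2.2.2
  refine ⟨?_, ?_, ?_⟩
  · show ⌊-(R.A / δ)⌋ + 1 < u.1
    have h1 : -(R.A / δ) < (u.1:ℝ) - 3/2 := by
      rw [← neg_div, div_lt_iff₀ hδ]
      linarith
    have h2 : ((⌊-(R.A / δ)⌋ : ℤ) : ℝ) ≤ -(R.A / δ) := Int.floor_le _
    have h3 : ((⌊-(R.A / δ)⌋ + 1 : ℤ) : ℝ) < u.1 := by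
      push_cast
      linarith
    exact_mod_cast h3
  · have h1 : (0:ℝ) < u.2 := by
      by_contra hcon
      push Not at hcon
      nlinarith
    exact_mod_cast h1
  · show u.2 < ⌈R.H / δ⌉ - 2
    have h1 : (u.2:ℝ) + 5/2 < R.H / δ := by
      rw [lt_div_iff₀ hδ]
      linarith
    have h2 : R.H / δ ≤ ((⌈R.H / δ⌉ : ℤ) : ℝ) := Int.le_ceil _
    have h3 : (u.2 : ℝ) < ((⌈R.H / δ⌉ - 2 : ℤ) : ℝ) := by
      push_cast
      linarith
    exact_mod_cast h3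

/-- the deterministic part for the exploration path -/
theorem detE (R : Rect) {z : ℂ} {r d δ ζ : ℝ} (hδ : 0 < δ) (hδr : δ ≤ r)
    (hd : 256 * r ≤ d) (hζ : 8 * δ ≤ ζ) (hball : Metric.ball z d ⊆ R.D) (hok : (R.dm δ).Ok)
    {F : Finset Edg} (hF : F ⊆ (R.dm δ).edges) (hE : R.curve δ F ∈ Ev3 z r (d / 2) ζ) :
    A3v (ctr δ z) (⌈r / δ⌉₊ + 3 + 2) (⌊d / (8 * δ)⌋₊ - 2) ↑F ∨
      A3v (ctr δ z) (⌈r / δ⌉₊ + 3 + 2) (⌊d / (8 * δ)⌋₊ - 2) (dl '' (↑F : Set Edg)ᶜ) := by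
  obtain ⟨⟨s, hs⟩, ⟨s', hs'⟩, g, hg0, hg1, hg⟩ := hE
  have hr : 0 < r := hδ.trans_le hδr
  have hd0 : 0 < d := by linarith
  set N : ℕ := (R.dm δ).len F with hN
  have hcur : R.curve δ F = pl N (fun k => pos δ ((R.dm δ).walk F k)) := rfl
  have hNpos : 0 < N := by
    by_contra hcon
    have h0 : N = 0 := by omega
    have e : ∀ x, R.curve δ F x = pos δ ((R.dm δ).walk F 0) := by
      intro x
      rw [hcur, h0, pl_apply']
      simp
    rw [e] at hs hs'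
    linarith
  have hst : ∀ k < N, dist (pos δ ((R.dm δ).walk F k)) (pos δ ((R.dm δ).walk F (k + 1))) ≤ δ / 2 :=
    fun k _ => step hδ.le F k
  obtain ⟨i, hiN, -, hi⟩ := pl_close' hNpos hst s
  obtain ⟨j, hjN, -, hj⟩ := pl_close' hNpos hst s'
  rw [← hcur] at hi hj
  -- cut the path
  obtain ⟨g', g1, g2, g3, g4⟩ := cut g (z := z) (ρ := d / 2) (by linarith) hg1.le
  obtain ⟨s1, s2, s3, -⟩ := sizes hδ hδr hd
  obtain ⟨b1, b2, b3, b4⟩ := dom_box R hδ (by linarith) hball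
  have hz1 := DP.dist_pos_zv hδ.le ((R.dm δ).walk F i)
  have hz2 := DP.dist_pos_zv hδ.le ((R.dm δ).walk F j)
  have hmain := det_gen (o := ⟨0, δ⟩) hδ hδr hd (C := (R.dm δ).cfg F)
    (A := {τ | ∃ t, (R.dm δ).walk F t = τ}) (walk_inv hok hF) hs hs' (g := g') (by rw [g1]; exact hg0)
    g2.ge ?_ (σ := (R.dm δ).walk F i) (τ := (R.dm δ).walk F j) ⟨i, rfl⟩ ?_ ?_ ?_ ?_
  · rw [vz_ctr hδ] at hmain
    rcases hmain with h | h
    · left
      rwa [cfg_congr (by omega) (by omega) (by omega)] at h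
    · right
      rwa [cfg_congr_d (by omega) (by omega) (by omega)] at h
  · intro t u hu q hq
    have h4 := hu.dist hδ
    have h5 : dist (g' t) (zp δ ⟨0, δ⟩ u) ≤ 6 * δ := by linarith
    obtain ⟨c1, c2, c3⟩ := inner_of hδ (by linarith) hball (g3 t) h5
    obtain ⟨k, hk, he⟩ := vis_of_inner hok hF hq c1 c2 c3
    obtain ⟨x, -, hx⟩ := DP.pl_node hNpos (fun k => pos δ ((R.dm δ).walk F k)) (k := k) hk
    rw [← hcur] at hx
    simp only [he] at hx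
    have h6 := DP.dist_pos_zv hδ.le ((u, q) : St)
    rw [← zp_zv] at h6
    obtain ⟨t', ht'⟩ := g4 t
    have h7 := hg x t'
    rw [← ht', hx] at h7
    have h8 := dist_triangle_right (g' t) (pos δ (u, q)) (zp δ ⟨0, δ⟩ u)
    simp only at h6
    linarith
  · rw [zp_zv]
    have := dist_triangle (R.curve δ F s) (pos δ ((R.dm δ).walk F i))
      (DP.zv δ ((R.dm δ).walk F i).1)
    linarith
  · rw [zp_zv]
    have := dist_triangle (R.curve δ F s') (pos δ ((R.dm δ).walk F j))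
      (DP.zv δ ((R.dm δ).walk F j).1)
    linarith
  · unfold Dm.walk
    exact (pb_reach _ _ _).symm.trans (pb_reach _ _ _)
  · unfold Dm.walk
    have h1 := (reach_dl (F := ((R.dm δ).cfg F)ᶜ)).2 (pb_dreach ((R.dm δ).cfg F) (R.dm δ).start i)
    have h2 := (reach_dl (F := ((R.dm δ).cfg F)ᶜ)).2 (pb_dreach ((R.dm δ).cfg F) (R.dm δ).start j)
    exact h1.symm.trans h2

theorem preE_open (z : ℂ) (r ρ ζ : ℝ) : IsOpen ((fun p : X => p.1) ⁻¹' Ev3 z r ρ ζ) :=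
  (Ev3_open z r ρ ζ).preimage continuous_fst

/-- the probability bound for the exploration path -/
theorem probE (hU : U3) (R : Rect) :
    ∃ C : ℝ, 0 < C ∧ ∃ δ0 : ℝ, 0 < δ0 ∧ ∀ (z : ℂ) (r d δ ζ : ℝ), 0 < r → r ≤ d →
      Metric.ball z d ⊆ R.D → 0 < δ → δ ≤ r → δ ≤ δ0 → 8 * δ ≤ ζ →
        (R.law δ : Measure X) ((fun p : X => p.1) ⁻¹' Ev3 z r (d / 2) ζ) ≤
          ENNReal.ofReal (C * (r / d) ^ (2/3 : ℝ)) := by
  obtain ⟨κ, S, δ0, hκ, hS, hδ0, hδ1, hsh⟩ := R.shape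
  obtain ⟨Cd, hCd, hD'⟩ := u3d hU
  obtain ⟨Ca, hCa, hA'⟩ := hU
  refine ⟨(Ca + Cd + 1) * 256 ^ (2/3 : ℝ), by positivity, δ0, hδ0, ?_⟩
  intro z r d δ ζ hr hrd hball hδ hδr hδδ hζ
  have hd0 : 0 < d := hr.trans_le hrd
  rw [R.law_apply δ (preE_open z r (d / 2) ζ).measurableSet]
  apply ENNReal.ofReal_le_ofReal
  have hq : 0 < r / d := by positivity
  have hRHS : (Ca + Cd + 1) * 256 ^ (2/3 : ℝ) * (r / d) ^ (2/3 : ℝ) =
      (Ca + Cd + 1) * (256 * (r / d)) ^ (2/3 : ℝ) := by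
    rw [Real.mul_rpow (by norm_num) hq.le]
    ring
  rw [hRHS]
  by_cases h256 : 256 * r ≤ d
  · obtain ⟨s1, s2, s3, s4⟩ := sizes hδ hδr h256
    obtain ⟨b1, b2, b3, b4⟩ := dom_box R hδ (by linarith) hball
    have hsub : H12S.blk (ctr δ z) ⌊d / (8 * δ)⌋₊ ⊆ (R.dm δ).edges :=
      RE_subset b1.le b2.le b3.le b4.le
    have hsub1 : ∀ k : ℕ, k ≤ ⌊d / (8 * δ)⌋₊ → H12S.blk (ctr δ z) k ⊆ (R.dm δ).edges := by
      intro k hk
      refine (RE_subset ?_ ?_ ?_ ?_).trans hsub <;> omega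
    have h1 := hA' (ctr δ z) (⌈r / δ⌉₊ + 3 + 2) (⌊d / (8 * δ)⌋₊ - 2) (by omega) s2
      (R.dm δ).edges (hsub1 _ (by omega))
    have h2 := hD' (ctr δ z) (⌈r / δ⌉₊ + 3 + 2) (⌊d / (8 * δ)⌋₊ - 2) (by omega) s2
      (R.dm δ).edges (hsub1 _ (by omega))
    have hmono : R.prob δ (fun F => (R.curve δ F, R.time δ F) ∈
          ((fun p : X => p.1) ⁻¹' Ev3 z r (d / 2) ζ)) ≤
        PQ (1/2) (R.dm δ).edges (fun F =>
          A3v (ctr δ z) (⌈r / δ⌉₊ + 3 + 2) (⌊d / (8 * δ)⌋₊ - 2) ↑F ∨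
          A3v (ctr δ z) (⌈r / δ⌉₊ + 3 + 2) (⌊d / (8 * δ)⌋₊ - 2) (dl '' (↑F : Set Edg)ᶜ)) := by
      apply Pr_mono okh
      intro F hF hE
      exact detE R hδ hδr h256 hζ hball (hsh δ hδ hδδ).ok hF hE
    have hor := Pr_or_le okh (R.dm δ).edges
      (fun F => A3v (ctr δ z) (⌈r / δ⌉₊ + 3 + 2) (⌊d / (8 * δ)⌋₊ - 2) ↑F)
      (fun F => A3v (ctr δ z) (⌈r / δ⌉₊ + 3 + 2) (⌊d / (8 * δ)⌋₊ - 2) (dl '' (↑F : Set Edg)ᶜ))
    have hpow : (((⌈r / δ⌉₊ + 3 + 2 : ℕ) : ℝ) / ((⌊d / (8 * δ)⌋₊ - 2 : ℕ) : ℝ)) ^ (2/3 : ℝ) ≤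
        (256 * (r / d)) ^ (2/3 : ℝ) :=
      Real.rpow_le_rpow (by positivity) s4 (by norm_num)
    have hx0 : 0 ≤ (256 * (r / d)) ^ (2/3 : ℝ) := by positivity
    have h3 := mul_le_mul_of_nonneg_left hpow hCa.le
    have h4 := mul_le_mul_of_nonneg_left hpow hCd.le
    have h5 := hmono.trans (hor.trans (add_le_add (h1.trans h3) (h2.trans h4)))
    refine h5.trans ?_
    nlinarith
  · push Not at h256
    have h1 : R.prob δ (fun F => (R.curve δ F, R.time δ F) ∈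
        ((fun p : X => p.1) ⁻¹' Ev3 z r (d / 2) ζ)) ≤ 1 := Pr_le_one okh _ _
    refine h1.trans ?_
    have h2 : 1 ≤ 256 * (r / d) := by
      rw [← mul_div_assoc, le_div_iff₀ hd0]
      linarith
    have h3 : 1 ≤ (256 * (r / d)) ^ (2/3 : ℝ) := Real.one_le_rpow h2 (by norm_num)
    nlinarith

theorem D_open (R : Rect) : IsOpen R.D := by
  have h : R.D = {z : ℂ | -R.A < z.re} ∩ {z : ℂ | z.re < R.B} ∩ {z : ℂ | 0 < z.im} ∩
      {z : ℂ | z.im < R.H} := by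
    ext z
    simp only [Rect.D, Set.mem_ofPred_eq, Set.mem_inter_iff]
    tauto
  rw [h]
  exact (((isOpen_lt continuous_const Complex.continuous_re).inter
    (isOpen_lt Complex.continuous_re continuous_const)).inter
    (isOpen_lt continuous_const Complex.continuous_im)).inter
    (isOpen_lt Complex.continuous_im continuous_const)

theorem D_bdd (R : Rect) : ∃ M : ℕ, ∀ z ∈ R.D, |z.re| < M ∧ |z.im| < M := by
  obtain ⟨M, hM⟩ := exists_nat_gt (R.A + R.B + R.H)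
  have := R.hA
  have := R.hB
  have := R.hH
  refine ⟨M, ?_⟩
  rintro z ⟨h1, h2, h3, h4⟩
  constructor
  · rw [abs_lt]
    constructor <;> linarith
  · rw [abs_lt]
    constructor <;> linarith

/-- The accessible points of the limits of the exploration path. -/
theorem ex3 (hU : U3) (R : Rect) {δ : ℕ → ℝ} (hδ : ∀ i, 0 < δ i) (hlim : Tendsto δ atTop (𝓝 0))
    {μ : ProbabilityMeasure X} (hμ : Tendsto (fun i => R.law (δ i)) atTop (𝓝 μ)) :
    ∀ᵐ p ∂(μ : Measure X), ∀ i : ℕ, dimH (Acc (1 / ((i:ℝ) + 1)) p.1 ∩ R.D) ≤ 4/3 := by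
  obtain ⟨C, hC, δ0, hδ0, hP⟩ := probE hU R
  obtain ⟨M, hM⟩ := D_bdd R
  have hO : ∀ z r ρ, IsOpen ((fun p : X => p.1) ⁻¹' E3U z r ρ) := by
    intro z r ρ
    exact (isOpen_iUnion fun j => Ev3_open _ _ _ _).preimage continuous_fst
  refine acc_dim (pf := fun p : X => p.1) hO (D_open R) hM hC ?_
  intro z r d hr hrd hball
  have hmono : Monotone (fun j : ℕ => (fun p : X => p.1) ⁻¹' Ev3 z r (d / 2) (1 / ((j:ℝ) + 1))) :=
    fun i j hij c hc => Ev3_anti (Nat.one_div_le_one_div hij) hc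
  have h : (fun p : X => p.1) ⁻¹' E3U z r (d / 2) =
      ⋃ j : ℕ, (fun p : X => p.1) ⁻¹' Ev3 z r (d / 2) (1 / ((j:ℝ) + 1)) := by
    unfold E3U
    rw [Set.preimage_iUnion]
  rw [h, hmono.measure_iUnion]
  refine iSup_le fun j => ?_
  refine (ProbabilityMeasure.le_liminf_measure_open_of_tendsto hμ (preE_open _ _ _ _)).trans ?_
  refine liminf_le_of_frequently_le (Eventually.frequently ?_)
  have hpos : 0 < min (min r δ0) (1 / ((j:ℝ) + 1) / 8) :=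
    lt_min (lt_min hr hδ0) (by positivity)
  filter_upwards [hlim.eventually (gt_mem_nhds hpos)] with i hi
  have k1 := hi.le.trans ((min_le_left _ _).trans (min_le_left _ _))
  have k2 := hi.le.trans ((min_le_left _ _).trans (min_le_right _ _))
  have k3 := hi.le.trans (min_le_right _ _)
  exact hP z r d (δ i) _ hr hrd hball (hδ i) k1 k2 (by linarith)

end Pool.Agent.TH990.FU
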