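import Pool.Agent.TH990.FU.CovF
import Pool.Agent.TH990.FU.Ex3
import Pool.Agent.W462.DPL.C
import Pool.Agent.W92.DP.Dich
import Pool.Agent.W347.DPAA
import Pool.Agent.W571.DPad

/-!
Double points and accessible points of the limits of the exploration path in a fixed set.
-/

set_option autoImplicit false

namespace Pool.Agent.TH990.FU

open H974 H12S Finset H389NS H984P H984N
open MeasureTheory Filter Topology Pool.Agent.W424.OD Pool.Agent.W462.DPL Pool.Agent.W92.DP
open scoped ENNReal NNReal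

/-- double points in a fixed set -/
theorem dpF (R : Rect) {δ : ℕ → ℝ} (hδ : ∀ i, 0 < δ i) (hlim : Tendsto δ atTop (𝓝 0))
    {μ : ProbabilityMeasure X} (hμ : Tendsto (fun i => R.law (δ i)) atTop (𝓝 μ)) (T : Set ℂ) :
    ∀ᵐ p ∂(μ : Measure X),
      dimH ((⋃ i : ℕ, DPt (1 / ((i:ℝ) + 1)) p.1) ∩ T ∩ R.D) ≤ dimH T - ENNReal.ofReal (5/4) ∧
      (μH[5/4] T = 0 → (⋃ i : ℕ, DPt (1 / ((i:ℝ) + 1)) p.1) ∩ T ∩ R.D = ∅) := by
  obtain ⟨C, hC, δ0, hδ0, hP⟩ := prob_le st_U Pool.Agent.W347.DPAA.aa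
    (Pool.Agent.W571.DPad.ad Pool.Agent.W347.DPAA.aa) R
  refine fixed_dim (μ := (μ : Measure X)) (E := fun d z r => Ev z r (d / 2))
    (fun d z r => (Ev_open z r (d / 2)).measurableSet) (S := fun η p => DPt η p.1) ?_
    (D_open R) hC.le (show (0:ℝ) < 5/4 by norm_num) ?_ T
  · intro η d z r w p hdη hrd hw hwz
    exact Ev_of_DPt hw hwz (by linarith)
  · intro z r d hr hrd hball
    refine (ProbabilityMeasure.le_liminf_measure_open_of_tendsto hμ (Ev_open _ _ _)).trans ?_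
    refine liminf_le_of_frequently_le (Eventually.frequently ?_)
    filter_upwards [hlim.eventually (gt_mem_nhds (lt_min hr hδ0))] with i hi
    exact hP z r d (δ i) hr hrd hball (hδ i) (hi.le.trans (min_le_left _ _))
      (hi.le.trans (min_le_right _ _))

/-- accessible points in a fixed set -/
theorem acF (hU : U3) (R : Rect) {δ : ℕ → ℝ} (hδ : ∀ i, 0 < δ i) (hlim : Tendsto δ atTop (𝓝 0))
    {μ : ProbabilityMeasure X} (hμ : Tendsto (fun i => R.law (δ i)) atTop (𝓝 μ)) (T : Set ℂ) :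
    ∀ᵐ p ∂(μ : Measure X),
      dimH ((⋃ i : ℕ, Acc (1 / ((i:ℝ) + 1)) p.1) ∩ T ∩ R.D) ≤ dimH T - ENNReal.ofReal (2/3) ∧
      (μH[2/3] T = 0 → (⋃ i : ℕ, Acc (1 / ((i:ℝ) + 1)) p.1) ∩ T ∩ R.D = ∅) := by
  obtain ⟨C, hC, δ0, hδ0, hP⟩ := probE hU R
  have hO : ∀ z r ρ, IsOpen ((fun p : X => p.1) ⁻¹' E3U z r ρ) := by
    intro z r ρ
    exact (isOpen_iUnion fun j => Ev3_open _ _ _ _).preimage continuous_fst
  refine fixed_dim (μ := (μ : Measure X)) (E := fun d z r => (fun p : X => p.1) ⁻¹' E3U z r (d / 2))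
    (fun d z r => (hO z r (d / 2)).measurableSet) (S := fun η p => Acc η p.1) ?_
    (D_open R) hC.le (show (0:ℝ) < 2/3 by norm_num) ?_ T
  · intro η d z r w p hdη hrd hw hwz
    exact E3U_of hw hwz (by linarith)
  · intro z r d hr hrd hball
    have hmono : Monotone (fun j : ℕ => (fun p : X => p.1) ⁻¹' Ev3 z r (d / 2) (1 / ((j:ℝ) + 1))) :=
      fun i j hij c hc => Ev3_anti (Nat.one_div_le_one_div hij) hc
    have h : (fun p : X => p.1) ⁻¹' E3U z r (d / 2) =
        ⋃ j : ℕ, (fun p : X => p.1) ⁻¹' Ev3 z r (d / 2) (1 / ((j:ℝ) + 1)) := by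
      unfold E3U
      rw [Set.preimage_iUnion]
    rw [h, hmono.measure_iUnion]
    refine iSup_le fun j => ?_
    refine (ProbabilityMeasure.le_liminf_measure_open_of_tendsto hμ (preE_open _ _ _ _)).trans ?_
    refine liminf_le_of_frequently_le (Eventually.frequently ?_)
    have hpos : 0 < min (min r δ0) (1 / ((j:ℝ) + 1) / 8) :=
      lt_min (lt_min hr hδ0) (by positivity)
    filter_upwards [hlim.eventually (gt_mem_nhds hpos)] with i hi
    have k1 := hi.le.trans ((min_le_left _ _).trans (min_le_left _ _))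
    have k2 := hi.le.trans ((min_le_left _ _).trans (min_le_right _ _))
    have k3 := hi.le.trans (min_le_right _ _)
    exact hP z r d (δ i) _ hr hrd hball (hδ i) k1 k2 (by linarith)

end Pool.Agent.TH990.FU
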