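import Pool.Agent.TH990.FU.CovF
import Pool.Agent.TH990.FU.Tr3
import Pool.Agent.W978.PD.UL
import Pool.Agent.W500.PD.UO
import Pool.Agent.W347.DPAA
import Pool.Agent.W571.DPad
import Pool.Agent.Results.MP_6bd702_pr.LimitCurves

/-!
The limits of the outer perimeters in a fixed set.
-/

set_option autoImplicit false

namespace Pool.Agent.TH990.FU

open H974 H12S Finset H389NS H984P H984N H342P H342L H342T H342P.Plain
open MeasureTheory Filter Topology Pool.Agent.W92.DP Pool.Agent.W822.PD Pool.Agent.W462.DPL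
open Pool.Agent.W424.OD Pool.Agent.W978.PDUL
open scoped ENNReal NNReal

/-- double points in a fixed set -/
theorem dpT {sel : (n : ℕ) → Finset Plain.Edge → ℤ × ℤ}
    {γ : (n : ℕ) → Finset Plain.Edge → Curve} (hT : Tr sel γ) {k : ℕ → ℕ}
    (hk : Tendsto k atTop atTop) {μ : ProbabilityMeasure Curve}
    (hμ : Tendsto (fun i => lawOf (k i) (γ (k i))) atTop (𝓝 μ)) (T : Set ℂ) :
    ∀ᵐ c : Curve ∂(μ : Measure Curve),
      dimH ((⋃ i : ℕ, DPc (1 / ((i:ℝ) + 1)) c.path) ∩ T ∩ Sq) ≤ dimH T - ENNReal.ofReal (5/4) ∧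
      (μH[5/4] T = 0 → (⋃ i : ℕ, DPc (1 / ((i:ℝ) + 1)) c.path) ∩ T ∩ Sq = ∅) := by
  obtain ⟨C, hC, hP⟩ := prob_leC Pool.Agent.W500.PD.uo Pool.Agent.W347.DPAA.aa
    (Pool.Agent.W571.DPad.ad Pool.Agent.W347.DPAA.aa) hT
  refine fixed_dim (μ := (μ : Measure Curve)) (E := fun d z r => EvC z r (d / 2))
    (fun d z r => (EvC_open z r (d / 2)).measurableSet) (S := fun η c => DPc η c.path) ?_
    Sq_open hC.le (show (0:ℝ) < 5/4 by norm_num) ?_ T
  · intro η d z r w p hdη hrd hw hwz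
    exact EvC_of_DPc hw hwz (by linarith)
  · intro z r d hr hrd hball
    refine (ProbabilityMeasure.le_liminf_measure_open_of_tendsto hμ (EvC_open _ _ _)).trans ?_
    refine liminf_le_of_frequently_le (Eventually.frequently ?_)
    obtain ⟨n1, hn1⟩ := exists_nat_gt (1 / r)
    have hev : ∀ᶠ i in atTop, max n1 1 ≤ k i := tendsto_atTop.mp hk _
    filter_upwards [hev] with i hi
    rw [max_le_iff] at hi
    obtain ⟨hi1, hi3⟩ := hi
    have hki : (0:ℝ) < k i := by exact_mod_cast hi3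
    have hi1' : (n1:ℝ) ≤ k i := by exact_mod_cast hi1
    refine hP z r d (k i) hr hrd hball hi3 ?_
    rw [div_lt_iff₀ hr] at hn1
    rw [div_le_iff₀ hki]
    nlinarith

/-- accessible points in a fixed set -/
theorem acT (hU : U3) {sel : (n : ℕ) → Finset Plain.Edge → ℤ × ℤ}
    {γ : (n : ℕ) → Finset Plain.Edge → Curve} (hT : Tr sel γ) {k : ℕ → ℕ}
    (hk : Tendsto k atTop atTop) {μ : ProbabilityMeasure Curve}
    (hμ : Tendsto (fun i => lawOf (k i) (γ (k i))) atTop (𝓝 μ)) (T : Set ℂ) :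
    ∀ᵐ c : Curve ∂(μ : Measure Curve),
      dimH ((⋃ i : ℕ, Acc (1 / ((i:ℝ) + 1)) c.path) ∩ T ∩ Sq) ≤ dimH T - ENNReal.ofReal (2/3) ∧
      (μH[2/3] T = 0 → (⋃ i : ℕ, Acc (1 / ((i:ℝ) + 1)) c.path) ∩ T ∩ Sq = ∅) := by
  obtain ⟨C, hC, hP⟩ := lim3 hU hT hk hμ
  refine fixed_dim (μ := (μ : Measure Curve))
    (E := fun d z r => (fun c : Curve => c.path) ⁻¹' E3U z r (d / 2))
    (fun d z r => (E3U_openC z r (d / 2)).measurableSet) (S := fun η c => Acc η c.path) ?_
    Sq_open hC.le (show (0:ℝ) < 2/3 by norm_num) ?_ T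
  · intro η d z r w p hdη hrd hw hwz
    exact E3U_of hw hwz (by linarith)
  · intro z r d hr hrd hball
    exact hP z r d hr hrd hball

/-- The open square with a margin. -/
def SqM (a : ℝ) : Set ℂ := {z | (a < z.re ∧ z.re < 1 - a) ∧ (a < z.im ∧ z.im < 1 - a)}

theorem SqM_open (a : ℝ) : IsOpen (SqM a) := by
  have h : SqM a = ({z : ℂ | a < z.re} ∩ {z : ℂ | z.re < 1 - a}) ∩ ({z : ℂ | a < z.im} ∩
      {z : ℂ | z.im < 1 - a}) := by
    ext z
    unfold SqM
    simp only [Set.mem_inter_iff, Set.mem_ofPred_eq]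
  rw [h]
  exact (((isOpen_lt continuous_const Complex.continuous_re).inter
    (isOpen_lt Complex.continuous_re continuous_const)).inter
    ((isOpen_lt continuous_const Complex.continuous_im).inter
    (isOpen_lt Complex.continuous_im continuous_const)))

theorem meet_open (z : ℂ) (r : ℝ) :
    IsOpen {c : Curve | (Set.range c.path ∩ Metric.ball z r).Nonempty} := by
  rw [Metric.isOpen_iff]
  rintro c ⟨w, ⟨s, rfl⟩, hs⟩
  rw [Metric.mem_ball] at hs
  refine ⟨r - dist (c.path s) z, by linarith, fun c' hcc' => ?_⟩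
  rw [Metric.mem_ball, Curve.dist_def, cdist_eq] at hcc'
  obtain ⟨φ, hφ⟩ := exists_lt_of_ciInf_lt hcc'
  have h := ContinuousMap.dist_apply_le_dist (f := c'.path) (g := rep c.path φ) (φ.toEquiv.symm s)
  rw [rep_apply] at h
  have e : φ (φ.toEquiv.symm s) = s := φ.toEquiv.apply_symm_apply s
  rw [e] at h
  refine ⟨c'.path (φ.toEquiv.symm s), ⟨_, rfl⟩, ?_⟩
  rw [Metric.mem_ball]
  have h2 := dist_triangle (c'.path (φ.toEquiv.symm s)) (c.path s) z
  have h3 : dist (c'.path (φ.toEquiv.symm s)) (c.path s) < r - dist (c.path s) z := by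
    exact lt_of_le_of_lt h hφ
  linarith

/-- the trace in a fixed set, one exponent, inside -/
theorem trM {sel : (n : ℕ) → Finset Plain.Edge → ℤ × ℤ}
    {γ : (n : ℕ) → Finset Plain.Edge → Curve} (hT : Tr sel γ) {k : ℕ → ℕ}
    (hk : Tendsto k atTop atTop) {μ : ProbabilityMeasure Curve}
    (hμ : Tendsto (fun i => lawOf (k i) (γ (k i))) atTop (𝓝 μ)) (T : Set ℂ) {s a : ℝ}
    (hs : 0 < s) (hs1 : s < 1/4) (ha : 0 < a) (ha1 : a ≤ 1) :
    ∀ᵐ c : Curve ∂(μ : Measure Curve),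
      dimH (Set.range c.path ∩ T ∩ SqM a) ≤ dimH T - ENNReal.ofReal s ∧
      (μH[s] T = 0 → Set.range c.path ∩ T ∩ SqM a = ∅) := by
  obtain ⟨C, hC, hP⟩ := t_HIT t_TOPB H985T.st_A s hs hs1 a ha ha1
  have hrng := Pool.Agent.Results.MP_6bd702_pr.LimitCurves.rng
  have key := fixed_dim (μ := (μ : Measure Curve))
    (E := fun _ z r => {c : Curve | (Set.range c.path ∩ Metric.ball z r).Nonempty})
    (fun d z r => (meet_open z r).measurableSet) (S := fun _ c => Set.range c.path) ?_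
    (SqM_open a) hC.le hs ?_ T
  · filter_upwards [key] with c hc
    have e : (⋃ i : ℕ, (fun (_ : ℝ) (c : Curve) => Set.range c.path) (1 / ((i:ℝ) + 1)) c) =
        Set.range c.path := Set.iUnion_const _
    rw [e] at hc
    exact hc
  · intro η d z r w c _ _ hw hwz
    exact ⟨w, hw, hwz⟩
  · intro z r d hr hrd hball
    have hz : z ∈ SqM a := hball (Metric.mem_ball_self (hr.trans_le hrd))
    have hd1 : d ≤ 1 := by
      by_contra hcon
      push Not at hcon
      have h1 : z + 1 ∈ Metric.ball z d := by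
        rw [Metric.mem_ball, dist_eq_norm, add_sub_cancel_left, norm_one]
        exact hcon
      have h2 := (hball h1).1.2
      have h3 := hz.1.1
      rw [Complex.add_re, Complex.one_re] at h2
      linarith
    refine (ProbabilityMeasure.le_liminf_measure_open_of_tendsto hμ (meet_open _ _)).trans ?_
    refine liminf_le_of_frequently_le (Eventually.frequently ?_)
    obtain ⟨n0, hn0⟩ := hP z r hr (hrd.trans hd1)
      ⟨⟨hz.1.1.le, hz.1.2.le⟩, ⟨hz.2.1.le, hz.2.2.le⟩⟩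
    have hev : ∀ᶠ i in atTop, max n0 1 ≤ k i := tendsto_atTop.mp hk _
    filter_upwards [hev] with i hi
    rw [max_le_iff] at hi
    have hi2 : 0 < k i := hi.2
    rw [lawOf_apply _ _ (meet_open z r).measurableSet]
    refine ENNReal.ofReal_le_ofReal ?_
    refine (prob_mono ?_).trans ((hn0 (k i) hi.1).trans ?_)
    · intro F hF hmeet
      refine ⟨sel (k i) F, hT.1 _ _ hi2 hF, ?_⟩
      rw [← (hrng (k i) F (sel (k i) F) (γ (k i) F) hi2 hF (hT.1 _ _ hi2 hF).1
        (hT.2 _ _ hi2 hF)).2]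
      exact hmeet
    · have h1 : r ≤ r / d := by
        rw [le_div_iff₀ (hr.trans_le hrd)]
        nlinarith
      exact mul_le_mul_of_nonneg_left (Real.rpow_le_rpow hr.le h1 hs.le) hC.le

theorem lim_sub {x D : ℝ≥0∞} (h : ∀ j : ℕ, x ≤ D - ENNReal.ofReal (1/4 - 1 / ((j:ℝ) + 5))) :
    x ≤ D - ENNReal.ofReal (1/4) := by
  rcases eq_or_ne x 0 with h0 | h0
  · rw [h0]; exact bot_le
  have h2 : ∀ j : ℕ, x + ENNReal.ofReal (1/4 - 1 / ((j:ℝ) + 5)) ≤ D := by
    intro j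
    have h3 : ENNReal.ofReal (1/4 - 1 / ((j:ℝ) + 5)) ≤ D := by
      by_contra hcon
      push Not at hcon
      have := h j
      rw [tsub_eq_zero_of_le hcon.le] at this
      exact h0 (le_antisymm this bot_le)
    calc x + ENNReal.ofReal (1/4 - 1 / ((j:ℝ) + 5)) ≤
        (D - ENNReal.ofReal (1/4 - 1 / ((j:ℝ) + 5))) + ENNReal.ofReal (1/4 - 1 / ((j:ℝ) + 5)) := by
          gcongr; exact h j
      _ = D := tsub_add_cancel_of_le h3
  have hl : Tendsto (fun j : ℕ => x + ENNReal.ofReal (1/4 - 1 / ((j:ℝ) + 5))) atTop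
      (𝓝 (x + ENNReal.ofReal (1/4))) := by
    refine tendsto_const_nhds.add (ENNReal.tendsto_ofReal ?_)
    have h1 : Tendsto (fun j : ℕ => ((j:ℝ) + 5)) atTop atTop :=
      tendsto_natCast_atTop_atTop.atTop_add tendsto_const_nhds
    have h3 := (tendsto_const_nhds (x := (1:ℝ))).div_atTop h1
    have h4 := (tendsto_const_nhds (x := (1/4:ℝ))).sub h3
    rw [sub_zero] at h4
    exact h4
  have h3 := le_of_tendsto' hl h2
  exact ENNReal.le_sub_of_add_le_right ENNReal.ofReal_ne_top h3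

/-- the trace in a fixed set -/
theorem trT {sel : (n : ℕ) → Finset Plain.Edge → ℤ × ℤ}
    {γ : (n : ℕ) → Finset Plain.Edge → Curve} (hT : Tr sel γ) {k : ℕ → ℕ}
    (hk : Tendsto k atTop atTop) {μ : ProbabilityMeasure Curve}
    (hμ : Tendsto (fun i => lawOf (k i) (γ (k i))) atTop (𝓝 μ)) (T : Set ℂ) :
    ∀ᵐ c : Curve ∂(μ : Measure Curve),
      dimH (Set.range c.path ∩ T ∩ Sq) ≤ dimH T - ENNReal.ofReal (1/4) ∧
      (dimH T < ENNReal.ofReal (1/4) → Set.range c.path ∩ T ∩ Sq = ∅) := by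
  have hs : ∀ j : ℕ, 0 < 1/4 - 1 / ((j:ℝ) + 5) := by
    intro j
    have : 1 / ((j:ℝ) + 5) ≤ 1 / 5 := one_div_le_one_div_of_le (by norm_num) (by
      have : (0:ℝ) ≤ j := Nat.cast_nonneg _
      linarith)
    linarith
  have h : ∀ᵐ c : Curve ∂(μ : Measure Curve), ∀ j n : ℕ,
      dimH (Set.range c.path ∩ T ∩ SqM (1 / ((n:ℝ) + 1))) ≤
        dimH T - ENNReal.ofReal (1/4 - 1 / ((j:ℝ) + 5)) ∧
      (μH[1/4 - 1 / ((j:ℝ) + 5)] T = 0 →
        Set.range c.path ∩ T ∩ SqM (1 / ((n:ℝ) + 1)) = ∅) := by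
    rw [ae_all_iff]
    intro j
    rw [ae_all_iff]
    intro n
    refine trM hT hk hμ T (hs j) ?_ (by positivity) ?_
    · have : 0 < 1 / ((j:ℝ) + 5) := by positivity
      linarith
    · rw [div_le_one (by positivity)]
      have : (0:ℝ) ≤ n := Nat.cast_nonneg _
      linarith
  filter_upwards [h] with c hc
  have hcov : Set.range c.path ∩ T ∩ Sq ⊆
      ⋃ n : ℕ, Set.range c.path ∩ T ∩ SqM (1 / ((n:ℝ) + 1)) := by
    rintro z ⟨hz, h1, h2, h3, h4⟩
    obtain ⟨n, hn⟩ := exists_nat_one_div_lt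
      (lt_min (lt_min h1 (sub_pos.2 h2)) (lt_min h3 (sub_pos.2 h4)))
    rw [lt_min_iff, lt_min_iff, lt_min_iff] at hn
    refine Set.mem_iUnion.2 ⟨n, hz, ⟨hn.1.1, ?_⟩, hn.2.1, ?_⟩ <;> linarith [hn.1.2, hn.2.2]
  constructor
  · refine lim_sub fun j => ?_
    refine (dimH_mono hcov).trans ?_
    rw [dimH_iUnion]
    exact iSup_le fun n => (hc j n).1
  · intro hlt
    rw [Set.eq_empty_iff_forall_notMem]
    intro z hz
    obtain ⟨n, hn⟩ := Set.mem_iUnion.1 (hcov hz)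
    have hl : Tendsto (fun j : ℕ => ENNReal.ofReal (1/4 - 1 / ((j:ℝ) + 5))) atTop
        (𝓝 (ENNReal.ofReal (1/4))) := by
      refine ENNReal.tendsto_ofReal ?_
      have h1 : Tendsto (fun j : ℕ => ((j:ℝ) + 5)) atTop atTop :=
        tendsto_natCast_atTop_atTop.atTop_add tendsto_const_nhds
      have h3 := (tendsto_const_nhds (x := (1:ℝ))).div_atTop h1
      have h4 := (tendsto_const_nhds (x := (1/4:ℝ))).sub h3
      rw [sub_zero] at h4
      exact h4
    obtain ⟨j, hj⟩ := (hl.eventually (lt_mem_nhds hlt)).exists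
    have h5 : μH[1/4 - 1 / ((j:ℝ) + 5)] T = 0 := by
      have h6 : dimH T < ((Real.toNNReal (1/4 - 1 / ((j:ℝ) + 5)) : ℝ≥0) : ℝ≥0∞) := hj
      have h7 := hausdorffMeasure_of_dimH_lt h6
      rwa [Real.coe_toNNReal _ (hs j).le] at h7
    rw [(hc j n).2 h5] at hn
    exact hn

end Pool.Agent.TH990.FU
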