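import Pool.Agent.W424.OD.Ann
import Pool.Agent.H443R3.BT.Conv
import Pool.Agent.W92.DP.Loop
import Pool.Agent.H984R4.NP.ModelLem

/-!
A path which avoids an interface gives three arms (deterministic part, for every invariant set of
states).
-/

set_option autoImplicit false

namespace Pool.Agent.TH990.FU

open H974 H12S Finset H389NS H984P H984N H342P
open MeasureTheory Filter Topology Pool.Agent.W424.OD

/-- Position of the lattice point `v`. -/
noncomputable def zp (δ : ℝ) (o : ℂ) (v : Vtx) : ℂ := ⟨o.re + δ * v.1, o.im + δ * v.2⟩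

/-- Lattice point near `z`. -/
noncomputable def vz (δ : ℝ) (o z : ℂ) : Vtx := (⌊(z.re - o.re) / δ⌋, ⌊(z.im - o.im) / δ⌋)

/-- The lattice point `u` is near `z`. -/
def Near (δ : ℝ) (o z : ℂ) (m : ℝ) (u : Vtx) : Prop :=
  |(z.re - o.re) / δ - u.1| ≤ m ∧ |(z.im - o.im) / δ - u.2| ≤ m

theorem Near.mono {δ : ℝ} {o z : ℂ} {m m' : ℝ} {u : Vtx} (h : Near δ o z m u) (hm : m ≤ m') :
    Near δ o z m' u := ⟨h.1.trans hm, h.2.trans hm⟩

theorem near_vz {δ : ℝ} (o z : ℂ) : Near δ o z 1 (vz δ o z) := by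
  constructor
  · have a1 := Int.floor_le ((z.re - o.re) / δ)
    have a2 := Int.lt_floor_add_one ((z.re - o.re) / δ)
    show |(z.re - o.re) / δ - (⌊(z.re - o.re) / δ⌋ : ℝ)| ≤ 1
    rw [abs_le]
    constructor <;> linarith
  · have a1 := Int.floor_le ((z.im - o.im) / δ)
    have a2 := Int.lt_floor_add_one ((z.im - o.im) / δ)
    show |(z.im - o.im) / δ - (⌊(z.im - o.im) / δ⌋ : ℝ)| ≤ 1
    rw [abs_le]
    constructor <;> linarith

theorem Near.dist {δ : ℝ} (hδ : 0 < δ) {o z : ℂ} {m : ℝ} {u : Vtx} (h : Near δ o z m u) :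
    dist z (zp δ o u) ≤ 2 * m * δ := by
  have e1 : |z.re - (zp δ o u).re| ≤ m * δ := by
    have : z.re - (zp δ o u).re = ((z.re - o.re) / δ - u.1) * δ := by
      show z.re - (o.re + δ * u.1) = _
      field_simp
      ring
    rw [this, abs_mul, abs_of_pos hδ]
    exact mul_le_mul_of_nonneg_right h.1 hδ.le
  have e2 : |z.im - (zp δ o u).im| ≤ m * δ := by
    have : z.im - (zp δ o u).im = ((z.im - o.im) / δ - u.2) * δ := by
      show z.im - (o.im + δ * u.2) = _
      field_simp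
      ring
    rw [this, abs_mul, abs_of_pos hδ]
    exact mul_le_mul_of_nonneg_right h.2 hδ.le
  refine (ML.dist_le_of e1 e2).trans (le_of_eq ?_)
  ring

theorem near_of_dist {δ : ℝ} (hδ : 0 < δ) {o z w : ℂ} {m m' : ℝ} {u : Vtx} (h : Near δ o z m u)
    (hd : dist w z ≤ m' * δ) : Near δ o w (m + m') u := by
  have h1 := (ML.le_dist_re w z).trans hd
  have h2 := (ML.le_dist_im w z).trans hd
  have key : ∀ a b c : ℝ, |a - b| ≤ m' * δ → |(a - c) / δ - (b - c) / δ| ≤ m' := by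
    intro a b c hab
    rw [← sub_div, abs_div, abs_of_pos hδ, div_le_iff₀ hδ]
    have : a - c - (b - c) = a - b := by ring
    rw [this]
    exact hab
  have k1 := key _ _ o.re h1
  have k2 := key _ _ o.im h2
  constructor
  · have := abs_sub_le ((w.re - o.re) / δ) ((z.re - o.re) / δ) u.1
    linarith [h.1]
  · have := abs_sub_le ((w.im - o.im) / δ) ((z.im - o.im) / δ) u.2
    linarith [h.2]

/-- The states of `u` are not in `A`. -/
def NV (A : Set St) (u : Vtx) : Prop := ∀ q, ((u, q) : St) ∉ A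

section pot
variable {A : Set St} {hv hf : Vtx → ZMod 2}
  (hpot : ∀ σ : St, hv σ.1 + hf (face σ) = b2 (σ ∈ A))
include hpot

theorem pot_eq {u : Vtx} (hu : NV A u) (q : Q4) : hv u = hf (face (u, q)) := by
  have h := hpot (u, q)
  rw [b2_not_of (hu q)] at h
  exact H443B.z2 h

theorem pot_h {x y : ℤ} (h1 : NV A (x, y)) (h2 : NV A (x + 1, y)) : hv (x, y) = hv (x + 1, y) := by
  rw [pot_eq hpot h1 .ne, pot_eq hpot h2 .nw, face_ne, face_nw, add_sub_cancel_right]

theorem pot_v {x y : ℤ} (h1 : NV A (x, y)) (h2 : NV A (x, y + 1)) : hv (x, y) = hv (x, y + 1) := by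
  rw [pot_eq hpot h1 .ne, pot_eq hpot h2 .se, face_ne, face_se, add_sub_cancel_right]

theorem pot_hl {a b y : ℤ} (hab : a ≤ b) (h : ∀ i, a ≤ i → i ≤ b → NV A (i, y)) :
    hv (a, y) = hv (b, y) := by
  induction b, hab using Int.le_induction with
  | base => rfl
  | succ n hn ih =>
    rw [ih (fun i h1 h2 => h i h1 (by omega))]
    exact pot_h hpot (h n hn (by omega)) (h (n + 1) (by omega) le_rfl)

theorem pot_vl {a b x : ℤ} (hab : a ≤ b) (h : ∀ i, a ≤ i → i ≤ b → NV A (x, i)) :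
    hv (x, a) = hv (x, b) := by
  induction b, hab using Int.le_induction with
  | base => rfl
  | succ n hn ih =>
    rw [ih (fun i h1 h2 => h i h1 (by omega))]
    exact pot_v hpot (h n hn (by omega)) (h (n + 1) (by omega) le_rfl)

theorem pot_near {δ : ℝ} {o z : ℂ} {m : ℝ} (hN : ∀ u, Near δ o z m u → NV A u) {u w : Vtx}
    (hu : Near δ o z m u) (hw : Near δ o z m w) : hv u = hv w := by
  obtain ⟨x, y⟩ := u
  obtain ⟨x', y'⟩ := w
  have hmid : ∀ (c : ℝ) (a b i : ℤ), a ≤ i → i ≤ b → |c - a| ≤ m → |c - b| ≤ m →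
      |c - i| ≤ m := by
    intro c a b i h1 h2 h3 h4
    have h1' : (a : ℝ) ≤ i := by exact_mod_cast h1
    have h2' : (i : ℝ) ≤ b := by exact_mod_cast h2
    rw [abs_le] at h3 h4 ⊢
    constructor <;> linarith [h3.1, h3.2, h4.1, h4.2]
  have e1 : hv (x, y) = hv (x', y) := by
    rcases le_total x x' with h | h
    · exact pot_hl hpot h (fun i h1 h2 => hN _ ⟨hmid _ _ _ _ h1 h2 hu.1 hw.1, hu.2⟩)
    · exact (pot_hl hpot h (fun i h1 h2 => hN _ ⟨hmid _ _ _ _ h1 h2 hw.1 hu.1, hu.2⟩)).symm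
  have e2 : hv (x', y) = hv (x', y') := by
    rcases le_total y y' with h | h
    · exact pot_vl hpot h (fun i h1 h2 => hN _ ⟨hw.1, hmid _ _ _ _ h1 h2 hu.2 hw.2⟩)
    · exact (pot_vl hpot h (fun i h1 h2 => hN _ ⟨hw.1, hmid _ _ _ _ h1 h2 hw.2 hu.2⟩)).symm
  exact e1.trans e2

/-- The potential is constant along a path which avoids the interface. -/
theorem pot_path {δ : ℝ} (hδ : 0 < δ) {o : ℂ} {g : C(unitInterval, ℂ)}
    (hN : ∀ t u, Near δ o (g t) 3 u → NV A u) (t : unitInterval) :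
    hv (vz δ o (g t)) = hv (vz δ o (g 0)) := by
  have hl : IsLocallyConstant (fun t : unitInterval => hv (vz δ o (g t))) := by
    rw [IsLocallyConstant.iff_exists_open]
    intro t
    refine ⟨g ⁻¹' Metric.ball (g t) (1 * δ), Metric.isOpen_ball.preimage g.continuous,
      Metric.mem_ball_self (by positivity), ?_⟩
    intro t' ht'
    have hd : dist (g t') (g t) < 1 * δ := ht'
    refine pot_near hpot (hN t) ?_ ((near_vz _ _).mono (by norm_num))
    have h1 := near_of_dist (w := g t) hδ (near_vz (δ := δ) o (g t')) (m' := 1)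
      (by rw [dist_comm]; exact hd.le)
    exact h1.mono (by norm_num)
  exact hl.apply_eq_of_preconnectedSpace t 0

end pot

/-- one step -/
theorem unit_step' {G : Set Edg} {u w : Vtx} (h1 : |u.1 - w.1| ≤ 1) (h2 : |u.2 - w.2| ≤ 1)
    (hG : ∀ e : Edg, ((src e = u ∧ tgt e = (w.1, u.2)) ∨ (src e = (w.1, u.2) ∧ tgt e = u) ∨
      (src e = (w.1, u.2) ∧ tgt e = w) ∨ (src e = w ∧ tgt e = (w.1, u.2))) → e ∈ G) :
    Reach G u w := by
  obtain ⟨x, y⟩ := u
  obtain ⟨x', y'⟩ := w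
  simp only at h1 h2 hG
  rw [abs_le] at h1 h2
  have s1 : Reach G (x, y) (x', y) := by
    rcases (by omega : x' = x ∨ x' = x + 1 ∨ x' = x - 1) with h | h | h
    · rw [h]; exact Reach.refl _ _
    · refine Adj.reach ⟨(x, y, true), hG _ (Or.inl ⟨rfl, ?_⟩), Or.inl ⟨rfl, ?_⟩⟩ <;> rw [h] <;> rfl
    · have e : ((x', y, true) : Edg) ∈ G := hG _ (Or.inr (Or.inl ⟨rfl, by
        rw [tgt_true, h]; simp⟩))
      refine Adj.reach ⟨(x', y, true), e, Or.inr ⟨rfl, ?_⟩⟩
      rw [tgt_true, h]; simp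
  have s2 : Reach G (x', y) (x', y') := by
    rcases (by omega : y' = y ∨ y' = y + 1 ∨ y' = y - 1) with h | h | h
    · rw [h]; exact Reach.refl _ _
    · refine Adj.reach ⟨(x', y, false), hG _ (Or.inr (Or.inr (Or.inl ⟨rfl, ?_⟩))), Or.inl ⟨rfl, ?_⟩⟩
        <;> rw [h] <;> rfl
    · have e : ((x', y', false) : Edg) ∈ G := hG _ (Or.inr (Or.inr (Or.inr ⟨rfl, by
        rw [tgt_false, h]; simp⟩)))
      refine Adj.reach ⟨(x', y', false), e, Or.inr ⟨rfl, ?_⟩⟩
      rw [tgt_false, h]; simp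
  exact s1.trans s2

/-- The lattice path which follows `g`. -/
theorem follow' {δ : ℝ} (hδ : 0 < δ) {o : ℂ} {g : C(unitInterval, ℂ)} {G : Set Edg}
    (hG : ∀ (t : unitInterval) (e : Edg), Near δ o (g t) 3 (src e) → Near δ o (g t) 3 (tgt e) →
      e ∈ G) : Reach G (vz δ o (g 0)) (vz δ o (g 1)) := by
  have hl : IsLocallyConstant (fun t : unitInterval => {w : Vtx | Reach G (vz δ o (g t)) w}) := by
    rw [IsLocallyConstant.iff_exists_open]
    intro t
    refine ⟨g ⁻¹' Metric.ball (g t) (1 * δ), Metric.isOpen_ball.preimage g.continuous,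
      Metric.mem_ball_self (by positivity), ?_⟩
    intro t' ht'
    have hd : dist (g t') (g t) < 1 * δ := ht'
    have key : Reach G (vz δ o (g t)) (vz δ o (g t')) := by
      have r1 := (ML.le_dist_re (g t') (g t)).trans hd.le
      have r2 := (ML.le_dist_im (g t') (g t)).trans hd.le
      have key2 : ∀ a b c : ℝ, |a - b| ≤ 1 * δ → |⌊(b - c) / δ⌋ - ⌊(a - c) / δ⌋| ≤ 1 := by
        intro a b c hab
        have h0 : |(a - c) / δ - (b - c) / δ| ≤ 1 := by
          rw [← sub_div, abs_div, abs_of_pos hδ, div_le_iff₀ hδ]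
          have : a - c - (b - c) = a - b := by ring
          rw [this]
          exact hab
        rw [abs_le] at h0
        have := Int.floor_le ((a - c) / δ)
        have := Int.lt_floor_add_one ((a - c) / δ)
        have := Int.floor_le ((b - c) / δ)
        have := Int.lt_floor_add_one ((b - c) / δ)
        rw [abs_le]
        constructor
        · have : (-1 - 1 : ℝ) < ((⌊(b - c) / δ⌋ - ⌊(a - c) / δ⌋ : ℤ) : ℝ) := by
            push_cast; linarith
          have h3 : (-1 - 1 : ℤ) < ⌊(b - c) / δ⌋ - ⌊(a - c) / δ⌋ := by exact_mod_cast this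
          omega
        · have : ((⌊(b - c) / δ⌋ - ⌊(a - c) / δ⌋ : ℤ) : ℝ) < 1 + 1 := by push_cast; linarith
          have h3 : ⌊(b - c) / δ⌋ - ⌊(a - c) / δ⌋ < (1 + 1 : ℤ) := by exact_mod_cast this
          omega
      have n0 : Near δ o (g t) 3 (vz δ o (g t)) := (near_vz _ _).mono (by norm_num)
      have n1 : Near δ o (g t) 3 (vz δ o (g t')) :=
        (near_of_dist (w := g t) hδ (near_vz (δ := δ) o (g t')) (m' := 1)
          (by rw [dist_comm]; exact hd.le)).mono (by norm_num)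
      have n2 : Near δ o (g t) 3 ((vz δ o (g t')).1, (vz δ o (g t)).2) := ⟨n1.1, n0.2⟩
      refine unit_step' (key2 _ _ _ r1) (key2 _ _ _ r2) ?_
      intro e he
      rcases he with ⟨h1, h2⟩ | ⟨h1, h2⟩ | ⟨h1, h2⟩ | ⟨h1, h2⟩ <;> apply hG t <;>
        simp only [h1, h2] <;> assumption
    ext w
    exact ⟨fun h => key.trans h, fun h => key.symm.trans h⟩
  have h := hl.apply_eq_of_preconnectedSpace 0 1
  have h2 : vz δ o (g 1) ∈ {w : Vtx | Reach G (vz δ o (g 1)) w} := Reach.refl _ _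
  rw [← h] at h2
  exact h2

/-- A path which avoids an invariant set of states avoids, together with its neighbourhood, the open
cluster or the closed dual cluster of a state of the set. -/
theorem dich {C : Set Edg} {A : Set St} (hinv : ∀ σ, σ ∈ A ↔ nxt C σ ∈ A) {σ : St} (hσ : σ ∈ A)
    {δ : ℝ} (hδ : 0 < δ) {o : ℂ} {g : C(unitInterval, ℂ)}
    (hN : ∀ t u, Near δ o (g t) 3 u → NV A u) :
    Reach {e | ¬ Reach C σ.1 (src e) ∧ ¬ Reach C σ.1 (tgt e)} (vz δ o (g 0)) (vz δ o (g 1)) ∨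
    Reach {e | ¬ Reach (dl '' Cᶜ) (face σ) (src e) ∧ ¬ Reach (dl '' Cᶜ) (face σ) (tgt e)}
      (vz δ o (g 0)) (vz δ o (g 1)) := by
  obtain ⟨hv, hf, hpot, hC, hE⟩ := pot_of_inv C A hinv
  have hreach : ∀ u w, Reach C u w → hv u = hv w := by
    intro u w h
    induction h with
    | refl => rfl
    | tail _ hs ih =>
      obtain ⟨e, he, h | h⟩ := hs
      · rw [ih, ← h.1, ← h.2]; exact hC e he
      · rw [ih, ← h.1, ← h.2]; exact (hC e he).symm
  have hdreach : ∀ f g, Reach (dl '' Cᶜ) f g → hf f = hf g := by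
    intro f g h
    rw [reach_dl] at h
    induction h with
    | refl => rfl
    | tail _ hs ih =>
      obtain ⟨e, he, h | h⟩ := hs
      · rw [ih, ← h.1, ← h.2]; exact hE e he
      · rw [ih, ← h.1, ← h.2]; exact (hE e he).symm
  have hH : ∀ t u, Near δ o (g t) 3 u → hv u = hv (vz δ o (g 0)) := by
    intro t u hu
    rw [← pot_path hpot hδ hN t]
    exact pot_near hpot (hN t) hu ((near_vz _ _).mono (by norm_num))
  have hHf : ∀ t u, Near δ o (g t) 3 u → hf u = hv (vz δ o (g 0)) := by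
    intro t u hu
    rw [← hH t u hu, pot_eq hpot (hN t u hu) .ne]
    rfl
  have h1 := hpot σ
  rw [b2_of hσ] at h1
  by_cases hcase : hv σ.1 = hv (vz δ o (g 0))
  · right
    have h2 : hf (face σ) ≠ hv (vz δ o (g 0)) := by
      intro h
      rw [hcase, h, Pool.Agent.W92.DP.z2s] at h1
      exact absurd h1 (by decide)
    apply follow' hδ
    intro t e hs ht
    refine ⟨fun h => h2 ?_, fun h => h2 ?_⟩
    · rw [hdreach _ _ h, hHf t _ hs]
    · rw [hdreach _ _ h, hHf t _ ht]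
  · left
    apply follow' hδ
    intro t e hs ht
    refine ⟨fun h => hcase ?_, fun h => hcase ?_⟩
    · rw [hreach _ _ h, hH t _ hs]
    · rw [hreach _ _ h, hH t _ ht]

/-- **three arms** -/
theorem arms {C : Set Edg} {A : Set St} (hinv : ∀ σ, σ ∈ A ↔ nxt C σ ∈ A) {σ τ : St} (hσ : σ ∈ A)
    (h1 : Reach C σ.1 τ.1) (h2 : Reach (dl '' Cᶜ) (face σ) (face τ)) {δ : ℝ} (hδ : 0 < δ) {o : ℂ}
    {g : C(unitInterval, ℂ)} (hN : ∀ t u, Near δ o (g t) 3 u → NV A u) {c : ℤ × ℤ} {d k : ℕ}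
    (hdk : d ≤ k) (s1 : BX c d σ.1) (s2 : BX c d (face σ)) (s3 : ¬ BX c k τ.1)
    (s4 : ¬ BX c k (face τ)) (s5 : BX c d (vz δ o (g 0))) (s6 : ¬ BX c k (vz δ o (g 1))) :
    A3v c d k C ∨ A3v c d k (dl '' Cᶜ) := by
  rcases dich hinv hσ hδ hN with h | h
  · exact Or.inl (A3v_of hdk s1 (Reach.refl _ _) s3 h1 s5 s6 h)
  · exact Or.inr (A3v_of hdk s2 (Reach.refl _ _) s4 h2 s5 s6 h)

theorem A3v_congr {c : ℤ × ℤ} {d k : ℕ} {F G : Set Edg}
    (h : F ∩ ↑(blk c k) = G ∩ ↑(blk c k)) : A3v c d k F ↔ A3v c d k G := by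
  have e : F ∩ AE c d k = G ∩ AE c d k := by
    have e' : ∀ H : Set Edg, H ∩ AE c d k = (H ∩ ↑(blk c k)) ∩ (↑(blk c d) : Set Edg)ᶜ := by
      intro H
      ext x
      unfold AE
      simp only [Set.mem_inter_iff, Finset.coe_sdiff, Set.mem_sdiff, Set.mem_compl_iff]
      tauto
    rw [e' F, e' G, h]
  unfold A3v Pool.Agent.W424.OD.Cl
  rw [e]

end Pool.Agent.TH990.FU
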