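import Pool.Agent.W424.OD.Defs

/-!
Outer boundaries of compact subsets of the plane.
-/

set_option autoImplicit false

namespace Pool.Agent.TH990.FU

open Pool.Agent.W424.OD Set Filter Topology Metric

theorem comp_unb {K : Set ℂ} {z y : ℂ} (hy : y ∈ connectedComponentIn Kᶜ z) :
    y ∈ unb K ↔ z ∈ unb K := by
  have hz : z ∈ Kᶜ := by
    by_contra hcon
    rw [connectedComponentIn_eq_empty hcon] at hy
    exact hy
  have hyU : y ∈ Kᶜ := connectedComponentIn_subset _ _ hy
  have he := connectedComponentIn_eq hy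
  unfold unb
  rw [Set.mem_ofPred_eq, Set.mem_ofPred_eq, he]
  exact ⟨fun h => ⟨hz, h.2⟩, fun h => ⟨hyU, h.2⟩⟩

theorem isOpen_unb {K : Set ℂ} (hK : IsClosed K) : IsOpen (unb K) := by
  rw [isOpen_iff_forall_mem_open]
  intro x hx
  refine ⟨connectedComponentIn Kᶜ x, fun y hy => (comp_unb hy).2 hx,
    hK.isOpen_compl.connectedComponentIn, mem_connectedComponentIn hx.1⟩

theorem oB_sub {K : Set ℂ} (hK : IsClosed K) : oB K ⊆ K := by
  intro z hz
  by_contra hcon
  have hopen : IsOpen (connectedComponentIn Kᶜ z) := hK.isOpen_compl.connectedComponentIn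
  have hzC : z ∈ connectedComponentIn Kᶜ z := mem_connectedComponentIn hcon
  unfold oB at hz
  rw [frontier, Set.mem_sdiff] at hz
  by_cases ho : z ∈ unb K
  · refine hz.2 (mem_interior.2 ⟨_, fun y hy => ?_, hopen, hzC⟩)
    exact (comp_unb hy).2 ho
  · obtain ⟨y, hy1, hy2⟩ := mem_closure_iff.1 hz.1 _ hopen hzC
    exact ho ((comp_unb hy1).1 hy2)

/-- The outer boundary is accessible: arbitrarily near to its points there are paths to infinity
which avoid `K`. -/
theorem exists_path {K : Set ℂ} (hK : IsCompact K) {w : ℂ} (hw : w ∈ oB K) {r : ℝ} (hr : 0 < r)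
    (M : ℝ) : ∃ g : C(unitInterval, ℂ), dist (g 0) w < r ∧ M < ‖g 1‖ ∧
      ∃ ζ : ℝ, 0 < ζ ∧ ∀ t, ∀ x ∈ K, ζ < dist (g t) x := by
  have hcl : w ∈ closure (unb K) := frontier_subset_closure hw
  obtain ⟨x, hx, hxw⟩ := Metric.mem_closure_iff.mp hcl r hr
  obtain ⟨hxK, hb⟩ := hx
  set C := connectedComponentIn Kᶜ x with hC
  have hCo : IsOpen C := hK.isClosed.isOpen_compl.connectedComponentIn
  have hCc : IsConnected C := isConnected_connectedComponentIn_iff.mpr hxK
  have hxC : x ∈ C := mem_connectedComponentIn hxK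
  have hy : ∃ y ∈ C, M < ‖y‖ := by
    by_contra hcon
    push Not at hcon
    apply hb
    exact Metric.isBounded_closedBall.subset (fun y hy => mem_closedBall_zero_iff.2 (hcon y hy))
  obtain ⟨y, hyC, hy⟩ := hy
  have hpc : IsPathConnected C := (hCo.isConnected_iff_isPathConnected).1 hCc
  obtain ⟨γ, hγ⟩ := hpc.joinedIn x hxC y hyC
  have hdis : Disjoint (Set.range γ) K := by
    rw [Set.disjoint_left]
    rintro _ ⟨t, rfl⟩ ht
    exact connectedComponentIn_subset _ _ (hγ t) ht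
  obtain ⟨δ, hδ, hd⟩ := hdis.exists_thickenings (isCompact_range γ.continuous) hK.isClosed
  refine ⟨⟨γ, γ.continuous⟩, ?_, ?_, δ / 2, by positivity, ?_⟩
  · show dist (γ 0) w < r
    rw [γ.source, dist_comm]
    exact hxw
  · show M < ‖γ 1‖
    rw [γ.target]
    exact hy
  · intro t z hz
    show δ / 2 < dist (γ t) z
    by_contra hcon
    push Not at hcon
    have hz1 : z ∈ Metric.thickening δ (Set.range γ) := by
      rw [Metric.mem_thickening_iff]
      exact ⟨γ t, ⟨t, rfl⟩, by rw [dist_comm]; linarith⟩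
    exact Set.disjoint_left.mp hd hz1 (Metric.self_subset_thickening hδ _ hz)

/-- A connected set which meets `U` and its complement meets the frontier. -/
theorem cross {T U : Set ℂ} (hT : IsPreconnected T) (hU : IsOpen U) {x y : ℂ} (hx : x ∈ T)
    (hxU : x ∈ U) (hy : y ∈ T) (hyU : y ∉ U) : ∃ w ∈ T, w ∈ frontier U := by
  by_contra hcon
  push Not at hcon
  have h1 : T ⊆ U ∪ (closure U)ᶜ := by
    intro w hw
    by_cases h : w ∈ U
    · exact Or.inl h
    · right
      intro h2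
      apply hcon w hw
      rw [frontier, hU.interior_eq]
      exact ⟨h2, h⟩
  have h2 : y ∈ (closure U)ᶜ := (h1 hy).resolve_left hyU
  obtain ⟨w, -, h3, h4⟩ := hT U (closure U)ᶜ hU isClosed_closure.isOpen_compl h1 ⟨x, hx, hxU⟩
    ⟨y, hy, h2⟩
  exact h4 (subset_closure h3)

/-- Far away points are in the unbounded component. -/
theorem mem_unb {K : Set ℂ} {M : ℝ} (hM : 0 < M) (hK : ∀ x ∈ K, ‖x‖ ≤ M) {y : ℂ} (hy : M < ‖y‖) :
    y ∈ unb K := by
  refine ⟨fun h => absurd (hK y h) (not_le.2 hy), fun hb => ?_⟩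
  set S : Set ℂ := (fun s : ℝ => (s : ℂ) * y) '' Set.Ici 1 with hS
  have h1 : IsPreconnected S := isPreconnected_Ici.image _ (by fun_prop)
  have h2 : S ⊆ Kᶜ := by
    rintro _ ⟨s, hs, rfl⟩ h
    have h3 := hK _ h
    rw [norm_mul, Complex.norm_real, Real.norm_eq_abs, abs_of_nonneg (by
      have := Set.mem_Ici.1 hs; linarith)] at h3
    have := Set.mem_Ici.1 hs
    nlinarith [norm_nonneg y]
  have h3 : y ∈ S := ⟨1, Set.mem_Ici.2 le_rfl, by simp⟩
  have h4 := h1.subset_connectedComponentIn h3 h2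
  obtain ⟨C, hC⟩ := (hb.subset h4).exists_norm_le
  have hy0 : 0 < ‖y‖ := hM.trans hy
  have h5 : ((max 1 (C / ‖y‖ + 1) : ℝ) : ℂ) * y ∈ S := ⟨_, Set.mem_Ici.2 (le_max_left _ _), rfl⟩
  have h6 := hC _ h5
  rw [norm_mul, Complex.norm_real, Real.norm_eq_abs, abs_of_nonneg (by
    have := le_max_left 1 (C / ‖y‖ + 1); linarith)] at h6
  have h7 := le_max_right 1 (C / ‖y‖ + 1)
  have h8 : (C / ‖y‖ + 1) * ‖y‖ = C + ‖y‖ := by field_simp
  nlinarith

/-- A path which avoids the frontier of an open set and ends in it stays in it. -/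
theorem stay {U : Set ℂ} (hU : IsOpen U) (g : C(unitInterval, ℂ)) (h : ∀ t, g t ∉ frontier U)
    (h1 : g 1 ∈ U) (t : unitInterval) : g t ∈ U := by
  by_contra hcon
  obtain ⟨w, ⟨s, rfl⟩, hw⟩ := cross (T := Set.range g) (isPreconnected_range g.continuous) hU
    ⟨1, rfl⟩ h1 ⟨t, rfl⟩ hcon
  exact h s hw

/-- If the path keeps distance `ζ` from the frontier of `U`, then also from the complement. -/
theorem far_compl {U : Set ℂ} (hU : IsOpen U) {g : C(unitInterval, ℂ)} {ζ : ℝ} (hζ : 0 < ζ)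
    (h : ∀ t, ∀ x ∈ frontier U, ζ < dist (g t) x) (h1 : g 1 ∈ U) (t : unitInterval) {y : ℂ}
    (hy : y ∉ U) : ζ < dist (g t) y := by
  have h2 : g t ∈ U := stay hU g (fun s hs => by
    have := h s _ hs
    rw [dist_self] at this
    linarith) h1 t
  obtain ⟨w, hw, hw2⟩ := cross (T := segment ℝ (g t) y) (convex_segment _ _).isPreconnected hU
    (left_mem_segment _ _ _) h2 (right_mem_segment _ _ _) hy
  have h3 := h t w hw2
  have h4 : dist (g t) w ≤ dist (g t) y := by
    rw [segment_eq_image_lineMap] at hw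
    obtain ⟨s, hs, rfl⟩ := hw
    rw [dist_left_lineMap, Real.norm_eq_abs, abs_of_nonneg hs.1]
    nlinarith [hs.2, dist_nonneg (x := g t) (y := y)]
  linarith

end Pool.Agent.TH990.FU
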