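import Pool.Agent.TH990.FU.CovF
import Pool.Agent.TH990.FU.Col
import Pool.Agent.W347.DPAA

/-!
Points which belong to two different clusters.
-/

set_option autoImplicit false

namespace Pool.Agent.TH990.FU

open H974 H12S Finset H389NS H984P H342P H934E
open MeasureTheory Filter Topology TopologicalSpace Pool.Agent.W424.OD Pool.Agent.W462.DPL
open Pool.Agent.H389R2.CL
open scoped ENNReal NNReal

/-- The compact set comes within `r` of `z` and goes farther than `ρ` from `z`. -/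
def NF (z : ℂ) (r ρ : ℝ) : Set (NonemptyCompacts ℂ) :=
  {K | (∃ x ∈ K, dist x z < r) ∧ ∃ x ∈ K, ρ < dist x z}

theorem NF_open (z : ℂ) (r ρ : ℝ) : IsOpen (NF z r ρ) := by
  have h1 : IsOpen {K : NonemptyCompacts ℂ | ((K : Set ℂ) ∩ Metric.ball z r).Nonempty} :=
    NonemptyCompacts.isOpen_inter_nonempty_of_isOpen Metric.isOpen_ball
  have h2 : IsOpen {K : NonemptyCompacts ℂ | ((K : Set ℂ) ∩ {x | ρ < dist x z}).Nonempty} :=
    NonemptyCompacts.isOpen_inter_nonempty_of_isOpen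
      (isOpen_lt continuous_const (continuous_id.dist continuous_const))
  exact h1.inter h2

/-- Collections with two members which form a pair in `O`. -/
def Pairs (O : Set (NonemptyCompacts ℂ × NonemptyCompacts ℂ)) :
    Set (NonemptyCompacts (NonemptyCompacts ℂ)) :=
  {𝒞 | ∃ K ∈ 𝒞, ∃ K' ∈ 𝒞, (K, K') ∈ O}

theorem Pairs_open {O : Set (NonemptyCompacts ℂ × NonemptyCompacts ℂ)} (hO : IsOpen O) :
    IsOpen (Pairs O) := by
  rw [isOpen_iff_forall_mem_open]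
  rintro 𝒞 ⟨K, hK, K', hK', h⟩
  obtain ⟨U, V, hU, hV, hKU, hKV, hUV⟩ := isOpen_prod_iff.1 hO K K' h
  refine ⟨{𝒟 | ((𝒟 : Set (NonemptyCompacts ℂ)) ∩ U).Nonempty} ∩
    {𝒟 | ((𝒟 : Set (NonemptyCompacts ℂ)) ∩ V).Nonempty}, ?_,
    (NonemptyCompacts.isOpen_inter_nonempty_of_isOpen hU).inter
      (NonemptyCompacts.isOpen_inter_nonempty_of_isOpen hV), ⟨K, hK, hKU⟩, ⟨K', hK', hKV⟩⟩
  rintro 𝒟 ⟨⟨L, hL, hLU⟩, L', hL', hLV⟩
  exact ⟨L, hL, L', hL', hUV ⟨hLU, hLV⟩⟩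

/-- Two different members which are both close to `z` and reach far away. -/
def O2 (z : ℂ) (r ρ : ℝ) : Set (NonemptyCompacts ℂ × NonemptyCompacts ℂ) :=
  {p | p.1 ≠ p.2 ∧ p.1 ∈ NF z r ρ ∧ p.2 ∈ NF z r ρ}

theorem O2_open (z : ℂ) (r ρ : ℝ) : IsOpen (O2 z r ρ) := by
  have h1 : IsOpen {p : NonemptyCompacts ℂ × NonemptyCompacts ℂ | p.1 ≠ p.2} :=
    isOpen_ne_fun continuous_fst continuous_snd
  exact h1.inter (((NF_open z r ρ).preimage continuous_fst).inter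
    ((NF_open z r ρ).preimage continuous_snd))

/-- Probability of an event on the collection which concerns two clusters. -/
theorem collLaw_pairs_le (R : H934E.Rect) (δ : ℝ)
    {O : Set (NonemptyCompacts ℂ × NonemptyCompacts ℂ)} (hO : IsOpen O) :
    (collLaw R δ : Measure (NonemptyCompacts (NonemptyCompacts ℂ))) (Pairs O) ≤
      ENNReal.ofReal (Pr Pool.Agent.H160R2.CV.P (R.edges δ)
        (fun F => ∃ v w : Vtx, (clAt R δ F v, clAt R δ F w) ∈ O)) := by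
  rw [collLaw_apply R δ (Pairs_open hO).measurableSet]
  apply ENNReal.ofReal_le_ofReal
  apply Pr_mono Pool.Agent.H160R2.CV.w_ok
  rintro F _ ⟨K, hK, K', hK', h⟩
  obtain ⟨v, rfl⟩ := mem_coll hK
  obtain ⟨w, rfl⟩ := mem_coll hK'
  exact ⟨v, w, h⟩

theorem clAt_eq_of_reach (R : H934E.Rect) (δ : ℝ) {F : Finset Edg} {v w : Vtx}
    (h : Reach (↑F ∪ R.wired δ) v w) : clAt R δ F v = clAt R δ F w := by
  have h1 : cluAt R δ F v = cluAt R δ F w := by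
    ext u
    exact ⟨fun h2 => h.symm.trans h2, fun h2 => h.trans h2⟩
  apply NonemptyCompacts.ext
  show csetAt R δ F v = csetAt R δ F w
  unfold csetAt
  rw [h1]

/-- a cluster which is near and far, on the lattice -/
theorem nf_clu (R : H934E.Rect) {z : ℂ} {r d δ : ℝ} (hδ : 0 < δ) (hδr : δ ≤ r)
    (hd : 256 * r ≤ d) {F : Finset Edg} {v : Vtx} (hE : clAt R δ F v ∈ NF z r (d / 2)) :
    ∃ u u' : Vtx, Reach (↑F ∪ R.wired δ) v u ∧ Reach (↑F ∪ R.wired δ) v u' ∧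
      BX (ctr δ z) (⌈r / δ⌉₊ + 3 + 2) u ∧ ¬ BX (ctr δ z) (⌊d / (8 * δ)⌋₊ - 2) u' := by
  obtain ⟨⟨x, hxK, hx⟩, x', hxK', hx'⟩ := hE
  obtain ⟨u, hu, k1, k2⟩ := csetAt_near R hδ.le hxK
  obtain ⟨u', hu', k3, k4⟩ := csetAt_near R hδ.le hxK'
  have d1 : dist x (H934E.pt δ u) ≤ 2 * δ := by
    rw [dist_comm]
    refine (H984N.ML.dist_le_of (a := δ) (b := δ) ?_ ?_).trans (by linarith)
    · rw [abs_sub_comm]; exact k1
    · rw [abs_sub_comm]; exact k2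
  have d2 : dist x' (H934E.pt δ u') ≤ 2 * δ := by
    rw [dist_comm]
    refine (H984N.ML.dist_le_of (a := δ) (b := δ) ?_ ?_).trans (by linarith)
    · rw [abs_sub_comm]; exact k3
    · rw [abs_sub_comm]; exact k4
  rw [← zp_ptE] at d1 d2
  rw [← vz_ctrE hδ]
  have hmono : ∀ {a b : ℕ} {w : Vtx}, a ≤ b → BX (vz δ ⟨0, δ⟩ z) a w →
      BX (vz δ ⟨0, δ⟩ z) b w := by
    rintro a b w hab ⟨⟨q1, q2⟩, q3, q4⟩
    unfold BX inR
    omega
  refine ⟨u, u', hu, hu', hmono (a := ⌈r / δ⌉₊ + 3) (by omega) (box_of hδ ?_), fun h => ?_⟩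
  · have := dist_triangle_left (zp δ ⟨0, δ⟩ u) z x
    linarith
  · have h5 := of_box hδ h
    have hd0 : 0 < d := by linarith [hδ.trans_le hδr]
    have hk : ((⌊d / (8 * δ)⌋₊ - 2 : ℕ) : ℝ) ≤ d / (8 * δ) := by
      have h6 : (⌊d / (8 * δ)⌋₊ : ℝ) ≤ d / (8 * δ) := Nat.floor_le (by positivity)
      have h7 : ((⌊d / (8 * δ)⌋₊ - 2 : ℕ) : ℝ) ≤ (⌊d / (8 * δ)⌋₊ : ℝ) := by
        exact_mod_cast Nat.sub_le _ _
      linarith
    have h6 : 2 * δ * ((⌊d / (8 * δ)⌋₊ - 2 : ℕ) : ℝ) ≤ d / 4 := by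
      calc 2 * δ * ((⌊d / (8 * δ)⌋₊ - 2 : ℕ) : ℝ) ≤ 2 * δ * (d / (8 * δ)) :=
            mul_le_mul_of_nonneg_left hk (by positivity)
        _ = d / 4 := by
            field_simp
            norm_num
    have := dist_triangle x' (zp δ ⟨0, δ⟩ u') z
    linarith

/-- two different clusters imply four arms -/
theorem det4 (R : H934E.Rect) {z : ℂ} {r d δ : ℝ} (hδ : 0 < δ) (hδr : δ ≤ r)
    (hd : 256 * r ≤ d) (hball : Metric.ball z d ⊆ R.D) {F : Finset Edg}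
    {v w : Vtx} (hE : (clAt R δ F v, clAt R δ F w) ∈ O2 z r (d / 2)) :
    A4a (ctr δ z) (⌈r / δ⌉₊ + 3 + 2) (⌊d / (8 * δ)⌋₊ - 2) ↑F := by
  obtain ⟨hne, h1, h2⟩ := hE
  obtain ⟨s1, s2, s3, -⟩ := sizes hδ hδr hd
  obtain ⟨b1, b2, b3, b4⟩ := dom_box (toN R) hδ (show 64 * δ ≤ d by linarith) hball
  change R.x0 δ < _ at b1
  change _ < R.y1 δ at b4
  obtain ⟨x, x', hx, hx', hxB, hxB'⟩ := nf_clu R hδ hδr hd h1
  obtain ⟨y, y', hy, hy', hyB, hyB'⟩ := nf_clu R hδ hδr hd h2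
  obtain ⟨u, hu, p, hp, hu1, hu2⟩ := annX s2 hxB hxB' (hx.symm.trans hx')
  obtain ⟨u', hu', p', hp', hu1', hu2'⟩ := annX s2 hyB hyB' (hy.symm.trans hy')
  set G : Set Edg := ↑F ∪ R.wired δ with hG
  have hset : G ∩ AE (ctr δ z) (⌈r / δ⌉₊ + 3 + 2) (⌊d / (8 * δ)⌋₊ - 2) =
      ↑F ∩ ↑(blk (ctr δ z) (⌊d / (8 * δ)⌋₊ - 2) \ blk (ctr δ z) (⌈r / δ⌉₊ + 3 + 2)) := by
    ext e
    simp only [Set.mem_inter_iff, hG, Set.mem_union, Finset.mem_coe]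
    constructor
    · rintro ⟨h3 | h3, h4⟩
      · exact ⟨h3, h4⟩
      · exact absurd h3 (wired_blk (by omega) (by omega) (by omega)
          (Finset.mem_sdiff.1 (show e ∈ blk _ _ \ blk _ _ from h4)).1)
    · rintro ⟨h3, h4⟩
      exact ⟨Or.inl h3, h4⟩
  rw [hset] at hu2 hu2'
  refine ⟨u, hu, u', hu', ⟨p, hp, hu2⟩, ⟨p', hp', hu2'⟩, fun h => hne ?_⟩
  have h3 : Reach G u u' := h.mono (fun e he => Or.inl he.1)
  exact clAt_eq_of_reach R δ (hx.trans (hu1.trans (h3.trans (hu1'.symm.trans hy.symm))))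

/-- the probability bound for two clusters -/
theorem prob4 (R : H934E.Rect) :
    ∃ C : ℝ, 0 < C ∧ ∀ (z : ℂ) (r d δ : ℝ), 0 < r → r ≤ d →
      Metric.ball z d ⊆ R.D → 0 < δ → δ ≤ r →
        (collLaw R δ : Measure (NonemptyCompacts (NonemptyCompacts ℂ)))
          (Pairs (O2 z r (d / 2))) ≤ ENNReal.ofReal (C * (r / d) ^ (5/4 : ℝ)) := by
  obtain ⟨Ca, hCa, hA'⟩ := Pool.Agent.W347.DPAA.aa
  refine ⟨(Ca + 1) * 256 ^ (5/4 : ℝ), by positivity, ?_⟩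
  intro z r d δ hr hrd hball hδ hδr
  have hd0 : 0 < d := hr.trans_le hrd
  refine (collLaw_pairs_le R δ (O2_open z r (d / 2))).trans ?_
  apply ENNReal.ofReal_le_ofReal
  have hq : 0 < r / d := by positivity
  have hRHS : (Ca + 1) * 256 ^ (5/4 : ℝ) * (r / d) ^ (5/4 : ℝ) =
      (Ca + 1) * (256 * (r / d)) ^ (5/4 : ℝ) := by
    rw [Real.mul_rpow (by norm_num) hq.le]
    ring
  rw [hRHS]
  by_cases h256 : 256 * r ≤ d
  · obtain ⟨s1, s2, s3, s4⟩ := sizes hδ hδr h256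
    obtain ⟨b1, b2, b3, b4⟩ := dom_box (toN R) hδ (show 64 * δ ≤ d by linarith) hball
    change R.x0 δ < _ at b1
    change _ < R.x1 δ at b2
    change _ < R.y1 δ at b4
    have hsub1 : ∀ k : ℕ, k ≤ ⌊d / (8 * δ)⌋₊ → H12S.blk (ctr δ z) k ⊆ R.edges δ := by
      intro k hk
      exact blk_ES (by omega) (by omega) (by omega) (by omega)
    have h1 := hA' (ctr δ z) (⌈r / δ⌉₊ + 3 + 2) (⌊d / (8 * δ)⌋₊ - 2) (by omega) s2
      (R.edges δ) (hsub1 _ (by omega))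
    have hmono : Pr Pool.Agent.H160R2.CV.P (R.edges δ)
          (fun F => ∃ v w : Vtx, (clAt R δ F v, clAt R δ F w) ∈ O2 z r (d / 2)) ≤
        PQ (1/2) (R.edges δ) (fun F =>
          A4a (ctr δ z) (⌈r / δ⌉₊ + 3 + 2) (⌊d / (8 * δ)⌋₊ - 2) ↑F) := by
      show Pr (fun _ => (1/2:ℝ)) _ _ ≤ Pr (fun _ => (1/2:ℝ)) _ _
      apply Pr_mono okh
      rintro F hF ⟨v, w, hE⟩
      exact det4 R hδ hδr h256 hball hE
    have hpow : (((⌈r / δ⌉₊ + 3 + 2 : ℕ) : ℝ) / ((⌊d / (8 * δ)⌋₊ - 2 : ℕ) : ℝ)) ^ (5/4 : ℝ) ≤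
        (256 * (r / d)) ^ (5/4 : ℝ) :=
      Real.rpow_le_rpow (by positivity) s4 (by norm_num)
    have hx0 : 0 ≤ (256 * (r / d)) ^ (5/4 : ℝ) := by positivity
    have h3 := mul_le_mul_of_nonneg_left hpow hCa.le
    have h5 := hmono.trans (h1.trans h3)
    refine h5.trans ?_
    nlinarith
  · push Not at h256
    have h1 : Pr Pool.Agent.H160R2.CV.P (R.edges δ)
        (fun F => ∃ v w : Vtx, (clAt R δ F v, clAt R δ F w) ∈ O2 z r (d / 2)) ≤ 1 :=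
      Pr_le_one okh _ _
    refine h1.trans ?_
    have h2 : 1 ≤ 256 * (r / d) := by
      rw [← mul_div_assoc, le_div_iff₀ hd0]
      linarith
    have h3 : 1 ≤ (256 * (r / d)) ^ (5/4 : ℝ) := Real.one_le_rpow h2 (by norm_num)
    nlinarith

/-- The points which belong to two different members, both of which reach distance `η`. -/
def S2 (η : ℝ) (𝒞 : NonemptyCompacts (NonemptyCompacts ℂ)) : Set ℂ :=
  {w | ∃ K ∈ 𝒞, ∃ K' ∈ 𝒞, K ≠ K' ∧ (w ∈ K ∧ ∃ u ∈ K, η ≤ dist u w) ∧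
    (w ∈ K' ∧ ∃ u ∈ K', η ≤ dist u w)}

theorem O2_of {η d r : ℝ} {z w : ℂ} {𝒞 : NonemptyCompacts (NonemptyCompacts ℂ)} (hdη : d ≤ η)
    (hrd : r ≤ d / 2) (hw : w ∈ S2 η 𝒞) (hwz : dist w z < r) : 𝒞 ∈ Pairs (O2 z r (d / 2)) := by
  obtain ⟨K, hK, K', hK', hne, ⟨h1, u, hu, h2⟩, h3, u', hu', h4⟩ := hw
  refine ⟨K, hK, K', hK', hne, ⟨⟨w, h1, hwz⟩, u, hu, ?_⟩, ⟨w, h3, hwz⟩, u', hu', ?_⟩
  · have := dist_triangle u z w
    rw [dist_comm z w] at this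
    linarith
  · have := dist_triangle u' z w
    rw [dist_comm z w] at this
    linarith

/-- The points of two different nontrivial members. -/
def contacts (𝒞 : NonemptyCompacts (NonemptyCompacts ℂ)) : Set ℂ :=
  {w | ∃ K ∈ 𝒞, ∃ K' ∈ 𝒞, K ≠ K' ∧ (K : Set ℂ).Nontrivial ∧ (K' : Set ℂ).Nontrivial ∧
    w ∈ K ∧ w ∈ K'}

theorem contacts_sub (𝒞 : NonemptyCompacts (NonemptyCompacts ℂ)) :
    contacts 𝒞 ⊆ ⋃ i : ℕ, S2 (1 / ((i:ℝ) + 1)) 𝒞 := by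
  rintro w ⟨K, hK, K', hK', hne, hn, hn', hw, hw'⟩
  obtain ⟨u, huK, hu⟩ := hn.exists_ne w
  obtain ⟨u', huK', hu'⟩ := hn'.exists_ne w
  obtain ⟨i, hi⟩ := exists_nat_one_div_lt (lt_min (dist_pos.2 hu) (dist_pos.2 hu'))
  exact Set.mem_iUnion.2 ⟨i, K, hK, K', hK', hne, ⟨hw, u, huK, hi.le.trans (min_le_left _ _)⟩,
    hw', u', huK', hi.le.trans (min_le_right _ _)⟩

/-- **Contacts and fixed sets.** -/
theorem con (R : H934E.Rect) {δ : ℕ → ℝ} (hδ : ∀ i, 0 < δ i)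
    (hlim : Tendsto δ atTop (𝓝 0)) {μ : ProbabilityMeasure (NonemptyCompacts (NonemptyCompacts ℂ))}
    (hμ : Tendsto (fun i => collLaw R (δ i)) atTop (𝓝 μ)) (A : Set ℂ) :
    ∀ᵐ 𝒞 ∂(μ : Measure (NonemptyCompacts (NonemptyCompacts ℂ))),
      dimH (contacts 𝒞 ∩ A ∩ R.D) ≤ dimH A - ENNReal.ofReal (5/4) ∧
      (μH[5/4] A = 0 → contacts 𝒞 ∩ A ∩ R.D = ∅) := by
  obtain ⟨C, hC, hP⟩ := prob4 R
  have h := fixed_dim (μ := (μ : Measure (NonemptyCompacts (NonemptyCompacts ℂ))))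
    (E := fun d z r => Pairs (O2 z r (d / 2)))
    (fun d z r => (Pairs_open (O2_open z r (d / 2))).measurableSet) (S := S2)
    (fun η d z r w 𝒞 hdη hrd hw hwz => O2_of hdη hrd hw hwz) (DE_open R) hC.le
    (show (0:ℝ) < 5/4 by norm_num) ?_ A
  · filter_upwards [h] with 𝒞 h𝒞
    have hsub : contacts 𝒞 ∩ A ∩ R.D ⊆ (⋃ i : ℕ, S2 (1 / ((i:ℝ) + 1)) 𝒞) ∩ A ∩ R.D :=
      Set.inter_subset_inter_left _ (Set.inter_subset_inter_left _ (contacts_sub 𝒞))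
    exact ⟨(dimH_mono hsub).trans h𝒞.1, fun hA => Set.subset_empty_iff.1 (hsub.trans
      (h𝒞.2 hA).le)⟩
  · intro z r d hr hrd hball
    refine (ProbabilityMeasure.le_liminf_measure_open_of_tendsto hμ
      (Pairs_open (O2_open z r (d / 2)))).trans ?_
    refine liminf_le_of_frequently_le (Eventually.frequently ?_)
    filter_upwards [hlim.eventually (gt_mem_nhds hr)] with i hi
    exact hP z r d (δ i) hr hrd hball (hδ i) hi.le

end Pool.Agent.TH990.FU
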